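import Mathlib

set_option autoImplicit false

/-!
Base file for the nest algebra project (MP_194f66_an): matrix entries, upper triangular
operators on l2, diagonal operators, products of operators near the identity.
-/

namespace Pool.Agent.Helper499.NC

open scoped ENNReal InnerProductSpace ComplexConjugate

noncomputable section

/-- the Hilbert space l2(N) -/
abbrev Hs := lp (fun _ : ℕ => ℂ) 2

/-- bounded operators on l2(N) -/
abbrev Op := Hs →L[ℂ] Hs

/-- standard basis vector -/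
def ev (j : ℕ) : Hs := lp.single 2 j (1 : ℂ)

/-- matrix entry, row i, column j -/
def ent (X : Op) (i j : ℕ) : ℂ := (X (ev j) : ℕ → ℂ) i

/-- upper triangular operators -/
def UT (X : Op) : Prop := ∀ i j : ℕ, j < i → ent X i j = 0

theorem ev_apply (i j : ℕ) : (ev j : ℕ → ℂ) i = if i = j then 1 else 0 := by
  unfold ev
  rw [lp.single_apply]
  by_cases h : i = j
  · subst h; simp
  · rw [Pi.single_eq_of_ne h, if_neg h]

theorem norm_ev (j : ℕ) : ‖ev j‖ = 1 := by
  unfold ev
  rw [lp.norm_single (by norm_num)]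
  simp

theorem inner_ev_left (j : ℕ) (v : Hs) : inner ℂ (ev j) v = (v : ℕ → ℂ) j := by
  unfold ev
  rw [lp.inner_single_left]
  simp

theorem inner_ev_right (j : ℕ) (v : Hs) : inner ℂ v (ev j) = conj ((v : ℕ → ℂ) j) := by
  rw [← inner_conj_symm, inner_ev_left]

theorem ent_eq_inner (X : Op) (i j : ℕ) : ent X i j = inner ℂ (ev i) (X (ev j)) := by
  rw [inner_ev_left]; rfl

theorem hasSum_ev (v : Hs) : HasSum (fun j => (v : ℕ → ℂ) j • ev j) v := by
  have h := lp.hasSum_single (p := 2) (by norm_num) v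
  refine h.congr_fun ?_ |> fun h' => h'
  intro j
  unfold ev
  rw [← lp.single_smul]
  simp

theorem op_hasSum (X : Op) (v : Hs) : HasSum (fun j => (v : ℕ → ℂ) j • X (ev j)) (X v) := by
  have h := (hasSum_ev v).mapL X
  simpa using h

/-- two operators with the same matrix entries are equal -/
theorem op_ext {X Y : Op} (h : ∀ i j, ent X i j = ent Y i j) : X = Y := by
  have h1 : ∀ j, X (ev j) = Y (ev j) := by
    intro j
    apply lp.ext
    funext i
    exact h i j
  ext v : 1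
  have hX := op_hasSum X v
  have hY := op_hasSum Y v
  simp only [h1] at hX
  exact hX.unique hY

theorem ent_add (X Y : Op) (i j : ℕ) : ent (X + Y) i j = ent X i j + ent Y i j := by
  simp [ent]

theorem ent_sub (X Y : Op) (i j : ℕ) : ent (X - Y) i j = ent X i j - ent Y i j := by
  simp [ent]

theorem ent_neg (X : Op) (i j : ℕ) : ent (-X) i j = - ent X i j := by
  simp [ent]

theorem ent_smul (c : ℂ) (X : Op) (i j : ℕ) : ent (c • X) i j = c * ent X i j := by
  simp [ent]

theorem ent_zero (i j : ℕ) : ent (0 : Op) i j = 0 := by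
  simp [ent]

theorem ent_one (i j : ℕ) : ent (1 : Op) i j = if i = j then 1 else 0 := by
  simp [ent, ev_apply]

theorem ent_star (X : Op) (i j : ℕ) : ent (star X) i j = conj (ent X j i) := by
  rw [ent_eq_inner, ent_eq_inner, ContinuousLinearMap.star_eq_adjoint,
    ContinuousLinearMap.adjoint_inner_right, inner_conj_symm]

theorem coord_le (v : Hs) (i : ℕ) : ‖(v : ℕ → ℂ) i‖ ≤ ‖v‖ := by
  rw [← inner_ev_left]
  calc ‖inner ℂ (ev i) v‖ ≤ ‖ev i‖ * ‖v‖ := norm_inner_le_norm _ _
    _ = ‖v‖ := by rw [norm_ev, one_mul]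

theorem ent_le (X : Op) (i j : ℕ) : ‖ent X i j‖ ≤ ‖X‖ := by
  calc ‖ent X i j‖ ≤ ‖X (ev j)‖ := coord_le _ _
    _ ≤ ‖X‖ * ‖ev j‖ := X.le_opNorm _
    _ = ‖X‖ := by rw [norm_ev, mul_one]

/-- entries of a product -/
theorem ent_mul_hasSum (X Y : Op) (i k : ℕ) :
    HasSum (fun j => ent X i j * ent Y j k) (ent (X * Y) i k) := by
  have h := op_hasSum X (Y (ev k))
  have h2 := h.mapL (innerSL ℂ (ev i))
  have h3 : (fun j => innerSL ℂ (ev i) (((Y (ev k) : Hs) : ℕ → ℂ) j • X (ev j)))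
      = fun j => ent X i j * ent Y j k := by
    funext j
    rw [innerSL_apply_apply, inner_smul_right, ← ent_eq_inner]
    simp only [ent]
    ring
  rw [h3] at h2
  have h4 : innerSL ℂ (ev i) (X (Y (ev k))) = ent (X * Y) i k := by
    rw [innerSL_apply_apply, ent_eq_inner]
    rfl
  rw [h4] at h2
  exact h2

theorem UT_mul {X Y : Op} (hX : UT X) (hY : UT Y) : UT (X * Y) := by
  intro i k hk
  have h := ent_mul_hasSum X Y i k
  have h0 : (fun j => ent X i j * ent Y j k) = fun _ => 0 := by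
    funext j
    rcases lt_or_ge j i with hj | hj
    · rw [hX i j hj, zero_mul]
    · rw [hY j k (lt_of_lt_of_le hk hj), mul_zero]
  rw [h0] at h
  exact h.unique hasSum_zero

theorem UT_one : UT (1 : Op) := by
  intro i j h
  rw [ent_one, if_neg (by omega)]

theorem UT_zero : UT (0 : Op) := fun i j _ => ent_zero i j

theorem UT_add {X Y : Op} (hX : UT X) (hY : UT Y) : UT (X + Y) := by
  intro i j h
  rw [ent_add, hX i j h, hY i j h, add_zero]

theorem UT_sub {X Y : Op} (hX : UT X) (hY : UT Y) : UT (X - Y) := by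
  intro i j h
  rw [ent_sub, hX i j h, hY i j h, sub_zero]

theorem UT_neg {X : Op} (hX : UT X) : UT (-X) := by
  intro i j h
  rw [ent_neg, hX i j h, neg_zero]

theorem UT_smul (c : ℂ) {X : Op} (hX : UT X) : UT (c • X) := by
  intro i j h
  rw [ent_smul, hX i j h, mul_zero]

theorem UT_pow {X : Op} (hX : UT X) (n : ℕ) : UT (X ^ n) := by
  induction n with
  | zero => simpa using UT_one
  | succ n ih => rw [pow_succ]; exact UT_mul ih hX

theorem continuous_ent (i j : ℕ) : Continuous (fun X : Op => ent X i j) := by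
  have h : (fun X : Op => ent X i j) = fun X : Op => innerSL ℂ (ev i) (X (ev j)) := by
    funext X
    rw [ent_eq_inner, innerSL_apply_apply]
  rw [h]
  fun_prop

theorem isClosed_UT : IsClosed {X : Op | UT X} := by
  have h : {X : Op | UT X} = ⋂ (i : ℕ) (j : ℕ) (_ : j < i), {X : Op | ent X i j = 0} := by
    ext X
    simp [UT]
  rw [h]
  exact isClosed_iInter fun i => isClosed_iInter fun j => isClosed_iInter fun _ =>
    isClosed_eq (continuous_ent i j) continuous_const

/-- diagonal operators -/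
theorem dg_memlp (d : ℕ → ℂ) (C : ℝ) (h : ∀ n, ‖d n‖ ≤ C) (v : Hs) :
    Memℓp (fun n => d n * (v : ℕ → ℂ) n) 2 := by
  have hC : 0 ≤ C := le_trans (norm_nonneg _) (h 0)
  apply memℓp_gen
  have hv : Summable (fun n => ‖(v : ℕ → ℂ) n‖ ^ (2 : ℝ≥0∞).toReal) :=
    (memℓp_gen_iff (by norm_num)).1 (lp.memℓp v)
  refine Summable.of_nonneg_of_le (fun n => by positivity) ?_ (hv.mul_left (C ^ (2:ℝ≥0∞).toReal))
  intro n
  rw [norm_mul, Real.mul_rpow (norm_nonneg _) (norm_nonneg _)]
  gcongr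
  exact h n

/-- the diagonal operator with bounded diagonal d -/
def dgL (d : ℕ → ℂ) (C : ℝ) (h : ∀ n, ‖d n‖ ≤ C) : Op :=
  LinearMap.mkContinuous
    { toFun := fun v => (⟨fun n => d n * (v : ℕ → ℂ) n, dg_memlp d C h v⟩ : Hs)
      map_add' := by
        intro v w
        apply lp.ext
        funext n
        show d n * ((v : ℕ → ℂ) n + (w : ℕ → ℂ) n) = d n * (v : ℕ → ℂ) n + d n * (w : ℕ → ℂ) n
        ring
      map_smul' := by
        intro c v
        apply lp.ext
        funext n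
        show d n * (c * (v : ℕ → ℂ) n) = c * (d n * (v : ℕ → ℂ) n)
        ring } C (by
      intro v
      have hC : 0 ≤ C := le_trans (norm_nonneg _) (h 0)
      refine lp.norm_le_of_forall_sum_le (p := 2) (by norm_num) (by positivity) ?_
      intro s
      have h2 : (2 : ℝ≥0∞).toReal = 2 := by norm_num
      have hv := lp.sum_rpow_le_norm_rpow (p := 2) (by norm_num) v s
      rw [h2] at hv ⊢
      rw [Real.mul_rpow hC (norm_nonneg _)]
      calc ∑ i ∈ s, ‖((⟨fun n => d n * (v : ℕ → ℂ) n, dg_memlp d C h v⟩ : Hs) : ℕ → ℂ) i‖ ^ (2:ℝ)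
          ≤ ∑ i ∈ s, C ^ (2:ℝ) * ‖(v : ℕ → ℂ) i‖ ^ (2:ℝ) := by
            apply Finset.sum_le_sum
            intro i _
            show ‖d i * (v : ℕ → ℂ) i‖ ^ (2:ℝ) ≤ _
            rw [norm_mul, Real.mul_rpow (norm_nonneg _) (norm_nonneg _)]
            gcongr
            exact h i
        _ = C ^ (2:ℝ) * ∑ i ∈ s, ‖(v : ℕ → ℂ) i‖ ^ (2:ℝ) := by rw [Finset.mul_sum]
        _ ≤ C ^ (2:ℝ) * ‖v‖ ^ (2:ℝ) := by gcongr)

/-- the diagonal operator with diagonal d (zero if d is unbounded) -/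
def dg (d : ℕ → ℂ) : Op :=
  open Classical in
  if h : ∃ C : ℝ, ∀ n, ‖d n‖ ≤ C then dgL d h.choose h.choose_spec else 0

theorem dg_apply (d : ℕ → ℂ) {C : ℝ} (h : ∀ n, ‖d n‖ ≤ C) (v : Hs) (n : ℕ) :
    (dg d v : ℕ → ℂ) n = d n * (v : ℕ → ℂ) n := by
  unfold dg
  rw [dif_pos ⟨C, h⟩]
  rfl

theorem norm_dg_le (d : ℕ → ℂ) {C : ℝ} (h : ∀ n, ‖d n‖ ≤ C) : ‖dg d‖ ≤ C := by
  have hC : 0 ≤ C := le_trans (norm_nonneg _) (h 0)
  have he : dg d = dgL d C h := by
    ext v : 1
    apply lp.ext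
    funext n
    rw [dg_apply d h]
    rfl
  rw [he]
  exact LinearMap.mkContinuous_norm_le _ hC _

theorem ent_dg (d : ℕ → ℂ) {C : ℝ} (h : ∀ n, ‖d n‖ ≤ C) (i j : ℕ) :
    ent (dg d) i j = if i = j then d i else 0 := by
  unfold ent
  rw [dg_apply d h, ev_apply]
  by_cases hij : i = j <;> simp [hij]

theorem UT_dg (d : ℕ → ℂ) : UT (dg d) := by
  intro i j hij
  by_cases h : ∃ C : ℝ, ∀ n, ‖d n‖ ≤ C
  · obtain ⟨C, h⟩ := h
    rw [ent_dg d h, if_neg (by omega)]
  · unfold dg
    rw [dif_neg h]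
    exact ent_zero i j

/-- `Near n u`: u is a product of n upper triangular invertible operators, each within 1/2 of the
identity -/
def Near (n : ℕ) (u : Opˣ) : Prop :=
  ∃ l : List Opˣ, l.length = n ∧ (∀ v ∈ l, UT (v : Op) ∧ ‖(v : Op) - 1‖ ≤ 1 / 2) ∧ l.prod = u

end

end Pool.Agent.Helper499.NC
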