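import Pool.Agent.NestConn.Defs
import Pool.Agent.NestConn.NS.Final

set_option autoImplicit false

/-!
Modules M6, M7 (helper534): from `move` to the theorem, in the blueprint's definitions.
The mathematics is in `Pool.Agent.Helper534.NS.*`; this file is the adapter.
-/

namespace Pool.Agent.Helper499.NC

open Pool.Agent.Helper534

/-- the choice defined isometry is the concrete one -/
theorem bridge_V (φ : ℕ → ℕ) (hφ : Function.Injective φ) :
    V φ = (NS.V φ hφ).toContinuousLinearMap := by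
  have h : ∃ W : Op, ∀ k, W (ev k) = ev (φ k) :=
    ⟨(NS.V φ hφ).toContinuousLinearMap, fun k => NS.V_ev φ hφ k⟩
  have h1 : V φ = h.choose := by
    unfold V
    rw [dif_pos h]
  rw [h1]
  apply NS.op_ext_ev
  intro n
  rw [h.choose_spec n]
  exact (NS.V_ev φ hφ n).symm

theorem bridge_emb (φ : ℕ → ℕ) (hφ : Function.Injective φ) (A : Op) :
    emb φ A = NS.emb φ hφ A := by
  unfold emb NS.emb
  rw [bridge_V φ hφ, mul_assoc, ContinuousLinearMap.star_eq_adjoint]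
  rfl

theorem bridge_triv (n : ℕ) (A : Op) : Triv n A ↔ NS.Triv n A := by
  induction n generalizing A with
  | zero =>
    constructor
    · rintro ⟨l, hl, -, rfl⟩
      rw [List.length_eq_zero_iff.1 hl]
      exact List.prod_nil
    · intro h
      exact ⟨[], rfl, by simp, by rw [show A = 1 from h]; rfl⟩
  | succ n ih =>
    constructor
    · rintro ⟨l, hl, h2, rfl⟩
      rcases l with _ | ⟨X, l⟩
      · simp at hl
      · refine ⟨X, l.prod, ⟨(h2 X (by simp)).1, (h2 X (by simp)).2.2⟩, ?_, List.prod_cons⟩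
        rw [← ih]
        exact ⟨l, by simpa using hl, fun B hB => h2 B (by simp [hB]), rfl⟩
    · rintro ⟨X, C, hX, hC, rfl⟩
      rw [← ih] at hC
      obtain ⟨l, hl, h2, rfl⟩ := hC
      refine ⟨X :: l, by simp [hl], ?_, List.prod_cons.symm⟩
      intro B hB
      rcases List.mem_cons.1 hB with h | h
      · subst h
        refine ⟨hX.1, ?_, hX.2⟩
        intro i j hij
        rcases hij with h | h <;> exact absurd (Set.mem_univ _) h
      · exact h2 B h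

theorem bridge_cls (κ : ℝ) (A B : Op) (h : Cls κ A B) : NS.Cls κ A :=
  ⟨h.1, h.2.2.2.2.1, B, h.2.2.1, h.2.2.2.1, h.2.2.2.2.2⟩

theorem bridge_cls' (κ : ℝ) (A : Op) (h : NS.Cls κ A) : ∃ B, Cls κ A B := by
  obtain ⟨h1, h2, B, h3, h4, h5⟩ := h
  exact ⟨B, h1, NS.UT_inv h1 h3 h4, h3, h4, h2, h5⟩

theorem bridge_sbu (N : ℕ) (A : Op) (h : SBU N A) : NS.BS N A := by
  intro i j hne
  by_contra hlt
  exact hne (h i j (not_lt.1 hlt))

theorem bridge_slot (N : ℕ) : slot N = NS.phiF N := rfl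

/-! ### embeddings -/

theorem ns_emb_mul (φ : ℕ → ℕ) (hφ : Function.Injective φ) (A B : Op) :
    NS.emb φ hφ (A * B) = NS.emb φ hφ A * NS.emb φ hφ B := by
  apply NS.op_ext_ev
  intro n
  by_cases hn : ∃ k, φ k = n
  · obtain ⟨k, rfl⟩ := hn
    have key : ∀ x : Hs, NS.emb φ hφ A (NS.V φ hφ x) = NS.V φ hφ (A x) := by
      intro x
      have h1 := (NS.V_hasSum φ hφ x).mapL (NS.emb φ hφ A)
      have h2 := (op_hasSum A x).mapL (NS.V φ hφ).toContinuousLinearMap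
      have h3 : (fun k => NS.emb φ hφ A ((x : ℕ → ℂ) k • ev (φ k)))
          = fun k => (NS.V φ hφ).toContinuousLinearMap ((x : ℕ → ℂ) k • A (ev k)) := by
        funext k
        rw [map_smul, map_smul, NS.emb_ev_self]
        rfl
      rw [h3] at h1
      exact h1.unique h2
    have e : (NS.emb φ hφ A * NS.emb φ hφ B) (ev (φ k))
        = NS.emb φ hφ A (NS.emb φ hφ B (ev (φ k))) := rfl
    rw [NS.emb_ev_self, e, NS.emb_ev_self, key]
    rfl
  · push Not at hn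
    have e : (NS.emb φ hφ A * NS.emb φ hφ B) (ev n)
        = NS.emb φ hφ A (NS.emb φ hφ B (ev n)) := rfl
    rw [NS.emb_ev_ne φ hφ _ n hn, e, NS.emb_ev_ne φ hφ B n hn,
      NS.emb_ev_ne φ hφ A n hn]

theorem ns_emb_one (φ : ℕ → ℕ) (hφ : Function.Injective φ) : NS.emb φ hφ 1 = 1 := by
  unfold NS.emb
  simp

theorem ns_emb_ut (φ : ℕ → ℕ) (hφ : StrictMono φ) (A : Op) (hA : UT A) :
    UT (NS.emb φ hφ.injective A) := by
  intro i j hij
  unfold ent
  by_cases hj : ∃ k, φ k = j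
  · obtain ⟨k, rfl⟩ := hj
    rw [NS.emb_ev_self]
    by_cases hi : ∃ m, φ m = i
    · obtain ⟨m, rfl⟩ := hi
      rw [NS.V_apply_eq]
      exact hA m k (hφ.lt_iff_lt.1 hij)
    · push Not at hi
      exact NS.V_apply_ne φ _ _ i hi
  · push Not at hj
    rw [NS.emb_ev_ne φ _ A j hj, ev_apply, if_neg (by omega)]

theorem ns_triv_emb (φ : ℕ → ℕ) (hφ : StrictMono φ) (n : ℕ) (A : Op) (hA : NS.Triv n A) :
    NS.Triv n (NS.emb φ hφ.injective A) := by
  induction n generalizing A with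
  | zero => rw [show A = 1 from hA, ns_emb_one]; rfl
  | succ n ih =>
    obtain ⟨X, C, hX, hC, rfl⟩ := hA
    refine ⟨_, _, ⟨ns_emb_ut φ hφ X hX.1, ?_⟩, ih C hC, ns_emb_mul φ hφ.injective X C⟩
    exact (NS.norm_emb_sub_one_le φ hφ.injective X).trans hX.2

theorem slot_strictMono {N : ℕ} (hN : 0 < N) : StrictMono (slot N) := by
  have h := NS.StrictMono_pos hN (c := 1) le_rfl 0
  rw [NS.pos_zero_eq] at h
  exact h

/-! ### the two modules -/

/-- The statement of module M5. -/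
def Move : Prop := ∀ κ : ℝ, ∃ N n : ℕ, 0 < N ∧ ∀ A B, Cls κ A B →
    ∃ A' B', Cls 8 A' B' ∧ SBU N (A' - 1) ∧ Triv n (A * emb (slot N) B')

theorem move_form (h : Move) (κ : ℝ) : ∃ (N : ℕ) (hN : 0 < N) (n : ℕ), ∀ A : Op, NS.Cls κ A →
    ∃ A' g : Op, NS.Cls 8 A' ∧ NS.BS N (A' - 1) ∧ NS.Triv n g ∧
      A = g * NS.emb (NS.phiF N) (NS.phiF_inj hN) A' := by
  obtain ⟨N, n, hN, hm⟩ := h κ
  refine ⟨N, hN, n, fun A hA => ?_⟩
  obtain ⟨B, hAB⟩ := bridge_cls' κ A hA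
  obtain ⟨A', B', h1, h2, h3⟩ := hm A B hAB
  refine ⟨A', A * emb (slot N) B', bridge_cls 8 A' B' h1, bridge_sbu N _ h2,
    (bridge_triv _ _).1 h3, ?_⟩
  rw [bridge_emb (slot N) (NS.phiF_inj hN), mul_assoc]
  show A = A * (NS.emb (NS.phiF N) (NS.phiF_inj hN) B' * NS.emb (NS.phiF N) (NS.phiF_inj hN) A')
  rw [← ns_emb_mul, h1.2.2.2.1, ns_emb_one, mul_one]

/-- all elements of `Cls 8` are products of boundedly many factors near `1` -/
theorem triv_eight (h : Move) : ∃ m : ℕ, ∀ A : Op, NS.Cls 8 A → NS.Triv m A := by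
  obtain ⟨N, hN, n, hm⟩ := move_form h 8
  obtain ⟨n₁, hn₁⟩ := NS.swindle N hN 8 n hm
  refine ⟨n + n₁, fun A hA => ?_⟩
  obtain ⟨A', g, h1, h2, h3, h4⟩ := hm A hA
  rw [h4]
  exact NS.Triv_mul h3 (hn₁ A' h1)

/-- uniform version of M6: the number of factors depends only on `κ` -/
theorem all_triv_unif (h : Move) (κ : ℝ) : ∃ m : ℕ, ∀ A B : Op, Cls κ A B → Triv m A := by
  obtain ⟨m, hm⟩ := triv_eight h
  obtain ⟨N, hN, n, hmv⟩ := move_form h κ
  refine ⟨n + m, fun A B hAB => ?_⟩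
  obtain ⟨A', g, h1, h2, h3, h4⟩ := hmv A (bridge_cls κ A B hAB)
  rw [bridge_triv, h4]
  exact NS.Triv_mul h3 (ns_triv_emb (slot N) (slot_strictMono hN) m A' (hm A' h1))

/-- M6 -/
theorem all_triv_of_move (h : Move) (κ : ℝ) (A B : Op) (hAB : Cls κ A B) : ∃ n, Triv n A := by
  obtain ⟨m, hm⟩ := all_triv_unif h κ
  exact ⟨m, hm A B hAB⟩

/-- M7 -/
theorem final_of_move (h : Move) :
    IsConnected
      {T : lp (fun _ : ℕ => ℂ) 2 →L[ℂ] lp (fun _ : ℕ => ℂ) 2 |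
        ∃ U : (lp (fun _ : ℕ => ℂ) 2 →L[ℂ] lp (fun _ : ℕ => ℂ) 2)ˣ,
          (U : lp (fun _ : ℕ => ℂ) 2 →L[ℂ] lp (fun _ : ℕ => ℂ) 2) = T ∧
          (∀ i j : ℕ, j < i →
            ((U : lp (fun _ : ℕ => ℂ) 2 →L[ℂ] lp (fun _ : ℕ => ℂ) 2)
              (lp.single 2 j (1 : ℂ)) : ℕ → ℂ) i = 0) ∧
          (∀ i j : ℕ, j < i →
            (((U⁻¹ : (lp (fun _ : ℕ => ℂ) 2 →L[ℂ] lp (fun _ : ℕ => ℂ) 2)ˣ) :
                lp (fun _ : ℕ => ℂ) 2 →L[ℂ] lp (fun _ : ℕ => ℂ) 2)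
              (lp.single 2 j (1 : ℂ)) : ℕ → ℂ) i = 0)} := by
  have hall : ∀ A ∈ NS.GG, JoinedIn NS.GG 1 A := by
    intro A hA
    obtain ⟨⟨U, hU⟩, hUT⟩ := (NS.mem_GG A).1 hA
    have hcls : NS.Cls (max ‖A‖ ‖((U⁻¹ : Opˣ) : Op)‖) A :=
      ⟨hUT, le_max_left _ _, ((U⁻¹ : Opˣ) : Op), by rw [← hU]; simp, by rw [← hU]; simp,
        le_max_right _ _⟩
    obtain ⟨B, hAB⟩ := bridge_cls' _ A hcls
    obtain ⟨n, hn⟩ := all_triv_of_move h _ A B hAB
    exact NS.Triv_joined ((bridge_triv n A).1 hn)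
  have h1 : (1 : Op) ∈ NS.GG := (NS.mem_GG 1).2 ⟨isUnit_one, UT_one⟩
  have hp : IsPathConnected NS.GG := ⟨1, h1, fun {y} hy => hall y hy⟩
  exact hp.isConnected

end Pool.Agent.Helper499.NC
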