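import Pool.Agent.NestConn.Base

set_option autoImplicit false

/-! Common definitions for the nest algebra project (MP_194f66_an, S02675). -/

namespace Pool.Agent.Helper499.NC

noncomputable section

/-- The matrix of `A` is supported on the relation `R`. -/
def Supp (R : ℕ → ℕ → Prop) (A : Op) : Prop := ∀ i j, ¬ R i j → ent A i j = 0

/-- Strictly upper triangular with respect to the blocks of length `N`. -/
def SBU (N : ℕ) (A : Op) : Prop := ∀ i j, j / N ≤ i / N → ent A i j = 0

/-- `A`, `B` upper triangular, inverse to each other, both of norm at most `κ`. -/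
def Cls (κ : ℝ) (A B : Op) : Prop :=
  UT A ∧ UT B ∧ A * B = 1 ∧ B * A = 1 ∧ ‖A‖ ≤ κ ∧ ‖B‖ ≤ κ

/-- `A` is the identity outside the coordinate set `S`. -/
def On (S : Set ℕ) (A : Op) : Prop := ∀ i j, (i ∉ S ∨ j ∉ S) → ent A i j = ent 1 i j

/-- `A` is a product of `n` upper triangular factors within `1/2` of the identity, living on `S`. -/
def TrivOn (S : Set ℕ) (n : ℕ) (A : Op) : Prop :=
  ∃ l : List Op, l.length = n ∧ (∀ B ∈ l, UT B ∧ On S B ∧ ‖B - 1‖ ≤ 1 / 2) ∧ A = l.prod

/-- `A` is a product of `n` upper triangular factors within `1/2` of the identity. -/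
def Triv (n : ℕ) (A : Op) : Prop := TrivOn Set.univ n A

open Classical in
/-- The coordinate projection onto `S`. -/
def Pr (S : Set ℕ) : Op := dg (fun j => if j ∈ S then 1 else 0)

open Classical in
/-- The isometry `ev k ↦ ev (φ k)` (for injective `φ`). -/
def V (φ : ℕ → ℕ) : Op :=
  if h : ∃ W : Op, ∀ k, W (ev k) = ev (φ k) then h.choose else 0

/-- `A` transported to the coordinates `φ 0, φ 1, …`, identity elsewhere. -/
def emb (φ : ℕ → ℕ) (A : Op) : Op := 1 + V φ * (A - 1) * star (V φ)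

/-- near-unitary upper triangular elements with positive diagonal, `t = s⁻¹`. -/
def Ueta (η : ℝ) (s t : Op) : Prop :=
  UT s ∧ UT t ∧ s * t = 1 ∧ t * s = 1 ∧ ‖star s * s - 1‖ ≤ η ∧
    ∀ j, 0 < (ent s j j).re ∧ (ent s j j).im = 0

/-- the first `N` slots of each block of length `4 N` -/
def slot (N : ℕ) (a : ℕ) : ℕ := 4 * N * (a / N) + a % N

/-- `E` contains exactly one index from each block of length `L`, and the selection is balanced
with respect to `Y` up to `δ`. -/
def Sel (L : ℕ) (E : Set ℕ) (Y : Op) (δ : ℝ) : Prop :=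
  (∀ b, ∃! m, m ∈ E ∧ m / L = b) ∧
  ‖Y * ((L : ℂ) • Pr E - 1) * Y‖ ≤ δ ∧ ‖star Y * ((L : ℂ) • Pr E - 1) * Y‖ ≤ δ ∧
    ‖Y * ((L : ℂ) • Pr E - 1) * star Y‖ ≤ δ

end

end Pool.Agent.Helper499.NC
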