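import Pool.Agent.NestConn.Halving
import Pool.Agent.NestConn.Defs

set_option autoImplicit false

namespace Pool.Agent.Helper499.NC

theorem fin_selection (M : ℝ) : ∃ C : ℝ, 0 < C ∧ ∀ {γ κ : Type} [Fintype γ] [DecidableEq γ] [Fintype κ] [DecidableEq κ]
    (k : ℕ) (ε : ℝ) (u : γ → Fin (2 ^ k) → κ → ℂ), 0 < ε → (2:ℝ) ^ k * ε ≤ 1 →
    (∀ c a, ∑ x, ‖u c a x‖ ^ 2 ≤ ε) →
    (∀ x : κ → ℂ, ∑ c, ∑ a, ‖∑ i, star (u c a i) * x i‖ ^ 2 ≤ M * ∑ i, ‖x i‖ ^ 2) →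
    ∃ s : γ → Fin (2 ^ k), ∀ x : κ → ℂ,
      |(2:ℝ) ^ k * ∑ c, ‖∑ i, star (u c (s c) i) * x i‖ ^ 2 - ∑ c, ∑ a, ‖∑ i, star (u c a i) * x i‖ ^ 2|
        ≤ C * Real.sqrt ((2:ℝ) ^ k * ε) * ∑ i, ‖x i‖ ^ 2 := by
  refine ⟨84 * (Real.sqrt (max M 0) + 84), by positivity, ?_⟩
  intro γ κ _ _ _ _ k ε u hε hk hu hM
  have hs : Real.sqrt ε ^ 2 = ε := Real.sq_sqrt hε.le
  obtain ⟨s, hs2⟩ := Nest57.selection_fin (max M 0) (le_max_right _ _) k γ (Fin (2 ^ k)) (by simp) u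
    (Real.sqrt ε) (Real.sqrt_pos.2 hε) (by rw [hs]; exact hk) (by intro c a; rw [hs]; exact hu c a)
    (by
      intro x
      refine (hM x).trans ?_
      gcongr
      exact le_max_left _ _)
  refine ⟨s, fun x => ?_⟩
  have h := hs2 x
  rw [Real.sqrt_mul (by positivity), ← mul_assoc]
  exact h

end Pool.Agent.Helper499.NC
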