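import Pool.Agent.NestConn.T4

set_option autoImplicit false

namespace Pool.Agent.Helper499.NC

theorem on_univ (A : Op) : On Set.univ A := by
  intro i j h
  rcases h with h | h
  · exact absurd (Set.mem_univ i) h
  · exact absurd (Set.mem_univ j) h

theorem on_mono (S T : Set ℕ) (h : S ⊆ T) (A : Op) (hA : On S A) : On T A := by
  intro i j hij
  apply hA
  rcases hij with h1 | h1
  · exact Or.inl (fun h2 => h1 (h h2))
  · exact Or.inr (fun h2 => h1 (h h2))

theorem row_mul (A B : Op) (i k : ℕ) (h : ∀ j, ent A i j = ent 1 i j) :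
    ent (A * B) i k = ent B i k := by
  have h1 := ent_mul_hasSum A B i k
  have h2 := ent_mul_hasSum 1 B i k
  rw [one_mul] at h2
  have h3 : (fun j => ent A i j * ent B j k) = fun j => ent 1 i j * ent B j k := by
    funext j
    rw [h j]
  rw [h3] at h1
  exact h1.unique h2

theorem col_mul (A B : Op) (i k : ℕ) (h : ∀ j, ent B j k = ent 1 j k) :
    ent (A * B) i k = ent A i k := by
  have h1 := ent_mul_hasSum A B i k
  have h2 := ent_mul_hasSum A 1 i k
  rw [mul_one] at h2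
  have h3 : (fun j => ent A i j * ent B j k) = fun j => ent A i j * ent 1 j k := by
    funext j
    rw [h j]
  rw [h3] at h1
  exact h1.unique h2

theorem on_mul (S : Set ℕ) (A B : Op) (hA : On S A) (hB : On S B) : On S (A * B) := by
  intro i k hik
  rcases hik with hi | hk
  · rw [row_mul A B i k (fun j => hA i j (Or.inl hi))]
    exact hB i k (Or.inl hi)
  · rw [col_mul A B i k (fun j => hB j k (Or.inr hk))]
    exact hA i k (Or.inr hk)

theorem on_iff (S : Set ℕ) (A : Op) : On S A ↔ Pr S * (A - 1) * Pr S = A - 1 := by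
  constructor
  · intro h
    apply op_ext
    intro i j
    rw [ent_Pr_mul_mul_Pr]
    split_ifs with hij
    · rfl
    · rw [ent_sub]
      have h1 : i ∉ S ∨ j ∉ S := by
        by_contra hc
        push Not at hc
        exact hij hc
      rw [h i j h1, sub_self]
  · intro h i j hij
    have h1 : ent (Pr S * (A - 1) * Pr S) i j = ent (A - 1) i j := by rw [h]
    rw [ent_Pr_mul_mul_Pr, if_neg (by
      rintro ⟨h2, h3⟩
      rcases hij with h4 | h4
      · exact h4 h2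
      · exact h4 h3), ent_sub] at h1
    exact (sub_eq_zero.mp h1.symm)

theorem on_inv (S : Set ℕ) (A B : Op) (h1 : A * B = 1) (h2 : B * A = 1) (hA : On S A) : On S B := by
  intro i k hik
  rcases hik with hi | hk
  · have h3 := row_mul A B i k (fun j => hA i j (Or.inl hi))
    rw [h1] at h3
    exact h3.symm
  · have h3 := col_mul B A i k (fun j => hA j k (Or.inr hk))
    rw [h2] at h3
    exact h3.symm

theorem trivOn_one (S : Set ℕ) (n : ℕ) : TrivOn S n 1 := by
  refine ⟨List.replicate n 1, List.length_replicate, ?_, ?_⟩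
  · intro B hB
    rw [List.eq_of_mem_replicate hB]
    refine ⟨UT_one, fun i j _ => rfl, ?_⟩
    rw [sub_self, norm_zero]
    norm_num
  · rw [List.prod_replicate, one_pow]

theorem trivOn_mul (S : Set ℕ) (n m : ℕ) (A B : Op) (hA : TrivOn S n A) (hB : TrivOn S m B) : TrivOn S (n + m) (A * B) := by
  obtain ⟨l, hl, h1, rfl⟩ := hA
  obtain ⟨l', hl', h1', rfl⟩ := hB
  refine ⟨l ++ l', by rw [List.length_append, hl, hl'], ?_, by rw [List.prod_append]⟩
  intro B hB
  rcases List.mem_append.mp hB with hB | hB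
  · exact h1 B hB
  · exact h1' B hB

theorem trivOn_mono (S T : Set ℕ) (h : S ⊆ T) (n m : ℕ) (hn : n ≤ m) (A : Op) (hA : TrivOn S n A) : TrivOn T m A := by
  obtain ⟨k, rfl⟩ := Nat.exists_eq_add_of_le hn
  obtain ⟨l, hl, h1, h2⟩ := hA
  have hA' : TrivOn T n A := ⟨l, hl, fun B hB => ⟨(h1 B hB).1, on_mono S T h B (h1 B hB).2.1, (h1 B hB).2.2⟩, h2⟩
  have h3 := trivOn_mul T n k A 1 hA' (trivOn_one T k)
  rwa [mul_one] at h3

theorem trivOn_emb (φ : ℕ → ℕ) (hφ : StrictMono φ) (S : Set ℕ) (n : ℕ) (A : Op) (hA : TrivOn S n A) : TrivOn (φ '' S) n (emb φ A) := by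
  obtain ⟨l, hl, h1, rfl⟩ := hA
  have hprod : ∀ l : List Op, emb φ l.prod = (l.map (emb φ)).prod := by
    intro l
    induction l with
    | nil => rw [List.prod_nil, List.map_nil, List.prod_nil, emb_one]
    | cons a l ih => rw [List.prod_cons, List.map_cons, List.prod_cons, emb_mul φ hφ.injective, ih]
  refine ⟨l.map (emb φ), by rw [List.length_map, hl], ?_, hprod l⟩
  intro B hB
  obtain ⟨C, hC, rfl⟩ := List.mem_map.mp hB
  obtain ⟨h2, h3, h4⟩ := h1 C hC
  exact ⟨emb_ut φ hφ C h2, emb_on φ hφ.injective S C h3,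
    (norm_emb_sub_one_le φ hφ.injective C).trans h4⟩

/-- a Lipschitz path with bounded inverses gives a product of few near-identity factors -/
theorem trivOn_of_path (S : Set ℕ) (p q : ℝ → Op) (M K : ℝ) (n : ℕ) (hn : 0 < n) (hMK : 2 * M * K ≤ n) (hM : 0 ≤ M) (hK : 0 ≤ K)
    (hp : ∀ t ∈ Set.Icc (0:ℝ) 1, UT (p t) ∧ UT (q t) ∧ On S (p t) ∧ On S (q t) ∧ p t * q t = 1 ∧ q t * p t = 1 ∧ ‖q t‖ ≤ K)
    (hl : ∀ s ∈ Set.Icc (0:ℝ) 1, ∀ t ∈ Set.Icc (0:ℝ) 1, ‖p s - p t‖ ≤ M * |s - t|) :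
    TrivOn S n (p 0 * q 1) := by
  have hn' : (0 : ℝ) < n := by exact_mod_cast hn
  have hmem : ∀ j : ℕ, j ≤ n → (j : ℝ) / n ∈ Set.Icc (0:ℝ) 1 := by
    intro j hj
    constructor
    · positivity
    · rw [div_le_one hn']
      exact_mod_cast hj
  have key : ∀ j : ℕ, j ≤ n → TrivOn S j (p 0 * q ((j : ℝ) / n)) := by
    intro j
    induction j with
    | zero =>
      intro _
      have h0 : ((0 : ℕ) : ℝ) / n = 0 := by simp
      rw [h0, (hp 0 ⟨le_rfl, zero_le_one⟩).2.2.2.2.1]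
      exact trivOn_one S 0
    | succ j ih =>
      intro hj
      have h1 := ih (by omega)
      obtain ⟨u1, u2, u3, u4, u5, u6, u7⟩ := hp _ (hmem j (by omega))
      obtain ⟨w1, w2, w3, w4, w5, w6, w7⟩ := hp _ (hmem (j + 1) hj)
      have hfac : TrivOn S 1 (p ((j : ℝ) / n) * q (((j + 1 : ℕ) : ℝ) / n)) := by
        refine ⟨[p ((j : ℝ) / n) * q (((j + 1 : ℕ) : ℝ) / n)], rfl, ?_, by rw [List.prod_singleton]⟩
        intro B hB
        rw [List.mem_singleton] at hB
        subst hB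
        refine ⟨UT_mul u1 w2, on_mul S _ _ u3 w4, ?_⟩
        have h2 : p ((j : ℝ) / n) * q (((j + 1 : ℕ) : ℝ) / n) - 1 =
            (p ((j : ℝ) / n) - p (((j + 1 : ℕ) : ℝ) / n)) * q (((j + 1 : ℕ) : ℝ) / n) := by
          rw [sub_mul, w5]
        rw [h2]
        refine (norm_mul_le _ _).trans ?_
        have h3 := hl _ (hmem j (by omega)) _ (hmem (j + 1) hj)
        have h4 : |(j : ℝ) / n - ((j + 1 : ℕ) : ℝ) / n| = 1 / n := by
          rw [← sub_div, abs_div, abs_of_pos hn']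
          congr 1
          push_cast
          rw [show (j : ℝ) - (j + 1) = -1 by ring, abs_neg, abs_one]
        rw [h4] at h3
        calc ‖p ((j : ℝ) / n) - p (((j + 1 : ℕ) : ℝ) / n)‖ * ‖q (((j + 1 : ℕ) : ℝ) / n)‖
            ≤ (M * (1 / n)) * K := mul_le_mul h3 w7 (norm_nonneg _) (by positivity)
          _ ≤ 1 / 2 := by
            rw [show M * (1 / (n : ℝ)) * K = (M * K) / n by ring, div_le_iff₀ hn']
            linarith
      have h5 := trivOn_mul S j 1 _ _ h1 hfac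
      have h6 : p 0 * q ((j : ℝ) / n) * (p ((j : ℝ) / n) * q (((j + 1 : ℕ) : ℝ) / n)) =
          p 0 * q (((j + 1 : ℕ) : ℝ) / n) := by
        rw [mul_assoc, ← mul_assoc (q ((j : ℝ) / n)), u6, one_mul]
      rwa [h6] at h5
  have h7 := key n le_rfl
  rwa [div_self hn'.ne'] at h7

theorem on_affine (S : Set ℕ) (A : Op) (c : ℂ) (hA : On S A) : On S (1 + c • (A - 1)) := by
  intro i j hij
  rw [ent_add, ent_smul, ent_sub, hA i j hij, sub_self, mul_zero, add_zero]

theorem near_inv (S : Set ℕ) (A : Op) (c : ℝ) (hu : UT A) (ho : On S A) (hn : ‖A - 1‖ ≤ 1 / 2)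
    (hc0 : 0 ≤ c) (hc1 : c ≤ 1) :
    ∃ C : Op, UT C ∧ On S C ∧ (1 + ((c : ℝ) : ℂ) • (A - 1)) * C = 1 ∧
      C * (1 + ((c : ℝ) : ℂ) • (A - 1)) = 1 ∧ ‖C‖ ≤ (1 / 2)⁻¹ := by
  have h0 : ‖-(((c : ℝ) : ℂ) • (A - 1))‖ ≤ 1 / 2 := by
    rw [norm_neg, norm_smul, Complex.norm_real, Real.norm_of_nonneg hc0]
    calc c * ‖A - 1‖ ≤ 1 * (1 / 2) := mul_le_mul hc1 hn (norm_nonneg _) zero_le_one
      _ = 1 / 2 := one_mul _
  obtain ⟨C, h1, h2, h3, h4⟩ := ut_neumann (-(((c : ℝ) : ℂ) • (A - 1)))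
    (UT_neg (UT_smul _ (UT_sub hu UT_one))) (lt_of_le_of_lt h0 (by norm_num))
  rw [sub_neg_eq_add] at h2 h3
  refine ⟨C, h1, ?_, h2, h3, h4.trans ?_⟩
  · exact on_inv S _ C h2 h3 (on_affine S A _ ho)
  · apply inv_anti₀ (by norm_num)
    linarith

theorem trivOn_inv (S : Set ℕ) (n : ℕ) (A B : Op) (h1 : A * B = 1) (h2 : B * A = 1) (hA : TrivOn S n A) : TrivOn S (2 * n) B := by
  obtain ⟨l, hl, hfac, rfl⟩ := hA
  have hone : ∀ B₀ : Op, UT B₀ → On S B₀ → ‖B₀ - 1‖ ≤ 1 / 2 →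
      ∃ C, TrivOn S 2 C ∧ B₀ * C = 1 ∧ C * B₀ = 1 := by
    intro B₀ hu ho hn
    obtain ⟨C1, c1, c2, c3, c4, c5⟩ := near_inv S B₀ 1 hu ho hn zero_le_one le_rfl
    obtain ⟨C2, d1, d2, d3, d4, d5⟩ := near_inv S B₀ (1/2) hu ho hn (by norm_num) (by norm_num)
    have hone' : (1 : Op) + (((1:ℝ) : ℝ) : ℂ) • (B₀ - 1) = B₀ := by
      rw [Complex.ofReal_one, one_smul]; abel
    rw [hone'] at c3 c4
    have hDn : ‖B₀ - 1‖ ≤ 1 / 2 := hn
    set D := B₀ - 1 with hD
    have hhalf : ‖(((1/2 : ℝ) : ℝ) : ℂ) • D‖ ≤ 1 / 4 := by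
      rw [norm_smul, Complex.norm_real, Real.norm_of_nonneg (by norm_num)]
      linarith
    have hn2 : ‖C2 - 1‖ ≤ 1 / 2 := by
      have e : C2 - 1 = - ((((1/2 : ℝ) : ℝ) : ℂ) • D * C2) := by
        have h0 : C2 + (((1/2 : ℝ) : ℝ) : ℂ) • D * C2 = 1 := by
          rw [← d3, add_mul, one_mul]
        rw [← h0]; abel
      rw [e, norm_neg]
      refine (norm_mul_le _ _).trans ?_
      have hd5 : ‖C2‖ ≤ 2 := by
        refine d5.trans ?_
        rw [inv_le_comm₀ (by norm_num) (by norm_num)]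
        norm_num
      calc ‖(((1/2 : ℝ) : ℝ) : ℂ) • D‖ * ‖C2‖ ≤ (1/4) * 2 :=
            mul_le_mul hhalf hd5 (norm_nonneg _) (by norm_num)
        _ = 1 / 2 := by norm_num
    let E : Op := (1 + (((1/2 : ℝ) : ℝ) : ℂ) • D) * C1
    have hE : ‖E - 1‖ ≤ 1 / 2 := by
      have e : E - 1 = - ((((1/2 : ℝ) : ℝ) : ℂ) • D * C1) := by
        have h0 : B₀ = 1 + D := by rw [hD]; abel
        have h1 : (1 : Op) = C1 + D * C1 := by
          rw [← c3, h0, add_mul, one_mul]
        have h2 : E = C1 + (((1/2 : ℝ) : ℝ) : ℂ) • D * C1 := by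
          simp only [E, add_mul, one_mul]
        have h3 : D * C1 = (((1/2 : ℝ) : ℝ) : ℂ) • D * C1 + (((1/2 : ℝ) : ℝ) : ℂ) • D * C1 := by
          rw [← add_mul, ← add_smul]
          norm_num
        calc E - 1 = C1 + (((1/2 : ℝ) : ℝ) : ℂ) • D * C1 - (C1 + D * C1) := by rw [h2, ← h1]
          _ = - ((((1/2 : ℝ) : ℝ) : ℂ) • D * C1) := by
            rw [h3]
            abel
      rw [e, norm_neg]
      refine (norm_mul_le _ _).trans ?_
      have hc5 : ‖C1‖ ≤ 2 := by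
        refine c5.trans ?_
        rw [inv_le_comm₀ (by norm_num) (by norm_num)]
        norm_num
      calc ‖(((1/2 : ℝ) : ℝ) : ℂ) • D‖ * ‖C1‖ ≤ (1/4) * 2 :=
            mul_le_mul hhalf hc5 (norm_nonneg _) (by norm_num)
        _ = 1 / 2 := by norm_num
    have hUTh : UT (1 + (((1/2 : ℝ) : ℝ) : ℂ) • D) := UT_add UT_one (UT_smul _ (UT_sub hu UT_one))
    have hOnh : On S (1 + (((1/2 : ℝ) : ℝ) : ℂ) • D) := on_affine S B₀ _ ho
    refine ⟨C2 * E, ⟨[C2, E], rfl, ?_, ?_⟩, ?_, ?_⟩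
    · intro B hB
      simp only [List.mem_cons, List.not_mem_nil, or_false] at hB
      rcases hB with rfl | rfl
      · exact ⟨d1, d2, hn2⟩
      · exact ⟨UT_mul hUTh c1, on_mul S _ _ hOnh c2, hE⟩
    · simp
    · have h0 : C2 * E = C1 := by
        simp only [E]
        rw [← mul_assoc, d4, one_mul]
      rw [h0, c3]
    · have h0 : C2 * E = C1 := by
        simp only [E]
        rw [← mul_assoc, d4, one_mul]
      rw [h0, c4]
  have hall : ∀ l : List Op, (∀ B ∈ l, UT B ∧ On S B ∧ ‖B - 1‖ ≤ 1 / 2) →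
      ∃ C, TrivOn S (2 * l.length) C ∧ l.prod * C = 1 ∧ C * l.prod = 1 := by
    intro l
    induction l with
    | nil =>
      intro _
      exact ⟨1, trivOn_one S _, by rw [List.prod_nil, one_mul], by rw [List.prod_nil, one_mul]⟩
    | cons a l ih =>
      intro hal
      obtain ⟨C, hC, hC1, hC2⟩ := ih (fun B hB => hal B (List.mem_cons_of_mem _ hB))
      obtain ⟨a1, a2, a3⟩ := hal a List.mem_cons_self
      obtain ⟨C', hC', hC1', hC2'⟩ := hone a a1 a2 a3
      refine ⟨C * C', ?_, ?_, ?_⟩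
      · have := trivOn_mul S _ _ C C' hC hC'
        rw [List.length_cons]
        exact this
      · rw [List.prod_cons, mul_assoc, ← mul_assoc l.prod, hC1, one_mul, hC1']
      · rw [List.prod_cons, mul_assoc, ← mul_assoc C', hC2', one_mul, hC2]
  obtain ⟨C, hC, hC1, hC2⟩ := hall l hfac
  have hBC : B = C := by
    calc B = B * (l.prod * C) := by rw [hC1, mul_one]
      _ = C := by rw [← mul_assoc, h2, one_mul]
  rw [hBC, ← hl]
  exact hC

theorem trivOn_conj (κ : ℝ) (n : ℕ) : ∃ m, ∀ (S : Set ℕ) (A G G' : Op), TrivOn S n A → Cls κ G G' → On S G → TrivOn S m (G * A * G') := by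
  obtain ⟨N, hN⟩ := exists_nat_gt (2 * κ ^ 4)
  refine ⟨n * (N + 1), ?_⟩
  intro S A G G' hA hG hGS
  obtain ⟨g1, g2, g3, g4, g5, g6⟩ := hG
  have hGS' : On S G' := on_inv S G G' g3 g4 hGS
  have hκ : 0 ≤ κ := (norm_nonneg _).trans g5
  have hone : ∀ B : Op, UT B → On S B → ‖B - 1‖ ≤ 1 / 2 → TrivOn S (N + 1) (G * B * G') := by
    intro B hu ho hn
    have hR : ∀ t : ℝ, ∃ R : Op, t ∈ Set.Icc (0:ℝ) 1 →
        (UT R ∧ On S R ∧ (1 + (((1 - t : ℝ)) : ℂ) • (B - 1)) * R = 1 ∧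
          R * (1 + (((1 - t : ℝ)) : ℂ) • (B - 1)) = 1 ∧ ‖R‖ ≤ (1 / 2)⁻¹) := by
      intro t
      by_cases ht : t ∈ Set.Icc (0:ℝ) 1
      · obtain ⟨R, hR⟩ := near_inv S B (1 - t) hu ho hn (by linarith [ht.2]) (by linarith [ht.1])
        exact ⟨R, fun _ => hR⟩
      · exact ⟨1, fun h => absurd h ht⟩
    choose R hR using hR
    have hpath := trivOn_of_path S (fun t => G * (1 + (((1 - t : ℝ)) : ℂ) • (B - 1)) * G')
      (fun t => G * R t * G') (κ ^ 2 / 2) (2 * κ ^ 2) (N + 1) (Nat.succ_pos N)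
      (by
        push_cast
        nlinarith) (by positivity) (by positivity)
      (by
        intro t ht
        obtain ⟨r1, r2, r3, r4, r5⟩ := hR t ht
        refine ⟨UT_mul (UT_mul g1 (UT_add UT_one (UT_smul _ (UT_sub hu UT_one)))) g2,
          UT_mul (UT_mul g1 r1) g2, on_mul S _ _ (on_mul S _ _ hGS (on_affine S B _ ho)) hGS',
          on_mul S _ _ (on_mul S _ _ hGS r2) hGS', ?_, ?_, ?_⟩
        · change G * (1 + (((1 - t : ℝ)) : ℂ) • (B - 1)) * G' * (G * R t * G') = 1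
          have e : G * (1 + (((1 - t : ℝ)) : ℂ) • (B - 1)) * G' * (G * R t * G') =
              G * ((1 + (((1 - t : ℝ)) : ℂ) • (B - 1)) * (G' * G) * R t) * G' := by
            simp only [mul_assoc]
          rw [e, g4, mul_one, r3, mul_one, g3]
        · change G * R t * G' * (G * (1 + (((1 - t : ℝ)) : ℂ) • (B - 1)) * G') = 1
          have e : G * R t * G' * (G * (1 + (((1 - t : ℝ)) : ℂ) • (B - 1)) * G') =
              G * (R t * (G' * G) * (1 + (((1 - t : ℝ)) : ℂ) • (B - 1))) * G' := by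
            simp only [mul_assoc]
          rw [e, g4, mul_one, r4, mul_one, g3]
        · change ‖G * R t * G'‖ ≤ 2 * κ ^ 2
          have h5 : ‖R t‖ ≤ 2 := by
            refine r5.trans ?_
            norm_num
          calc ‖G * R t * G'‖ ≤ ‖G * R t‖ * ‖G'‖ := norm_mul_le _ _
            _ ≤ (‖G‖ * ‖R t‖) * ‖G'‖ := mul_le_mul_of_nonneg_right (norm_mul_le _ _) (norm_nonneg _)
            _ ≤ (κ * 2) * κ := mul_le_mul (mul_le_mul g5 h5 (norm_nonneg _) hκ) g6 (norm_nonneg _)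
                  (by positivity)
            _ = 2 * κ ^ 2 := by ring)
      (by
        intro s hs t ht
        change ‖G * (1 + (((1 - s : ℝ)) : ℂ) • (B - 1)) * G' -
          G * (1 + (((1 - t : ℝ)) : ℂ) • (B - 1)) * G'‖ ≤ κ ^ 2 / 2 * |s - t|
        have e : G * (1 + (((1 - s : ℝ)) : ℂ) • (B - 1)) * G' -
            G * (1 + (((1 - t : ℝ)) : ℂ) • (B - 1)) * G' =
            G * ((((t - s : ℝ)) : ℂ) • (B - 1)) * G' := by
          rw [← sub_mul, ← mul_sub]
          congr 2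
          rw [add_sub_add_left_eq_sub, ← sub_smul]
          congr 1
          push_cast
          ring
        rw [e]
        have h6 : ‖(((t - s : ℝ)) : ℂ) • (B - 1)‖ ≤ |s - t| * (1 / 2) := by
          rw [norm_smul, Complex.norm_real, Real.norm_eq_abs, abs_sub_comm]
          exact mul_le_mul_of_nonneg_left hn (abs_nonneg _)
        calc ‖G * ((((t - s : ℝ)) : ℂ) • (B - 1)) * G'‖
            ≤ ‖G * ((((t - s : ℝ)) : ℂ) • (B - 1))‖ * ‖G'‖ := norm_mul_le _ _
          _ ≤ (‖G‖ * ‖(((t - s : ℝ)) : ℂ) • (B - 1)‖) * ‖G'‖ :=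
              mul_le_mul_of_nonneg_right (norm_mul_le _ _) (norm_nonneg _)
          _ ≤ (κ * (|s - t| * (1 / 2))) * κ :=
              mul_le_mul (mul_le_mul g5 h6 (norm_nonneg _) hκ) g6 (norm_nonneg _) (by positivity)
          _ = κ ^ 2 / 2 * |s - t| := by ring)
    have hR1 : R 1 = 1 := by
      obtain ⟨r1, r2, r3, r4, r5⟩ := hR 1 ⟨zero_le_one, le_rfl⟩
      have e : (1 : Op) + (((1 - 1 : ℝ)) : ℂ) • (B - 1) = 1 := by
        rw [sub_self, Complex.ofReal_zero, zero_smul, add_zero]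
      rw [e, one_mul] at r3
      exact r3
    have e0 : (1 : Op) + (((1 - 0 : ℝ)) : ℂ) • (B - 1) = B := by
      rw [sub_zero, Complex.ofReal_one, one_smul]; abel
    have h8 : (fun t : ℝ => G * (1 + (((1 - t : ℝ)) : ℂ) • (B - 1)) * G') 0 *
        (fun t => G * R t * G') 1 = G * B * G' := by
      change G * (1 + (((1 - 0 : ℝ)) : ℂ) • (B - 1)) * G' * (G * R 1 * G') = G * B * G'
      rw [e0, hR1, mul_one, g3, mul_one]
    rw [h8] at hpath
    exact hpath
  have hall : ∀ l : List Op, (∀ B ∈ l, UT B ∧ On S B ∧ ‖B - 1‖ ≤ 1 / 2) →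
      TrivOn S (l.length * (N + 1)) (G * l.prod * G') := by
    intro l
    induction l with
    | nil =>
      intro _
      rw [List.prod_nil, mul_one, g3]
      exact trivOn_one S _
    | cons a l ih =>
      intro hal
      have h1 := ih (fun B hB => hal B (List.mem_cons_of_mem _ hB))
      obtain ⟨a1, a2, a3⟩ := hal a List.mem_cons_self
      have h2 := trivOn_mul S _ _ _ _ (hone a a1 a2 a3) h1
      have e : G * a * G' * (G * l.prod * G') = G * (a :: l).prod * G' := by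
        rw [List.prod_cons]
        have e1 : G * a * G' * (G * l.prod * G') = G * a * (G' * G) * l.prod * G' := by
          simp only [mul_assoc]
        rw [e1, g4, mul_one]
        simp only [mul_assoc]
      rw [e] at h2
      refine trivOn_mono S S subset_rfl _ _ (le_of_eq ?_) _ h2
      rw [List.length_cons]
      ring
  obtain ⟨l, hl, hfac, rfl⟩ := hA
  rw [← hl]
  exact hall l hfac




end Pool.Agent.Helper499.NC
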