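import Pool.Agent.NestConn.NS.Final
import Pool.Agent.NestConn.T5

set_option autoImplicit false

namespace Pool.Agent.Helper499.NC

theorem triv_of_list (n : ℕ) (A : Op) (h : Triv n A) : Pool.Agent.Helper534.NS.Triv n A := by
  obtain ⟨l, hl, h1, h2⟩ := h
  have key : ∀ (l : List Op), (∀ B ∈ l, UT B ∧ On Set.univ B ∧ ‖B - 1‖ ≤ 1 / 2) →
      Pool.Agent.Helper534.NS.Triv l.length l.prod := by
    intro l
    induction l with
    | nil => intro _; simp [Pool.Agent.Helper534.NS.Triv]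
    | cons X l ih =>
      intro h
      have hX := h X (by simp)
      refine ⟨X, l.prod, ⟨hX.1, hX.2.2⟩, ih (fun B hB => h B (by simp [hB])), by simp⟩
  have h3 := key l h1
  rw [hl, ← h2] at h3
  exact h3

theorem emb_ev_self' (φ : ℕ → ℕ) (hφ : Function.Injective φ) (A : Op) (k : ℕ) :
    emb φ A (ev (φ k)) = V φ (A (ev k)) := by
  unfold emb
  show (1 : Op) (ev (φ k)) + (V φ) ((A - 1) (star (V φ) (ev (φ k)))) = _
  rw [star_V_range φ hφ k]
  show ev (φ k) + (V φ) (A (ev k) - ev k) = _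
  rw [map_sub, V_apply φ hφ k]
  abel

theorem emb_ev_ne' (φ : ℕ → ℕ) (hφ : Function.Injective φ) (A : Op) (n : ℕ) (hn : n ∉ Set.range φ) :
    emb φ A (ev n) = ev n := by
  unfold emb
  show (1 : Op) (ev n) + (V φ) ((A - 1) (star (V φ) (ev n))) = _
  rw [star_V_not φ hφ n hn, map_zero, map_zero, add_zero]
  rfl

theorem emb_eq (φ : ℕ → ℕ) (hφ : Function.Injective φ) (A : Op) :
    emb φ A = Pool.Agent.Helper534.NS.emb φ hφ A := by
  have hV : V φ = (Pool.Agent.Helper534.NS.V φ hφ).toContinuousLinearMap := by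
    apply Pool.Agent.Helper534.NS.op_ext_ev
    intro k
    rw [V_apply φ hφ k]
    exact (Pool.Agent.Helper534.NS.V_ev φ hφ k).symm
  apply Pool.Agent.Helper534.NS.op_ext_ev
  intro n
  by_cases hn : n ∈ Set.range φ
  · obtain ⟨k, rfl⟩ := hn
    rw [emb_ev_self' φ hφ, Pool.Agent.Helper534.NS.emb_ev_self, hV]
    rfl
  · rw [emb_ev_ne' φ hφ A n hn, Pool.Agent.Helper534.NS.emb_ev_ne]
    intro k hk
    exact hn ⟨k, hk⟩

theorem connected_of_move'
    (move : ∀ κ : ℝ, ∃ N n : ℕ, 0 < N ∧ ∀ A B, Cls κ A B →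
      ∃ A' B', Cls 8 A' B' ∧ SBU N (A' - 1) ∧ Triv n (A * emb (slot N) B')) :
    IsConnected Pool.Agent.Helper534.NS.GG := by
  have hall : ∀ A ∈ Pool.Agent.Helper534.NS.GG, JoinedIn Pool.Agent.Helper534.NS.GG 1 A := by
    intro A hA
    obtain ⟨⟨U, hU⟩, hUT⟩ := (Pool.Agent.Helper534.NS.mem_GG A).1 hA
    obtain ⟨κ, hκ⟩ : ∃ κ : ℝ, κ = max 8 (max ‖A‖ ‖((U⁻¹ : Opˣ) : Op)‖) := ⟨_, rfl⟩
    obtain ⟨N, n, hN, hmove⟩ := move κ
    have hinj : Function.Injective (slot N) := Pool.Agent.Helper534.NS.phiF_inj hN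
    have hm : ∀ A : Op, Pool.Agent.Helper534.NS.Cls κ A →
        ∃ A' g : Op, Pool.Agent.Helper534.NS.Cls κ A' ∧ Pool.Agent.Helper534.NS.BS N (A' - 1) ∧
          Pool.Agent.Helper534.NS.Triv n g ∧
          A = g * Pool.Agent.Helper534.NS.emb (Pool.Agent.Helper534.NS.phiF N)
            (Pool.Agent.Helper534.NS.phiF_inj hN) A' := by
      intro A hA
      obtain ⟨hUTA, hnA, B, hAB, hBA, hnB⟩ := hA
      obtain ⟨A', B', hcls, hsbu, htriv⟩ := hmove A B
        ⟨hUTA, Pool.Agent.Helper534.NS.UT_inv hUTA hAB hBA, hAB, hBA, hnA, hnB⟩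
      obtain ⟨hUTA', hUTB', hAB', hBA', hnA', hnB'⟩ := hcls
      refine ⟨A', A * emb (slot N) B', ⟨hUTA', ?_, B', hAB', hBA', ?_⟩, ?_, triv_of_list n _ htriv, ?_⟩
      · exact hnA'.trans (by rw [hκ]; exact le_max_left _ _)
      · exact hnB'.trans (by rw [hκ]; exact le_max_left _ _)
      · intro i j hij
        by_contra hlt
        exact hij (hsbu i j (not_lt.1 hlt))
      · have h1 : Pool.Agent.Helper534.NS.emb (Pool.Agent.Helper534.NS.phiF N)
            (Pool.Agent.Helper534.NS.phiF_inj hN) A' = emb (slot N) A' :=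
          (emb_eq (slot N) hinj A').symm
        rw [h1, mul_assoc, ← emb_mul (slot N) hinj, hBA', emb_one, mul_one]
    obtain ⟨n₁, hn₁⟩ := Pool.Agent.Helper534.NS.swindle N hN κ n hm
    have hcls : Pool.Agent.Helper534.NS.Cls κ A :=
      ⟨hUT, by rw [hκ]; exact (le_max_left _ _).trans (le_max_right _ _),
        ((U⁻¹ : Opˣ) : Op), by rw [← hU]; simp, by rw [← hU]; simp,
        by rw [hκ]; exact (le_max_right _ _).trans (le_max_right _ _)⟩
    obtain ⟨A', g, h1, h2, h3, h4⟩ := hm A hcls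
    have h5 := Pool.Agent.Helper534.NS.Triv_mul h3 (hn₁ A' h1)
    rw [← h4] at h5
    exact Pool.Agent.Helper534.NS.Triv_joined h5
  have h1 : (1 : Op) ∈ Pool.Agent.Helper534.NS.GG :=
    (Pool.Agent.Helper534.NS.mem_GG 1).2 ⟨isUnit_one, UT_one⟩
  have hp : IsPathConnected Pool.Agent.Helper534.NS.GG := ⟨1, h1, fun {y} hy => hall y hy⟩
  exact hp.isConnected

end Pool.Agent.Helper499.NC
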