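import Pool.Agent.NestConn.Bridge

set_option autoImplicit false

/-!
Path D of module M4 (helper534): an operator living on one selected coordinate per block is moved
to the slot `i` of the blocks.
-/

namespace Pool.Agent.Helper499.NC

open Pool.Agent.Helper534
open scoped ENNReal InnerProductSpace ComplexConjugate

/-! ### algebra -/

theorem pd_alg1 {A : Type} [Ring A] (J J' X X' : A) (hJ : J' * J = 1)
    (h : X + X' + X * X' = 0) : (1 + J * X * J') * (1 + J * X' * J') = 1 := by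
  have e : (1 + J * X * J') * (1 + J * X' * J') = 1 + J * (X + X' + X * (J' * J) * X') * J' := by
    noncomm_ring
  rw [e, hJ, mul_one, h, mul_zero, zero_mul, add_zero]

theorem pd_alg2 {A : Type} [Ring A] (S S' w w' : A) (hw : w * w' = 1)
    (hP : (w - 1) * (S * S') = w - 1) :
    S' * (w - 1) * S + S' * (w' - 1) * S + (S' * (w - 1) * S) * (S' * (w' - 1) * S) = 0 := by
  have e : (S' * (w - 1) * S) * (S' * (w' - 1) * S) = S' * ((w - 1) * (S * S')) * (w' - 1) * S := by
    noncomm_ring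
  rw [e, hP]
  have e2 : S' * (w - 1) * S + S' * (w' - 1) * S + S' * (w - 1) * (w' - 1) * S
      = S' * (w * w' - 1) * S := by noncomm_ring
  rw [e2, hw, sub_self, mul_zero, zero_mul]

theorem pd_alg2' {A : Type} [Ring A] (S S' w w' : A) (hw : w' * w = 1)
    (hP : (S * S') * (w - 1) = w - 1) :
    S' * (w' - 1) * S + S' * (w - 1) * S + (S' * (w' - 1) * S) * (S' * (w - 1) * S) = 0 := by
  have e : (S' * (w' - 1) * S) * (S' * (w - 1) * S) = S' * (w' - 1) * ((S * S') * (w - 1)) * S := by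
    noncomm_ring
  rw [e, hP]
  have e2 : S' * (w' - 1) * S + S' * (w - 1) * S + S' * (w' - 1) * (w - 1) * S
      = S' * (w' * w - 1) * S := by noncomm_ring
  rw [e2, hw, sub_self, mul_zero, zero_mul]

theorem pd_alg3 {A : Type} [Ring A] [Algebra ℂ A] (S S' R R' Q : A) (c s : ℂ)
    (hcs : c * c + s * s = 1) (hSS : S' * S = 1) (hRR : R' * R = 1) (hSR : S' * R = Q)
    (hRS : R' * S = Q) (hQQ : Q * Q = Q) :
    (Q * S' + (1 - Q) * (c • S' + s • R')) * (S * Q + (c • S + s • R) * (1 - Q)) = 1 := by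
  have h1 : S' * (c • S + s • R) = c • 1 + s • Q := by
    rw [mul_add, mul_smul_comm, mul_smul_comm, hSS, hSR]
  have h2 : (c • S' + s • R') * S = c • 1 + s • Q := by
    rw [add_mul, smul_mul_assoc, smul_mul_assoc, hSS, hRS]
  have h3 : (c • S' + s • R') * (c • S + s • R) = 1 + (c * s + s * c) • Q := by
    rw [add_mul, mul_add, mul_add, smul_mul_smul_comm, smul_mul_smul_comm, smul_mul_smul_comm,
      smul_mul_smul_comm, hSS, hRR, hSR, hRS, add_smul]
    have : (1 : A) = (c * c) • 1 + (s * s) • 1 := by rw [← add_smul, hcs, one_smul]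
    nth_rewrite 3 [this]
    abel
  generalize c • S + s • R = T at h1 h3 ⊢
  generalize c • S' + s • R' = T' at h2 h3 ⊢
  have e : (Q * S' + (1 - Q) * T') * (S * Q + T * (1 - Q))
      = Q * (S' * S) * Q + Q * (S' * T) * (1 - Q) + (1 - Q) * (T' * S) * Q
        + (1 - Q) * (T' * T) * (1 - Q) := by noncomm_ring
  rw [e, h1, h2, h3, hSS]
  simp only [mul_add, add_mul, smul_mul_assoc, mul_smul_comm, mul_sub, sub_mul, hQQ, mul_one,
    one_mul, sub_self, smul_zero, smul_sub]
  abel

theorem pd_norm_le_one (J : Op) (h : star J * J = 1) : ‖J‖ ≤ 1 := by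
  apply ContinuousLinearMap.opNorm_le_bound _ zero_le_one
  intro v
  have h1 : (inner ℂ (J v) (J v) : ℂ) = inner ℂ v v := by
    have h2 : inner ℂ v ((star J) (J v)) = (inner ℂ (J v) (J v) : ℂ) := by
      rw [ContinuousLinearMap.star_eq_adjoint, ContinuousLinearMap.adjoint_inner_right]
    rw [← h2]
    have e : (star J) (J v) = (star J * J) v := rfl
    rw [e, h]; rfl
  rw [inner_self_eq_norm_sq_to_K, inner_self_eq_norm_sq_to_K] at h1
  have h3 : ‖J v‖ ^ 2 = ‖v‖ ^ 2 := by exact_mod_cast h1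
  rw [one_mul]
  exact le_of_eq ((sq_eq_sq₀ (norm_nonneg _) (norm_nonneg _)).1 h3)

theorem pd_norm_proj (D : Op) (h : star D * D = D) : ‖D‖ ≤ 1 := by
  apply ContinuousLinearMap.opNorm_le_bound _ zero_le_one
  intro v
  have h1 : (inner ℂ (D v) (D v) : ℂ) = inner ℂ v (D v) := by
    have h2 : inner ℂ v ((star D) (D v)) = (inner ℂ (D v) (D v) : ℂ) := by
      rw [ContinuousLinearMap.star_eq_adjoint, ContinuousLinearMap.adjoint_inner_right]
    rw [← h2]
    have e : (star D) (D v) = (star D * D) v := rfl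
    rw [e, h]
  have h3 : ‖D v‖ ^ 2 ≤ ‖v‖ * ‖D v‖ := by
    have h4 := norm_inner_le_norm (𝕜 := ℂ) v (D v)
    rw [← h1, inner_self_eq_norm_sq_to_K] at h4
    simpa using h4
  rw [one_mul]
  rcases (norm_nonneg (D v)).eq_or_lt with h5 | h5
  · rw [← h5]; exact norm_nonneg _
  · nlinarith

theorem pd_star_ev (J : Op) (L : ℕ) (hJ : ∀ b p, p / L ≠ b → ent J p b = 0) (p : ℕ) :
    star J (ev p) = (conj (ent J p (p / L))) • ev (p / L) := by
  apply lp.ext
  funext b
  have h1 : (star J (ev p) : ℕ → ℂ) b = conj (ent J p b) := by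
    rw [← inner_ev_left, ContinuousLinearMap.star_eq_adjoint,
      ContinuousLinearMap.adjoint_inner_right, inner_ev_right]
    rfl
  rw [h1]
  show _ = (conj (ent J p (p / L))) • (ev (p / L) : ℕ → ℂ) b
  rw [ev_apply]
  by_cases h : b = p / L
  · subst h; simp
  · rw [if_neg h, hJ b p (fun h' => h h'.symm)]; simp

theorem pd_ent (J X : Op) (p q : ℕ) :
    ent (J * X * star J) p q = inner ℂ (star J (ev p)) (X (star J (ev q))) := by
  rw [ent_eq_inner]
  have e : (J * X * star J) (ev q) = J (X (star J (ev q))) := rfl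
  rw [e, ContinuousLinearMap.star_eq_adjoint, ContinuousLinearMap.adjoint_inner_left]

theorem pd_sbu (L : ℕ) (J : Op) (hJ : ∀ b p, p / L ≠ b → ent J p b = 0) (X : Op)
    (hX : ∀ a b, b ≤ a → ent X a b = 0) : SBU L (J * X * star J) := by
  intro p q hpq
  rw [pd_ent, pd_star_ev J L hJ p, pd_star_ev J L hJ q, map_smul, inner_smul_left,
    inner_smul_right, ← ent_eq_inner, hX _ _ hpq, mul_zero, mul_zero]

theorem sbu_ut' (N : ℕ) (A : Op) (hA : SBU N (A - 1)) : UT A := by
  intro i j hij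
  have h := hA i j (Nat.div_le_div_right hij.le)
  have e : ent A i j = ent (A - 1) i j + ent 1 i j := by rw [← ent_add, sub_add_cancel]
  rw [e, h]
  exact (zero_add _).trans (UT_one i j hij)

/-- **Path D.** -/
theorem path_D (L i : ℕ) (hi : i < L) (E : Set ℕ) (hE : ∀ b, ∃! m, m ∈ E ∧ m / L = b)
    (w2 w2' : Op) (h1 : w2' * w2 = 1) (h2 : w2 * w2' = 1) (hn : ‖w2‖ ≤ 5.04) (hn' : ‖w2'‖ ≤ 5.17)
    (hsupp : ∀ a b, (a ∉ E ∨ b ∉ E) → ent (w2 - 1) a b = 0) (hsbu : SBU L (w2 - 1)) :
    ∃ w w' : Op, Cls 8 w w' ∧ SBU L (w - 1) ∧ On {m | m % L = i} w ∧ Triv 1200 (w2 * w') := by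
  classical
  have hL : 0 < L := by omega
  choose σ hσ using fun b => (hE b).exists
  have hσE : ∀ b, σ b ∈ E := fun b => (hσ b).1
  have hσL : ∀ b, σ b / L = b := fun b => (hσ b).2
  have hEσ : ∀ m, m ∈ E → σ (m / L) = m := fun m hm => (hE (m / L)).unique (hσ _) ⟨hm, rfl⟩
  let ρ : ℕ → ℕ := fun b => L * b + i
  have hρL : ∀ b, ρ b / L = b := fun b => by
    show (L * b + i) / L = b
    rw [Nat.mul_add_div hL, Nat.div_eq_of_lt hi, Nat.add_zero]
  have hρi : ∀ b, ρ b % L = i := fun b => by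
    show (L * b + i) % L = i
    rw [Nat.mul_add_mod, Nat.mod_eq_of_lt hi]
  have hσinj : Function.Injective σ := fun a b h => by rw [← hσL a, h, hσL]
  have hρinj : Function.Injective ρ := fun a b h => by rw [← hρL a, h, hρL]
  -- the two isometries
  obtain ⟨S, hSdef⟩ : ∃ S : Op, S = (NS.V σ hσinj).toContinuousLinearMap := ⟨_, rfl⟩
  obtain ⟨R, hRdef⟩ : ∃ R : Op, R = (NS.V ρ hρinj).toContinuousLinearMap := ⟨_, rfl⟩
  have hSev : ∀ n, S (ev n) = ev (σ n) := fun n => by rw [hSdef]; exact NS.V_ev σ hσinj n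
  have hRev : ∀ n, R (ev n) = ev (ρ n) := fun n => by rw [hRdef]; exact NS.V_ev ρ hρinj n
  have hS' : ∀ n, star S (ev (σ n)) = ev n := fun n => by
    rw [hSdef, ContinuousLinearMap.star_eq_adjoint]; exact NS.adjV_ev_self σ hσinj n
  have hR' : ∀ n, star R (ev (ρ n)) = ev n := fun n => by
    rw [hRdef, ContinuousLinearMap.star_eq_adjoint]; exact NS.adjV_ev_self ρ hρinj n
  have hS'0 : ∀ n, (∀ k, σ k ≠ n) → star S (ev n) = 0 := fun n h => by
    rw [hSdef, ContinuousLinearMap.star_eq_adjoint]; exact NS.adjV_ev_ne σ hσinj n h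
  have hR'0 : ∀ n, (∀ k, ρ k ≠ n) → star R (ev n) = 0 := fun n h => by
    rw [hRdef, ContinuousLinearMap.star_eq_adjoint]; exact NS.adjV_ev_ne ρ hρinj n h
  have hSS : star S * S = 1 := NS.op_ext_ev fun n => by
    show star S (S (ev n)) = ev n
    rw [hSev, hS']
  have hRR : star R * R = 1 := NS.op_ext_ev fun n => by
    show star R (R (ev n)) = ev n
    rw [hRev, hR']
  have hSn : ‖S‖ ≤ 1 := pd_norm_le_one S hSS
  have hRn : ‖R‖ ≤ 1 := pd_norm_le_one R hRR
  have hSn' : ‖star S‖ ≤ 1 := by rw [ContinuousLinearMap.star_eq_adjoint, LinearIsometryEquiv.norm_map]; exact hSn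
  -- the common part
  obtain ⟨Q, hQdef⟩ : ∃ Q : Op, Q = star S * R := ⟨_, rfl⟩
  have hQev : ∀ n, Q (ev n) = if σ n = ρ n then ev n else 0 := fun n => by
    rw [hQdef]
    show star S (R (ev n)) = _
    rw [hRev]
    by_cases h : σ n = ρ n
    · rw [if_pos h, ← h, hS']
    · rw [if_neg h]
      apply hS'0
      intro k hk
      have : k = n := by rw [← hσL k, hk, hρL]
      subst this
      exact h hk
  have hRS : star R * S = Q := NS.op_ext_ev fun n => by
    rw [hQev]
    show star R (S (ev n)) = _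
    rw [hSev]
    by_cases h : σ n = ρ n
    · rw [if_pos h, h, hR']
    · rw [if_neg h]
      apply hR'0
      intro k hk
      have : k = n := by rw [← hρL k, hk, hσL]
      subst this
      exact h hk.symm
  have hQQ : Q * Q = Q := NS.op_ext_ev fun n => by
    show Q (Q (ev n)) = Q (ev n)
    rw [hQev]
    by_cases h : σ n = ρ n
    · rw [if_pos h, hQev, if_pos h]
    · rw [if_neg h, map_zero]
  have hQs : star Q = Q := by
    rw [hQdef, star_mul, star_star, hRS, hQdef]
  have hSQ : S * Q = R * Q := NS.op_ext_ev fun n => by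
    show S (Q (ev n)) = R (Q (ev n))
    rw [hQev]
    by_cases h : σ n = ρ n
    · rw [if_pos h, hSev, hRev, h]
    · rw [if_neg h, map_zero, map_zero]
  have hDn : ‖(1 : Op) - Q‖ ≤ 1 := by
    apply pd_norm_proj
    rw [star_sub, star_one, hQs, mul_sub, mul_one, sub_mul, one_mul, hQQ, sub_self, sub_zero]
  -- the path of isometries
  let c : ℝ → ℝ := fun t => Real.cos (t * (Real.pi / 2))
  let s : ℝ → ℝ := fun t => Real.sin (t * (Real.pi / 2))
  let J : ℝ → Op := fun t => S * Q + ((c t : ℂ) • S + (s t : ℂ) • R) * (1 - Q)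
  have hJs : ∀ t, star (J t) = Q * star S + (1 - Q) * ((c t : ℂ) • star S + (s t : ℂ) • star R) := by
    intro t
    show star (S * Q + ((c t : ℂ) • S + (s t : ℂ) • R) * (1 - Q)) = _
    rw [star_add, star_mul, star_mul, star_add, star_smul, star_smul, hQs, star_sub, star_one, hQs]
    simp only [RCLike.star_def, Complex.conj_ofReal]
  have hJJ : ∀ t, star (J t) * J t = 1 := by
    intro t
    rw [hJs]
    apply pd_alg3 S (star S) R (star R) Q _ _ _ hSS hRR hQdef.symm hRS hQQ
    have := Real.cos_sq_add_sin_sq (t * (Real.pi / 2))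
    have h3 : c t * c t + s t * s t = 1 := by
      show Real.cos _ * Real.cos _ + Real.sin _ * Real.sin _ = 1
      linarith
    exact_mod_cast h3
  have hJn : ∀ t, ‖J t‖ ≤ 1 := fun t => pd_norm_le_one _ (hJJ t)
  have hJn' : ∀ t, ‖star (J t)‖ ≤ 1 := fun t => by
    rw [ContinuousLinearMap.star_eq_adjoint, LinearIsometryEquiv.norm_map]; exact hJn t
  have hJl : ∀ x y, ‖J x - J y‖ ≤ 4 * |x - y| := by
    intro x y
    have e : J x - J y = (((c x - c y : ℝ) : ℂ) • S + ((s x - s y : ℝ) : ℂ) • R) * (1 - Q) := by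
      show (S * Q + ((c x : ℂ) • S + (s x : ℂ) • R) * (1 - Q))
        - (S * Q + ((c y : ℂ) • S + (s y : ℂ) • R) * (1 - Q)) = _
      rw [add_sub_add_left_eq_sub, ← sub_mul]
      congr 1
      push_cast
      rw [sub_smul, sub_smul]
      abel
    rw [e]
    have h3 := Real.abs_cos_sub_cos_le (x * (Real.pi / 2)) (y * (Real.pi / 2))
    have h4 := Real.abs_sin_sub_sin_le (x * (Real.pi / 2)) (y * (Real.pi / 2))
    have h5 : |x * (Real.pi / 2) - y * (Real.pi / 2)| ≤ 2 * |x - y| := by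
      rw [← sub_mul, abs_mul, abs_of_pos (by positivity : (0 : ℝ) < Real.pi / 2), mul_comm]
      gcongr
      have := Real.pi_le_four
      linarith
    have h6 : |c x - c y| + |s x - s y| ≤ 4 * |x - y| := by
      show |Real.cos _ - Real.cos _| + |Real.sin _ - Real.sin _| ≤ _
      linarith
    calc _ ≤ ‖((c x - c y : ℝ) : ℂ) • S + ((s x - s y : ℝ) : ℂ) • R‖ * ‖(1 : Op) - Q‖ :=
          norm_mul_le _ _
      _ ≤ (4 * |x - y|) * 1 :=
          mul_le_mul ((NS.norm_lin_le S R hSn hRn _ _).trans h6) hDn (norm_nonneg _) (by positivity)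
      _ = 4 * |x - y| := mul_one _
  have hJl' : ∀ x y, ‖star (J x) - star (J y)‖ ≤ 4 * |x - y| := by
    intro x y
    rw [← star_sub, ContinuousLinearMap.star_eq_adjoint, LinearIsometryEquiv.norm_map]
    exact hJl x y
  have hJe : ∀ t b p, p / L ≠ b → ent (J t) p b = 0 := by
    intro t b p hp
    have hpσ : p ≠ σ b := fun h => hp (by rw [h, hσL])
    have hpρ : p ≠ ρ b := fun h => hp (by rw [h, hρL])
    have e : J t (ev b) = S (Q (ev b)) + ((c t : ℂ) • S (ev b - Q (ev b))
        + (s t : ℂ) • R (ev b - Q (ev b))) := rfl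
    have z1 : (ev (σ b) : ℕ → ℂ) p = 0 := by rw [ev_apply, if_neg hpσ]
    have z2 : (ev (ρ b) : ℕ → ℂ) p = 0 := by rw [ev_apply, if_neg hpρ]
    unfold ent
    rw [e, hQev]
    by_cases h : σ b = ρ b
    · rw [if_pos h, sub_self, map_zero, map_zero, smul_zero, smul_zero, add_zero, add_zero, hSev]
      exact z1
    · rw [if_neg h, sub_zero, map_zero, zero_add, hSev, hRev]
      show (c t : ℂ) * (ev (σ b) : ℕ → ℂ) p + (s t : ℂ) * (ev (ρ b) : ℕ → ℂ) p = 0
      rw [z1, z2, mul_zero, mul_zero, add_zero]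
  -- the transported operator
  have hUw2 : UT w2 := sbu_ut' L w2 hsbu
  have hUw2' : UT w2' := NS.UT_inv hUw2 h2 h1
  have hsbu' : NS.BS L (w2' - 1) := NS.BS_inv (bridge_sbu L _ hsbu) h2 hUw2'
  have hPev : ∀ n, (S * star S) (ev n) = if n ∈ E then ev n else 0 := by
    intro n
    show S (star S (ev n)) = _
    by_cases h : n ∈ E
    · rw [if_pos h]
      have e := hEσ n h
      have e2 : star S (ev n) = ev (n / L) := by
        conv_lhs => rw [← e]
        exact hS' _
      rw [e2, hSev, e]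
    · rw [if_neg h, hS'0 n (fun k hk => h (hk ▸ hσE k)), map_zero]
  have hPs : star (S * star S) = S * star S := by rw [star_mul, star_star]
  have hP1 : (w2 - 1) * (S * star S) = w2 - 1 := NS.op_ext_ev fun n => by
    show (w2 - 1) ((S * star S) (ev n)) = (w2 - 1) (ev n)
    rw [hPev]
    by_cases h : n ∈ E
    · rw [if_pos h]
    · rw [if_neg h, map_zero]
      apply lp.ext
      funext a
      exact (hsupp a n (Or.inr h)).symm
  have hP2 : (S * star S) * (w2 - 1) = w2 - 1 := op_ext fun a b => by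
    have e : ent ((S * star S) * (w2 - 1)) a b
        = inner ℂ ((S * star S) (ev a)) ((w2 - 1) (ev b)) := by
      rw [ent_eq_inner]
      have e1 : ((S * star S) * (w2 - 1)) (ev b) = (S * star S) ((w2 - 1) (ev b)) := rfl
      rw [e1, ← ContinuousLinearMap.adjoint_inner_left, ← ContinuousLinearMap.star_eq_adjoint, hPs]
    rw [e, hPev]
    by_cases h : a ∈ E
    · rw [if_pos h, ← ent_eq_inner]
    · rw [if_neg h, inner_zero_left, hsupp a b (Or.inl h)]
  obtain ⟨X, hX⟩ : ∃ X : Op, X = star S * (w2 - 1) * S := ⟨_, rfl⟩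
  obtain ⟨X', hX'⟩ : ∃ X : Op, X = star S * (w2' - 1) * S := ⟨_, rfl⟩
  have hXX' : X + X' + X * X' = 0 := by
    rw [hX, hX']; exact pd_alg2 S (star S) w2 w2' h2 hP1
  have hX'X : X' + X + X' * X = 0 := by
    rw [hX, hX']; exact pd_alg2' S (star S) w2 w2' h1 hP2
  have hent : ∀ (A : Op) (a b : ℕ), ent (star S * A * S) a b = ent A (σ a) (σ b) := by
    intro A a b
    rw [ent_eq_inner, ent_eq_inner]
    have e1 : (star S * A * S) (ev b) = star S (A (S (ev b))) := rfl
    rw [e1, ContinuousLinearMap.star_eq_adjoint, ContinuousLinearMap.adjoint_inner_right, hSev,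
      hSev]
  have hXu : ∀ a b, b ≤ a → ent X a b = 0 := by
    intro a b hab
    rw [hX, hent]
    apply hsbu
    rw [hσL, hσL]; exact hab
  have hXu' : ∀ a b, b ≤ a → ent X' a b = 0 := by
    intro a b hab
    rw [hX', hent]
    by_contra hne
    have := hsbu' _ _ hne
    rw [hσL, hσL] at this
    omega
  have hXn : ‖X‖ ≤ 6.04 := by
    rw [hX]
    have h3 : ‖w2 - 1‖ ≤ 5.04 + 1 := (norm_sub_le _ _).trans (add_le_add hn NS.norm_one_le)
    calc ‖star S * (w2 - 1) * S‖ ≤ ‖star S‖ * ‖w2 - 1‖ * ‖S‖ :=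
          (norm_mul_le _ _).trans (mul_le_mul_of_nonneg_right (norm_mul_le _ _) (norm_nonneg _))
      _ ≤ 1 * (5.04 + 1) * 1 := by gcongr
      _ = 6.04 := by norm_num
  have hXn' : ‖X'‖ ≤ 6.17 := by
    rw [hX']
    have h3 : ‖w2' - 1‖ ≤ 5.17 + 1 := (norm_sub_le _ _).trans (add_le_add hn' NS.norm_one_le)
    calc ‖star S * (w2' - 1) * S‖ ≤ ‖star S‖ * ‖w2' - 1‖ * ‖S‖ :=
          (norm_mul_le _ _).trans (mul_le_mul_of_nonneg_right (norm_mul_le _ _) (norm_nonneg _))
      _ ≤ 1 * (5.17 + 1) * 1 := by gcongr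
      _ = 6.17 := by norm_num
  let y : ℝ → Op := fun t => 1 + J t * X * star (J t)
  let z : ℝ → Op := fun t => 1 + J t * X' * star (J t)
  have hyz : ∀ t, y t * z t = 1 := fun t => pd_alg1 (J t) (star (J t)) X X' (hJJ t) hXX'
  have hzy : ∀ t, z t * y t = 1 := fun t => pd_alg1 (J t) (star (J t)) X' X (hJJ t) hX'X
  have hys : ∀ t, SBU L (y t - 1) := fun t => by
    show SBU L (1 + J t * X * star (J t) - 1)
    rw [add_sub_cancel_left]
    exact pd_sbu L (J t) (hJe t) X hXu
  have hzs : ∀ t, SBU L (z t - 1) := fun t => by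
    show SBU L (1 + J t * X' * star (J t) - 1)
    rw [add_sub_cancel_left]
    exact pd_sbu L (J t) (hJe t) X' hXu'
  have hJXn : ∀ (t : ℝ) (Y : Op) (κ : ℝ), ‖Y‖ ≤ κ → ‖1 + J t * Y * star (J t)‖ ≤ 1 + κ := by
    intro t Y κ hY
    have hκ : 0 ≤ κ := (norm_nonneg _).trans hY
    refine (norm_add_le _ _).trans (add_le_add NS.norm_one_le ?_)
    calc ‖J t * Y * star (J t)‖ ≤ ‖J t‖ * ‖Y‖ * ‖star (J t)‖ :=
          (norm_mul_le _ _).trans (mul_le_mul_of_nonneg_right (norm_mul_le _ _) (norm_nonneg _))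
      _ ≤ 1 * κ * 1 := by
          gcongr
          · exact hJn t
          · exact hJn' t
      _ = κ := by ring
  have hyn : ∀ t, ‖y t‖ ≤ 1 + 6.04 := fun t => hJXn t X _ hXn
  have hzn : ∀ t, ‖z t‖ ≤ 1 + 6.17 := fun t => hJXn t X' _ hXn'
  have hyl : ∀ x x', ‖y x - y x'‖ ≤ 48.32 * |x - x'| := by
    intro a b
    have e : y a - y b = (J a - J b) * X * star (J a) + J b * X * (star (J a) - star (J b)) := by
      show (1 + J a * X * star (J a)) - (1 + J b * X * star (J b)) = _
      rw [add_sub_add_left_eq_sub, sub_mul, sub_mul, mul_sub]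
      abel
    rw [e]
    have k1 : ‖(J a - J b) * X * star (J a)‖ ≤ (4 * |a - b|) * 6.04 * 1 := by
      calc ‖(J a - J b) * X * star (J a)‖ ≤ ‖J a - J b‖ * ‖X‖ * ‖star (J a)‖ :=
            (norm_mul_le _ _).trans (mul_le_mul_of_nonneg_right (norm_mul_le _ _) (norm_nonneg _))
        _ ≤ (4 * |a - b|) * 6.04 * 1 := by
            gcongr
            · exact hJl a b
            · exact hJn' a
    have k2 : ‖J b * X * (star (J a) - star (J b))‖ ≤ 1 * 6.04 * (4 * |a - b|) := by
      calc ‖J b * X * (star (J a) - star (J b))‖ ≤ ‖J b‖ * ‖X‖ * ‖star (J a) - star (J b)‖ :=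
            (norm_mul_le _ _).trans (mul_le_mul_of_nonneg_right (norm_mul_le _ _) (norm_nonneg _))
        _ ≤ 1 * 6.04 * (4 * |a - b|) := by
            gcongr
            · exact hJn b
            · exact hJl' a b
    calc _ ≤ _ := norm_add_le _ _
      _ ≤ (4 * |a - b|) * 6.04 * 1 + 1 * 6.04 * (4 * |a - b|) := add_le_add k1 k2
      _ = 48.32 * |a - b| := by ring
  obtain ⟨g, hg, hg2⟩ := NS.Triv_of_path y z 7.17 48.32 1200 (by norm_num) (by norm_num)
    (fun t _ _ => sbu_ut' L _ (hys t)) (fun t _ _ => sbu_ut' L _ (hzs t))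
    (fun t _ _ => hyz t) (fun t _ _ => hzy t)
    (fun t _ _ => (hzn t).trans (by norm_num)) (fun a b _ _ _ _ => hyl a b)
  -- the end points
  have hJ0 : J 0 = S := by
    have hc : c 0 = 1 := by simp [c]
    have hs : s 0 = 0 := by simp [s]
    show S * Q + ((c 0 : ℂ) • S + (s 0 : ℂ) • R) * (1 - Q) = S
    rw [hc, hs, Complex.ofReal_one, Complex.ofReal_zero, one_smul, zero_smul, add_zero, mul_sub,
      mul_one]
    abel
  have hJ1 : J 1 = R := by
    have hc : c 1 = 0 := by simp [c]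
    have hs : s 1 = 1 := by simp [s]
    show S * Q + ((c 1 : ℂ) • S + (s 1 : ℂ) • R) * (1 - Q) = R
    rw [hc, hs, Complex.ofReal_one, Complex.ofReal_zero, one_smul, zero_smul, zero_add, mul_sub,
      mul_one, hSQ]
    abel
  have hy0 : y 0 = w2 := by
    show 1 + J 0 * X * star (J 0) = w2
    rw [hJ0, hX]
    have e : S * (star S * (w2 - 1) * S) * star S
        = (S * star S) * ((w2 - 1) * (S * star S)) := by
      simp only [mul_assoc]
    rw [e, hP1, hP2]
    abel
  have hOn : On {m | m % L = i} (y 1) := by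
    intro a b hab
    show ent (1 + J 1 * X * star (J 1)) a b = ent 1 a b
    rw [ent_add, hJ1, pd_ent]
    rcases hab with h | h
    · rw [hR'0 a (fun k hk => h (by show a % L = i; rw [← hk, hρi])), inner_zero_left, add_zero]
    · rw [hR'0 b (fun k hk => h (by show b % L = i; rw [← hk, hρi])), map_zero, inner_zero_right,
        add_zero]
  refine ⟨y 1, z 1, ⟨sbu_ut' L _ (hys 1), sbu_ut' L _ (hzs 1), hyz 1, hzy 1,
    (hyn 1).trans (by norm_num), (hzn 1).trans (by norm_num)⟩, hys 1, hOn, ?_⟩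
  have e : w2 * z 1 = g := by
    rw [← hy0, hg2, mul_assoc, hyz, mul_one]
  rw [e]
  exact (bridge_triv _ _).2 hg

end Pool.Agent.Helper499.NC
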