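import Pool.Agent.NestConn.M4a
import Pool.Agent.NestConn.PathD

set_option autoImplicit false

namespace Pool.Agent.Helper499.NC

open scoped ENNReal InnerProductSpace ComplexConjugate

noncomputable section

namespace M4

theorem path_D (L i : ℕ) (hi : i < L) (E : Set ℕ) (hE : ∀ b, ∃! m, m ∈ E ∧ m / L = b)
    (w2 w2' : Op) (h1 : w2' * w2 = 1) (h2 : w2 * w2' = 1) (hn : ‖w2‖ ≤ 5.04) (hn' : ‖w2'‖ ≤ 5.17)
    (hsupp : ∀ a b, (a ∉ E ∨ b ∉ E) → ent (w2 - 1) a b = 0) (hsbu : SBU L (w2 - 1)) :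
    ∃ w w' : Op, Cls 8 w w' ∧ SBU L (w - 1) ∧ On {m | m % L = i} w ∧ Triv 1200 (w2 * w') :=
  Pool.Agent.Helper499.NC.path_D L i hi E hE w2 w2' h1 h2 hn hn' hsupp hsbu

end M4

/-- M4 -/
theorem one_factor (L i : ℕ) (hi : i < L) : ∃ n : ℕ, ∀ (η : ℝ) (s t : Op) (E : Set ℕ), Ueta η s t → η ≤ 1 / 100 →
    L * η ^ 2 ≤ 1 / 10000 → Sel L E (1 - s) (1 / 100) →
    ∃ w w' : Op, Cls 8 w w' ∧ SBU L (w - 1) ∧ On {m | m % L = i} w ∧ Triv n (s * w') := by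
  have hL : 1 ≤ L := by omega
  refine ⟨13 + 100 * L ^ 2 + 1 + 1200, ?_⟩
  intro η s t E hU hη hLη hSel
  have hcols := fun j => (ueta_cols η (by linarith) s t hU j).1
  obtain ⟨hs, ht, hst, hts, hn, hpos⟩ := hU
  obtain ⟨hE, hS1, hS2, hS3⟩ := hSel
  have hη0 : 0 ≤ η := le_trans (norm_nonneg _) hn
  have hsn : ‖s‖ ≤ 1.005 := by
    have h := M4.norm_sq_le hn
    nlinarith [norm_nonneg s]
  have htn : ‖t‖ ≤ 1.006 := by
    have h := M4.inv_norm_sq_le (by linarith) hst hts hn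
    have h2 : 1 / (1 - η) ≤ 1.0102 := by
      rw [div_le_iff₀ (by linarith)]; linarith
    nlinarith [norm_nonneg t]
  obtain ⟨Y, hY⟩ : ∃ Y : Op, Y = 1 - s := ⟨_, rfl⟩
  obtain ⟨c', hc1, hc2, hc3, hA⟩ := M4.path_A hs hst hts hsn htn
  rw [← hY] at hc1 hc2 hcols hS1 hS2 hS3
  have hYn : ‖Y‖ ≤ 2.005 := by
    rw [hY]
    calc ‖1 - s‖ ≤ ‖(1:Op)‖ + ‖s‖ := norm_sub_le _ _
      _ ≤ 1 + 1.005 := add_le_add M4.norm_one_le hsn
      _ = 2.005 := by norm_num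
  have hYut : UT Y := by rw [hY]; exact UT_sub UT_one hs
  rw [← M4.Zop_eq] at hS1 hS2 hS3
  obtain ⟨z1, hz1, hz2, hz3, hz4, hB⟩ := M4.path_B hL (E := E) hYut hYn (by linarith) (by linarith)
    (by linarith) hc1 hc2 hc3
  obtain ⟨w2, w2', hw1, hw2, hw3, hw4, hw5, hw6, hC⟩ := M4.path_C hL hE hYut hLη hcols hz1 hz2 hz3 hz4
  obtain ⟨w, w', hcls, hsb, hon, hD⟩ := M4.path_D L i hi E hE w2 w2' hw1 hw2 hw3 hw4 hw5 hw6
  refine ⟨w, w', hcls, hsb, hon, ?_⟩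
  have k1 := M4.triv_trans hA hB hc1
  have k2 := M4.triv_trans k1 hC hz1
  exact M4.triv_trans k2 hD hw1

end

end Pool.Agent.Helper499.NC
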