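import Pool.Agent.NestConn.Defs
import Pool.Agent.NestConn.Tool

set_option autoImplicit false

/-! Module M4 (helper499): one near-unitary factor is moved to a slot (MP_194f66_an). -/

namespace Pool.Agent.Helper499.NC

open scoped ENNReal InnerProductSpace ComplexConjugate

noncomputable section

namespace M4

theorem norm_le_of_coord {v w : Hs} (h : ∀ i, ‖(v : ℕ → ℂ) i‖ ≤ ‖(w : ℕ → ℂ) i‖) :
    ‖v‖ ≤ ‖w‖ := by
  refine lp.norm_le_of_forall_sum_le (p := 2) (by norm_num) (norm_nonneg _) ?_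
  intro s
  refine le_trans (Finset.sum_le_sum ?_) (lp.sum_rpow_le_norm_rpow (p := 2) (by norm_num) w s)
  intro i _
  exact Real.rpow_le_rpow (norm_nonneg _) (h i) (by norm_num)

theorem norm_star_op (A : Op) : ‖star A‖ = ‖A‖ := by
  rw [ContinuousLinearMap.star_eq_adjoint]
  exact LinearIsometryEquiv.norm_map _ A

/-- the diagonal of a product of upper triangular operators -/
theorem ent_mul_diag {A B : Op} (hA : UT A) (hB : UT B) (j : ℕ) :
    ent (A * B) j j = ent A j j * ent B j j := by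
  have h := ent_mul_hasSum A B j j
  have h2 : HasSum (fun k => ent A j k * ent B k j) (ent A j j * ent B j j) := by
    apply hasSum_single
    intro k hk
    rcases lt_or_gt_of_ne hk with h1 | h1
    · rw [hA j k h1, zero_mul]
    · rw [hB k j h1, mul_zero]
  exact h.unique h2

theorem norm_sq_le {η : ℝ} {s : Op} (h : ‖star s * s - 1‖ ≤ η) : ‖s‖ * ‖s‖ ≤ 1 + η := by
  rw [← CStarRing.norm_star_mul_self]
  calc ‖star s * s‖ = ‖(star s * s - 1) + 1‖ := by rw [sub_add_cancel]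
    _ ≤ ‖star s * s - 1‖ + ‖(1:Op)‖ := norm_add_le _ _
    _ ≤ η + 1 := by
        gcongr
        exact ContinuousLinearMap.norm_id_le
    _ = 1 + η := by ring

theorem inv_norm_sq_le {η : ℝ} (hη : η < 1) {s t : Op} (h1 : s * t = 1) (h2 : t * s = 1)
    (h : ‖star s * s - 1‖ ≤ η) : ‖t‖ * ‖t‖ ≤ 1 / (1 - η) := by
  have h3 : (star s * s) * (t * star t) = 1 := by
    calc (star s * s) * (t * star t) = star s * (s * t) * star t := by noncomm_ring
      _ = star s * star t := by rw [h1, mul_one]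
      _ = star (t * s) := by rw [star_mul]
      _ = 1 := by rw [h2, star_one]
  have h4 : t * star t = 1 - (star s * s - 1) * (t * star t) := by
    rw [sub_mul, h3, one_mul]
    noncomm_ring
  have h5 : ‖t * star t‖ ≤ 1 + η * ‖t * star t‖ := by
    calc ‖t * star t‖ = ‖1 - (star s * s - 1) * (t * star t)‖ := by rw [← h4]
      _ ≤ ‖(1:Op)‖ + ‖(star s * s - 1) * (t * star t)‖ := norm_sub_le _ _
      _ ≤ 1 + ‖star s * s - 1‖ * ‖t * star t‖ := by
          gcongr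
          · exact ContinuousLinearMap.norm_id_le
          · exact norm_mul_le _ _
      _ ≤ 1 + η * ‖t * star t‖ := by gcongr
  have h6 : ‖t * star t‖ = ‖t‖ * ‖t‖ := CStarRing.norm_self_mul_star
  rw [h6] at h5
  rw [le_div_iff₀ (by linarith)]
  nlinarith

end M4

/-- M4a -/
theorem ueta_cols (η : ℝ) (hη : η ≤ 1 / 4) (s t : Op) (h : Ueta η s t) (j : ℕ) :
    ‖(1 - s) (ev j)‖ ≤ 4 * η ∧ ‖star (1 - s) (ev j)‖ ≤ 4 * η := by
  obtain ⟨hs, ht, hst, hts, hn, hpos⟩ := h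
  have hη0 : 0 ≤ η := le_trans (norm_nonneg _) hn
  obtain ⟨W, hW⟩ : ∃ W : Op, W = s - star t := ⟨_, rfl⟩
  have hW1 : W = star t * (star s * s - 1) := by
    rw [hW, mul_sub, mul_one, ← mul_assoc, ← star_mul, hst, star_one, one_mul]
  have htn : ‖t‖ ≤ 2 := by
    have := M4.inv_norm_sq_le (by linarith) hst hts hn
    have h2 : 1 / (1 - η) ≤ 4 := by
      rw [div_le_iff₀ (by linarith)]; linarith
    nlinarith [norm_nonneg t]
  have hWn : ‖W‖ ≤ 2 * η := by
    rw [hW1]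
    calc ‖star t * (star s * s - 1)‖ ≤ ‖star t‖ * ‖star s * s - 1‖ := norm_mul_le _ _
      _ ≤ 2 * η := by
          rw [M4.norm_star_op]
          exact mul_le_mul htn hn (norm_nonneg _) (by norm_num)
  -- entrywise domination
  have hdom : ∀ i k, ‖ent (1 - s) i k‖ ≤ ‖ent W i k‖ := by
    intro i k
    rcases lt_trichotomy i k with h | h | h
    · rw [ent_sub, ent_one, if_neg (by omega), hW, ent_sub, ent_star, ht k i h]
      simp
    · subst h
      have ha := hpos i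
      obtain ⟨a, ha'⟩ : ∃ a : ℝ, a = (ent s i i).re := ⟨_, rfl⟩
      have hsa : ent s i i = (a : ℂ) := by
        apply Complex.ext
        · simp [ha']
        · simp [ha.2]
      have ha0 : 0 < a := by rw [ha']; exact ha.1
      have htt : ent t i i = ((1 / a : ℝ) : ℂ) := by
        have h1 := M4.ent_mul_diag hs ht i
        rw [hst, ent_one, if_pos rfl, hsa] at h1
        have ha0' : (a : ℂ) ≠ 0 := by exact_mod_cast (ne_of_gt ha0)
        rw [Complex.ofReal_div, Complex.ofReal_one, eq_div_iff ha0', mul_comm]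
        exact h1.symm
      rw [ent_sub, ent_one, if_pos rfl, hW, ent_sub, ent_star, hsa, htt, Complex.conj_ofReal]
      have e1 : (1 : ℂ) - (a : ℂ) = ((1 - a : ℝ) : ℂ) := by push_cast; ring
      have e2 : (a : ℂ) - ((1 / a : ℝ) : ℂ) = ((a - 1 / a : ℝ) : ℂ) := by push_cast; ring
      rw [e1, e2, Complex.norm_real, Complex.norm_real, Real.norm_eq_abs, Real.norm_eq_abs]
      have e3 : a - 1 / a = -((1 - a) * (1 + 1 / a)) := by
        field_simp
        ring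
      rw [e3, abs_neg, abs_mul]
      apply le_mul_of_one_le_right (abs_nonneg _)
      rw [abs_of_pos (by positivity)]
      have : 0 < 1 / a := by positivity
      linarith
    · have h1 : ent (1 - s) i k = 0 := by
        rw [ent_sub, ent_one, if_neg (by omega), hs i k h, sub_zero]
      rw [h1, norm_zero]
      exact norm_nonneg _
  constructor
  · calc ‖(1 - s) (ev j)‖ ≤ ‖W (ev j)‖ := M4.norm_le_of_coord (fun i => hdom i j)
      _ ≤ ‖W‖ * ‖ev j‖ := W.le_opNorm _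
      _ ≤ 4 * η := by rw [norm_ev]; linarith
  · calc ‖star (1 - s) (ev j)‖ ≤ ‖star W (ev j)‖ := by
          apply M4.norm_le_of_coord
          intro i
          have h1 := hdom j i
          have h2 := ent_star (1 - s) i j
          have h3 := ent_star W i j
          unfold ent at h2 h3
          show ‖(star (1 - s) (ev j) : ℕ → ℂ) i‖ ≤ ‖(star W (ev j) : ℕ → ℂ) i‖
          rw [h2, h3, Complex.norm_conj, Complex.norm_conj]
          exact h1
      _ ≤ ‖star W‖ * ‖ev j‖ := (star W).le_opNorm _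
      _ ≤ 4 * η := by rw [norm_ev, M4.norm_star_op]; linarith

end

end Pool.Agent.Helper499.NC

namespace Pool.Agent.Helper499.NC

open scoped ENNReal InnerProductSpace ComplexConjugate

noncomputable section

namespace M4

/-- the span of the first j+1 basis vectors -/
def Fs (j : ℕ) : Submodule ℂ Hs := Submodule.span ℂ (ev '' Set.Iic j)

theorem mem_Fs_iff (j : ℕ) (v : Hs) : v ∈ Fs j ↔ ∀ i, j < i → (v : ℕ → ℂ) i = 0 := by
  constructor
  · intro h
    unfold Fs at h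
    induction h using Submodule.span_induction with
    | mem x hx =>
        obtain ⟨k, hk, rfl⟩ := hx
        intro i hi
        rw [ev_apply, if_neg]
        have : k ≤ j := hk
        omega
    | zero => intro i _; simp
    | add x y _ _ hx hy => intro i hi; simp [hx i hi, hy i hi]
    | smul a x _ hx => intro i hi; simp [hx i hi]
  · intro h
    have h1 : v = ∑ i ∈ Finset.range (j + 1), (v : ℕ → ℂ) i • ev i := by
      have h2 := hasSum_ev v
      have h3 : HasSum (fun i => (v : ℕ → ℂ) i • ev i)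
          (∑ i ∈ Finset.range (j + 1), (v : ℕ → ℂ) i • ev i) := by
        apply hasSum_sum_of_ne_finset_zero
        intro i hi
        rw [Finset.mem_range] at hi
        rw [h i (by omega), zero_smul]
      exact h2.unique h3
    rw [h1]
    apply Submodule.sum_mem
    intro i hi
    rw [Finset.mem_range] at hi
    exact Submodule.smul_mem _ _ (Submodule.subset_span ⟨i, by simp; omega, rfl⟩)

instance (j : ℕ) : FiniteDimensional ℂ (Fs j) := by
  unfold Fs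
  exact FiniteDimensional.span_of_finite ℂ ((Set.finite_Iic j).image _)

theorem UT_iff_Fs (X : Op) : UT X ↔ ∀ j, X (ev j) ∈ Fs j := by
  constructor
  · intro h j
    rw [mem_Fs_iff]
    intro i hi
    exact h i j hi
  · intro h i j hij
    exact (mem_Fs_iff j _).1 (h j) i hij

theorem UT_map_Fs {X : Op} (h : UT X) (j : ℕ) {v : Hs} (hv : v ∈ Fs j) : X v ∈ Fs j := by
  unfold Fs at hv
  induction hv using Submodule.span_induction with
  | mem x hx =>
      obtain ⟨k, hk, rfl⟩ := hx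
      have h1 := (UT_iff_Fs X).1 h k
      rw [mem_Fs_iff] at h1 ⊢
      intro i hi
      have : k ≤ j := hk
      exact h1 i (by omega)
  | zero => simp
  | add x y _ _ hx hy => rw [map_add]; exact Submodule.add_mem _ hx hy
  | smul a x _ hx => rw [map_smul]; exact Submodule.smul_mem _ _ hx

/-- the inverse of an invertible upper triangular operator is upper triangular -/
theorem UT_inv {X Z : Op} (h : UT X) (hZX : Z * X = 1) : UT Z := by
  rw [UT_iff_Fs]
  intro j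
  let f : Fs j →ₗ[ℂ] Fs j :=
    (X : Hs →ₗ[ℂ] Hs).restrict (fun v hv => UT_map_Fs h j hv)
  have hinj : Function.Injective f := by
    intro v w hvw
    have h1 : X (v : Hs) = X (w : Hs) := by
      have := congrArg Subtype.val hvw
      simpa [f] using this
    have h2 : Z (X (v : Hs)) = Z (X (w : Hs)) := by rw [h1]
    have h3 : ∀ u : Hs, Z (X u) = u := fun u => by
      have := congrArg (fun A : Op => A u) hZX
      simpa using this
    rw [h3, h3] at h2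
    exact Subtype.ext h2
  have hsurj : Function.Surjective f := LinearMap.injective_iff_surjective.1 hinj
  have hej : ev j ∈ Fs j := Submodule.subset_span ⟨j, by simp, rfl⟩
  obtain ⟨v, hv⟩ := hsurj ⟨ev j, hej⟩
  have h1 : X (v : Hs) = ev j := by
    have := congrArg Subtype.val hv
    simpa [f] using this
  have h3 : Z (X (v : Hs)) = (v : Hs) := by
    have := congrArg (fun A : Op => A (v : Hs)) hZX
    simpa using this
  rw [← h1, h3]
  exact v.2

/-- Neumann series: 1 - x is invertible when the norm of x is at most q < 1 -/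
theorem inv_one_sub {x : Op} {q : ℝ} (hx : ‖x‖ ≤ q) (hq : q < 1) :
    ∃ z : Op, z * (1 - x) = 1 ∧ (1 - x) * z = 1 ∧ ‖z‖ ≤ 1 / (1 - q) := by
  have hx1 : ‖x‖ < 1 := lt_of_le_of_lt hx hq
  refine ⟨(((Units.oneSub x hx1)⁻¹ : Opˣ) : Op), ?_, ?_, ?_⟩
  · rw [← Units.val_oneSub x hx1, Units.inv_mul]
  · rw [← Units.val_oneSub x hx1, Units.mul_inv]
  · set z : Op := (((Units.oneSub x hx1)⁻¹ : Opˣ) : Op) with hz
    have h1 : z = 1 + x * z := by
      have h2 : (1 - x) * z = 1 := by rw [hz, ← Units.val_oneSub x hx1, Units.mul_inv]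
      rw [sub_mul, one_mul, sub_eq_iff_eq_add] at h2
      exact h2
    have h3 : ‖z‖ ≤ 1 + q * ‖z‖ := by
      calc ‖z‖ = ‖1 + x * z‖ := by rw [← h1]
        _ ≤ ‖(1:Op)‖ + ‖x * z‖ := norm_add_le _ _
        _ ≤ 1 + ‖x‖ * ‖z‖ := by
            gcongr
            · exact ContinuousLinearMap.norm_id_le
            · exact norm_mul_le _ _
        _ ≤ 1 + q * ‖z‖ := by gcongr
    rw [le_div_iff₀ (by linarith)]
    nlinarith

/-- perturbation of an inverse -/
theorem inv_perturb {c c' e : Op} {κ q : ℝ} (h1 : c' * c = 1) (h2 : c * c' = 1) (hc : ‖c'‖ ≤ κ)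
    (he : ‖e‖ ≤ q) (hκq : κ * q < 1) :
    ∃ z : Op, z * (c - e) = 1 ∧ (c - e) * z = 1 ∧ ‖z‖ ≤ κ / (1 - κ * q) := by
  have hκ : 0 ≤ κ := le_trans (norm_nonneg _) hc
  have hq : 0 ≤ q := le_trans (norm_nonneg _) he
  have hx : ‖c' * e‖ ≤ κ * q := by
    calc ‖c' * e‖ ≤ ‖c'‖ * ‖e‖ := norm_mul_le _ _
      _ ≤ κ * q := by gcongr
  obtain ⟨z, hz1, hz2, hz3⟩ := inv_one_sub hx hκq
  refine ⟨z * c', ?_, ?_, ?_⟩
  · have : z * c' * (c - e) = z * (c' * c - c' * e) := by noncomm_ring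
    rw [this, h1, hz1]
  · have : (c - e) * (z * c') = c * ((1 - c' * e) * z) * c' + (c - c * (1 - c' * e) - e) * z * c' := by
      noncomm_ring
    rw [this, hz2]
    have h3 : c - c * (1 - c' * e) - e = 0 := by
      have : c - c * (1 - c' * e) - e = (c * c') * e - e := by noncomm_ring
      rw [this, h2, one_mul, sub_self]
    rw [h3, zero_mul, zero_mul, add_zero, mul_one, h2]
  · calc ‖z * c'‖ ≤ ‖z‖ * ‖c'‖ := norm_mul_le _ _
      _ ≤ (1 / (1 - κ * q)) * κ := by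
          apply mul_le_mul hz3 hc (norm_nonneg _)
          apply div_nonneg zero_le_one
          linarith
      _ = κ / (1 - κ * q) := by ring

/-- the swap identity for inverses -/
theorem inv_swap {a b M : Op} (h1 : M * (1 - b * a) = 1) (h2 : (1 - b * a) * M = 1) :
    (1 + a * M * b) * (1 - a * b) = 1 ∧ (1 - a * b) * (1 + a * M * b) = 1 := by
  constructor
  · have : (1 + a * M * b) * (1 - a * b) = 1 - a * b + a * (M * (1 - b * a)) * b := by
      noncomm_ring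
    rw [this, h1]
    noncomm_ring
  · have : (1 - a * b) * (1 + a * M * b) = 1 - a * b + a * ((1 - b * a) * M) * b := by
      noncomm_ring
    rw [this, h2]
    noncomm_ring

theorem dg_ext {d : ℕ → ℂ} {C : ℝ} (h : ∀ n, ‖d n‖ ≤ C) {X : Op}
    (hX : ∀ v : Hs, ∀ n, (X v : ℕ → ℂ) n = d n * (v : ℕ → ℂ) n) : X = dg d := by
  ext v : 1
  apply lp.ext
  funext n
  rw [hX, dg_apply d h]

theorem dg_mul {d e : ℕ → ℂ} {C C' : ℝ} (h : ∀ n, ‖d n‖ ≤ C) (h' : ∀ n, ‖e n‖ ≤ C') :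
    dg d * dg e = dg (fun n => d n * e n) := by
  have hC : 0 ≤ C := le_trans (norm_nonneg _) (h 0)
  apply dg_ext (C := C * C')
  · intro n
    rw [norm_mul]
    exact mul_le_mul (h n) (h' n) (norm_nonneg _) hC
  · intro v n
    show (dg d (dg e v) : ℕ → ℂ) n = _
    rw [dg_apply d h, dg_apply e h']
    ring

theorem dg_sub {d e : ℕ → ℂ} {C C' : ℝ} (h : ∀ n, ‖d n‖ ≤ C) (h' : ∀ n, ‖e n‖ ≤ C') :
    dg d - dg e = dg (fun n => d n - e n) := by
  apply dg_ext (C := C + C')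
  · intro n
    exact le_trans (norm_sub_le _ _) (add_le_add (h n) (h' n))
  · intro v n
    show ((dg d v - dg e v : Hs) : ℕ → ℂ) n = _
    rw [lp.coeFn_sub, Pi.sub_apply, dg_apply d h, dg_apply e h']
    ring

theorem dg_add {d e : ℕ → ℂ} {C C' : ℝ} (h : ∀ n, ‖d n‖ ≤ C) (h' : ∀ n, ‖e n‖ ≤ C') :
    dg d + dg e = dg (fun n => d n + e n) := by
  apply dg_ext (C := C + C')
  · intro n
    exact le_trans (norm_add_le _ _) (add_le_add (h n) (h' n))
  · intro v n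
    show ((dg d v + dg e v : Hs) : ℕ → ℂ) n = _
    rw [lp.coeFn_add, Pi.add_apply, dg_apply d h, dg_apply e h']
    ring

theorem dg_one : dg (fun _ => 1) = 1 := by
  symm
  apply dg_ext (C := 1)
  · intro n; simp
  · intro v n; simp

theorem dg_smul {d : ℕ → ℂ} {C : ℝ} (h : ∀ n, ‖d n‖ ≤ C) (c : ℂ) :
    c • dg d = dg (fun n => c * d n) := by
  apply dg_ext (C := ‖c‖ * C)
  · intro n
    rw [norm_mul]
    exact mul_le_mul_of_nonneg_left (h n) (norm_nonneg _)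
  · intro v n
    show ((c • dg d v : Hs) : ℕ → ℂ) n = _
    rw [lp.coeFn_smul, Pi.smul_apply, dg_apply d h, smul_eq_mul]
    ring

theorem star_dg {d : ℕ → ℂ} {C : ℝ} (h : ∀ n, ‖d n‖ ≤ C) :
    star (dg d) = dg (fun n => conj (d n)) := by
  apply op_ext
  intro i j
  rw [ent_star, ent_dg d h, ent_dg (C := C) (fun n => conj (d n)) (by simpa using h)]
  by_cases hij : i = j
  · subst hij; simp
  · rw [if_neg hij, if_neg (fun h => hij h.symm)]; simp

theorem star_dg_real {d : ℕ → ℝ} {C : ℝ} (h : ∀ n, ‖(d n : ℂ)‖ ≤ C) :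
    star (dg (fun n => (d n : ℂ))) = dg (fun n => (d n : ℂ)) := by
  rw [star_dg h]
  congr 1
  funext n
  simp

/-- the weights of the path: 1 - t off E, sqrt(1 + (L-1)(2t - t^2)) on E -/
def wt (L : ℕ) (E : Set ℕ) (t : ℝ) (n : ℕ) : ℝ :=
  open Classical in
  if n ∈ E then Real.sqrt (1 + ((L:ℝ) - 1) * (2 * t - t ^ 2)) else 1 - t

/-- the selection symbol L 1_E - 1 -/
def zsym (L : ℕ) (E : Set ℕ) (n : ℕ) : ℝ :=
  open Classical in
  if n ∈ E then (L:ℝ) - 1 else -1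

def Dt (L : ℕ) (E : Set ℕ) (t : ℝ) : Op := dg (fun n => ((wt L E t n : ℝ) : ℂ))

def Zop (L : ℕ) (E : Set ℕ) : Op := dg (fun n => ((zsym L E n : ℝ) : ℂ))

theorem wt_nonneg {L : ℕ} {E : Set ℕ} {t : ℝ} (ht : t ∈ Set.Icc (0:ℝ) 1) (n : ℕ) :
    0 ≤ wt L E t n := by
  unfold wt
  split_ifs
  · exact Real.sqrt_nonneg _
  · linarith [ht.2]

theorem wt_sq {L : ℕ} (hL : 1 ≤ L) {E : Set ℕ} {t : ℝ} (ht : t ∈ Set.Icc (0:ℝ) 1) (n : ℕ) :
    wt L E t n * wt L E t n = 1 + (2 * t - t ^ 2) * zsym L E n := by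
  have hL' : (1:ℝ) ≤ L := by exact_mod_cast hL
  have h1 : 0 ≤ 2 * t - t ^ 2 := by nlinarith [ht.1, ht.2]
  unfold wt zsym
  split_ifs
  · rw [Real.mul_self_sqrt (by nlinarith [mul_nonneg (sub_nonneg.2 hL') h1])]
    ring
  · ring

theorem wt_le {L : ℕ} (hL : 1 ≤ L) {E : Set ℕ} {t : ℝ} (ht : t ∈ Set.Icc (0:ℝ) 1) (n : ℕ) :
    wt L E t n ≤ Real.sqrt L := by
  have hL' : (1:ℝ) ≤ L := by exact_mod_cast hL
  unfold wt
  split_ifs
  · apply Real.sqrt_le_sqrt
    have h1 : 2 * t - t ^ 2 ≤ 1 := by nlinarith [sq_nonneg (t - 1)]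
    nlinarith [mul_nonneg (sub_nonneg.2 hL') (sub_nonneg.2 h1)]
  · have : (1:ℝ) ≤ Real.sqrt L := by
      rw [Real.one_le_sqrt]; exact hL'
    linarith [ht.1]

theorem wt_norm_le {L : ℕ} (hL : 1 ≤ L) {E : Set ℕ} {t : ℝ} (ht : t ∈ Set.Icc (0:ℝ) 1) (n : ℕ) :
    ‖((wt L E t n : ℝ) : ℂ)‖ ≤ Real.sqrt L := by
  rw [Complex.norm_real, Real.norm_eq_abs, abs_of_nonneg (wt_nonneg ht n)]
  exact wt_le hL ht n

theorem zsym_norm_le {L : ℕ} (hL : 1 ≤ L) {E : Set ℕ} (n : ℕ) :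
    ‖((zsym L E n : ℝ) : ℂ)‖ ≤ L := by
  have hL' : (1:ℝ) ≤ L := by exact_mod_cast hL
  rw [Complex.norm_real, Real.norm_eq_abs]
  unfold zsym
  split_ifs
  · rw [abs_of_nonneg (by linarith)]; linarith
  · simpa using hL'

theorem norm_Dt_le {L : ℕ} (hL : 1 ≤ L) {E : Set ℕ} {t : ℝ} (ht : t ∈ Set.Icc (0:ℝ) 1) :
    ‖Dt L E t‖ ≤ Real.sqrt L := norm_dg_le _ (wt_norm_le hL ht)

theorem star_Dt {L : ℕ} (hL : 1 ≤ L) {E : Set ℕ} {t : ℝ} (ht : t ∈ Set.Icc (0:ℝ) 1) :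
    star (Dt L E t) = Dt L E t := star_dg_real (wt_norm_le hL ht)

theorem Dt_sq {L : ℕ} (hL : 1 ≤ L) {E : Set ℕ} {t : ℝ} (ht : t ∈ Set.Icc (0:ℝ) 1) :
    Dt L E t * Dt L E t = 1 + ((2 * t - t ^ 2 : ℝ) : ℂ) • Zop L E := by
  unfold Dt Zop
  rw [dg_mul (wt_norm_le hL ht) (wt_norm_le hL ht), dg_smul (zsym_norm_le hL), ← dg_one,
    dg_add (C := 1) (C' := ‖((2 * t - t ^ 2 : ℝ) : ℂ)‖ * L) (by intro n; simp)
      (by
        intro n
        rw [norm_mul]
        exact mul_le_mul_of_nonneg_left (zsym_norm_le hL n) (norm_nonneg _))]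
  congr 1
  funext n
  have h := wt_sq hL (E := E) ht n
  have h2 : (((wt L E t n * wt L E t n : ℝ)) : ℂ) = ((1 + (2 * t - t ^ 2) * zsym L E n : ℝ) : ℂ) := by
    rw [h]
  push_cast at h2 ⊢
  exact h2

theorem Dt_zero {L : ℕ} {E : Set ℕ} : Dt L E 0 = 1 := by
  unfold Dt
  rw [← dg_one]
  congr 1
  funext n
  unfold wt
  split_ifs <;> simp

theorem wt_lip {L : ℕ} (hL : 1 ≤ L) {E : Set ℕ} {s t : ℝ} (hs : s ∈ Set.Icc (0:ℝ) 1)
    (ht : t ∈ Set.Icc (0:ℝ) 1) (n : ℕ) : |wt L E s n - wt L E t n| ≤ L * |s - t| := by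
  have hL' : (1:ℝ) ≤ L := by exact_mod_cast hL
  unfold wt
  split_ifs
  · have h1 : 0 ≤ ((L:ℝ) - 1) * (2 * s - s ^ 2) :=
      mul_nonneg (by linarith) (by nlinarith [hs.1, hs.2])
    have h2 : 0 ≤ ((L:ℝ) - 1) * (2 * t - t ^ 2) :=
      mul_nonneg (by linarith) (by nlinarith [ht.1, ht.2])
    obtain ⟨a, ha⟩ : ∃ a, a = Real.sqrt (1 + ((L:ℝ) - 1) * (2 * s - s ^ 2)) := ⟨_, rfl⟩
    obtain ⟨b, hb⟩ : ∃ b, b = Real.sqrt (1 + ((L:ℝ) - 1) * (2 * t - t ^ 2)) := ⟨_, rfl⟩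
    have ha1 : 1 ≤ a := by rw [ha, Real.one_le_sqrt]; linarith
    have hb1 : 1 ≤ b := by rw [hb, Real.one_le_sqrt]; linarith
    have ha2 : a * a = 1 + ((L:ℝ) - 1) * (2 * s - s ^ 2) := by
      rw [ha]; exact Real.mul_self_sqrt (by linarith)
    have hb2 : b * b = 1 + ((L:ℝ) - 1) * (2 * t - t ^ 2) := by
      rw [hb]; exact Real.mul_self_sqrt (by linarith)
    rw [← ha, ← hb]
    have h3 : (a - b) * (a + b) = ((L:ℝ) - 1) * (2 - s - t) * (s - t) := by
      have : (a - b) * (a + b) = a * a - b * b := by ring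
      rw [this, ha2, hb2]; ring
    have hLm : 0 ≤ (L:ℝ) - 1 := by linarith
    have hst : 0 ≤ 2 - s - t := by
      have := hs.2
      have := ht.2
      linarith
    have h4 : |a - b| * (a + b) = ((L:ℝ) - 1) * (2 - s - t) * |s - t| := by
      have := congrArg abs h3
      rw [abs_mul, abs_mul, abs_of_nonneg (by linarith : 0 ≤ a + b),
        abs_of_nonneg (mul_nonneg hLm hst)] at this
      exact this
    have h5 : |a - b| * 2 ≤ |a - b| * (a + b) :=
      mul_le_mul_of_nonneg_left (by linarith) (abs_nonneg _)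
    have h6 : ((L:ℝ) - 1) * (2 - s - t) * |s - t| ≤ L * 2 * |s - t| := by
      apply mul_le_mul_of_nonneg_right _ (abs_nonneg _)
      apply mul_le_mul (by linarith) (by linarith [hs.1, ht.1]) (by linarith [hs.2, ht.2])
      linarith
    linarith
  · have : 1 - s - (1 - t) = -(s - t) := by ring
    rw [this, abs_neg]
    exact le_mul_of_one_le_left (abs_nonneg _) hL'

theorem Dt_lip {L : ℕ} (hL : 1 ≤ L) {E : Set ℕ} {s t : ℝ} (hs : s ∈ Set.Icc (0:ℝ) 1)
    (ht : t ∈ Set.Icc (0:ℝ) 1) : ‖Dt L E s - Dt L E t‖ ≤ L * |s - t| := by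
  unfold Dt
  rw [dg_sub (wt_norm_le hL hs) (wt_norm_le hL ht)]
  apply norm_dg_le
  intro n
  have h := wt_lip hL (E := E) hs ht n
  have h2 : ((wt L E s n : ℝ) : ℂ) - ((wt L E t n : ℝ) : ℂ) = ((wt L E s n - wt L E t n : ℝ) : ℂ) := by
    push_cast; ring
  rw [h2, Complex.norm_real]
  exact h


end M4

end

end Pool.Agent.Helper499.NC

namespace Pool.Agent.Helper499.NC

open scoped ENNReal InnerProductSpace ComplexConjugate

noncomputable section

namespace M4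

theorem norm_one_le : ‖(1 : Op)‖ ≤ 1 := ContinuousLinearMap.norm_id_le

/-- wrapper of the path lemma -/
theorem path_triv (y : ℝ → Op) {K M : ℝ} (n : ℕ) (hn : 0 < n) (hMK : 2 * M * K ≤ n) (hM : 0 ≤ M)
    (hK : 0 ≤ K)
    (hUT : ∀ t ∈ Set.Icc (0:ℝ) 1, UT (y t))
    (hz : ∀ t ∈ Set.Icc (0:ℝ) 1, ∃ z : Op, z * y t = 1 ∧ y t * z = 1 ∧ ‖z‖ ≤ K)
    (hl : ∀ s ∈ Set.Icc (0:ℝ) 1, ∀ t ∈ Set.Icc (0:ℝ) 1, ‖y s - y t‖ ≤ M * |s - t|)
    {w' : Op} (hw : w' * y 1 = 1) : Triv n (y 0 * w') := by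
  choose! q hq using hz
  have h := trivOn_of_path Set.univ y q M K n hn hMK hM hK (fun t ht =>
    ⟨hUT t ht, UT_inv (hUT t ht) (hq t ht).1, on_univ _, on_univ _, (hq t ht).2.1, (hq t ht).1,
      (hq t ht).2.2⟩) hl
  have h1 : q 1 = w' := by
    have h2 := (hq 1 (by simp)).2.1
    calc q 1 = (w' * y 1) * q 1 := by rw [hw, one_mul]
      _ = w' * (y 1 * q 1) := by rw [mul_assoc]
      _ = w' := by rw [h2, mul_one]
  rw [h1] at h
  exact h

theorem triv_trans {n m : ℕ} {a b b' c' : Op} (h1 : Triv n (a * b')) (h2 : Triv m (b * c'))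
    (hb : b' * b = 1) : Triv (n + m) (a * c') := by
  have h := trivOn_mul Set.univ n m _ _ h1 h2
  have e : a * b' * (b * c') = a * c' := by
    calc a * b' * (b * c') = a * (b' * b) * c' := by noncomm_ring
      _ = a * c' := by rw [hb, mul_one]
  rw [e] at h
  exact h

/-- first path: s to 1 - Y^2 -/
theorem path_A {s t : Op} (hs : UT s) (hst : s * t = 1) (hts : t * s = 1)
    (hsn : ‖s‖ ≤ 1.005) (htn : ‖t‖ ≤ 1.006) :
    ∃ c' : Op, c' * (1 - (1 - s) * (1 - s)) = 1 ∧ (1 - (1 - s) * (1 - s)) * c' = 1 ∧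
      ‖c'‖ ≤ 1.0112 ∧ Triv 13 (s * c') := by
  have hinv : ∀ τ ∈ Set.Icc (0:ℝ) 1, ∃ u : Op, u * (1 + (τ:ℂ) • (1 - s)) = 1 ∧
      (1 + (τ:ℂ) • (1 - s)) * u = 1 ∧ ‖u‖ ≤ (1 / (1 + τ)) * 2.0101 := by
    intro τ hτ
    have h1τ : 0 < 1 + τ := by linarith [hτ.1]
    have h1τ' : ((1 + τ : ℝ) : ℂ) ≠ 0 := by exact_mod_cast (ne_of_gt h1τ)
    obtain ⟨r, hr⟩ : ∃ r : ℝ, r = τ / (1 + τ) := ⟨_, rfl⟩
    have hr0 : 0 ≤ r := by rw [hr]; exact div_nonneg hτ.1 h1τ.le
    have hr1 : r ≤ 1 / 2 := by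
      rw [hr, div_le_iff₀ h1τ]; linarith [hτ.2]
    have hx : ‖(r:ℂ) • s‖ ≤ 0.5025 := by
      rw [norm_smul, Complex.norm_real, Real.norm_eq_abs, abs_of_nonneg hr0]
      nlinarith [norm_nonneg s]
    obtain ⟨z, hz1, hz2, hz3⟩ := inv_one_sub hx (by norm_num)
    have key : (1 + (τ:ℂ) • (1 - s) : Op) = ((1 + τ : ℝ) : ℂ) • (1 - (r:ℂ) • s) := by
      have e1 : ((1 + τ : ℝ) : ℂ) * (r : ℂ) = (τ : ℂ) := by
        rw [hr]
        push_cast
        push_cast at h1τ'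
        field_simp
      have e2 : ((1 + τ : ℝ) : ℂ) • (1 - (r:ℂ) • s : Op) = ((1 + τ : ℝ) : ℂ) • (1:Op) - (τ : ℂ) • s := by
        rw [smul_sub, smul_smul, e1]
      rw [e2]
      push_cast
      rw [add_smul, one_smul, smul_sub]
      abel
    refine ⟨(((1 + τ : ℝ) : ℂ))⁻¹ • z, ?_, ?_, ?_⟩
    · rw [key, smul_mul_smul_comm, hz1, inv_mul_cancel₀ h1τ', one_smul]
    · rw [key, smul_mul_smul_comm, hz2, mul_inv_cancel₀ h1τ', one_smul]
    · rw [norm_smul, norm_inv, Complex.norm_real, Real.norm_eq_abs, abs_of_pos h1τ, ← one_div]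
      apply mul_le_mul_of_nonneg_left _ (by positivity)
      refine le_trans hz3 ?_
      norm_num
  obtain ⟨u, hu1, hu2, hu3⟩ := hinv 1 (by simp)
  have hun : ‖u‖ ≤ 1.00505 := by
    refine le_trans hu3 ?_
    norm_num
  have hc : (1 - (1 - s) * (1 - s) : Op) = s * (1 + ((1:ℝ):ℂ) • (1 - s)) := by
    simp only [Complex.ofReal_one, one_smul]
    noncomm_ring
  have hc1 : u * t * (1 - (1 - s) * (1 - s)) = 1 := by
    rw [hc]
    calc u * t * (s * (1 + ((1:ℝ):ℂ) • (1 - s))) = u * (t * s) * (1 + ((1:ℝ):ℂ) • (1 - s)) := by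
          simp only [mul_assoc]
      _ = 1 := by rw [hts, mul_one, hu1]
  have hc2 : (1 - (1 - s) * (1 - s)) * (u * t) = 1 := by
    rw [hc]
    calc (s * (1 + ((1:ℝ):ℂ) • (1 - s))) * (u * t) = s * ((1 + ((1:ℝ):ℂ) • (1 - s)) * u) * t := by
          simp only [mul_assoc]
      _ = 1 := by rw [hu2, mul_one, hst]
  refine ⟨u * t, hc1, hc2, ?_, ?_⟩
  · calc ‖u * t‖ ≤ ‖u‖ * ‖t‖ := norm_mul_le _ _
      _ ≤ 1.00505 * 1.006 := by gcongr
      _ ≤ 1.0112 := by norm_num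
  · have h := path_triv (fun τ => s * (1 + (τ:ℂ) • (1 - s))) (K := 2.03) (M := 2.1) 13
      (by norm_num) (by norm_num) (by norm_num) (by norm_num) ?_ ?_ ?_ (w' := u * t) ?_
    · simpa using h
    · intro τ _
      exact UT_mul hs (UT_add UT_one (UT_smul _ (UT_sub UT_one hs)))
    · intro τ hτ
      obtain ⟨v, hv1, hv2, hv3⟩ := hinv τ hτ
      refine ⟨v * t, ?_, ?_, ?_⟩
      · calc v * t * (s * (1 + (τ:ℂ) • (1 - s))) = v * (t * s) * (1 + (τ:ℂ) • (1 - s)) := by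
              simp only [mul_assoc]
          _ = 1 := by rw [hts, mul_one, hv1]
      · calc (s * (1 + (τ:ℂ) • (1 - s))) * (v * t) = s * ((1 + (τ:ℂ) • (1 - s)) * v) * t := by
              simp only [mul_assoc]
          _ = 1 := by rw [hv2, mul_one, hst]
      · have h1 : ‖v‖ ≤ 2.0101 := by
          refine le_trans hv3 ?_
          have : 1 / (1 + τ) ≤ 1 := by
            rw [div_le_one (by linarith [hτ.1])]; linarith [hτ.1]
          nlinarith
        calc ‖v * t‖ ≤ ‖v‖ * ‖t‖ := norm_mul_le _ _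
          _ ≤ 2.0101 * 1.006 := by gcongr
          _ ≤ 2.03 := by norm_num
    · intro a ha b hb
      have e : s * (1 + (a:ℂ) • (1 - s)) - s * (1 + (b:ℂ) • (1 - s))
          = ((a - b : ℝ) : ℂ) • (s * (1 - s)) := by
        rw [← mul_sub, add_sub_add_left_eq_sub, ← sub_smul, mul_smul_comm]
        push_cast
        rfl
      show ‖s * (1 + (a:ℂ) • (1 - s)) - s * (1 + (b:ℂ) • (1 - s))‖ ≤ _
      rw [e, norm_smul, Complex.norm_real, Real.norm_eq_abs, mul_comm]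
      apply mul_le_mul_of_nonneg_right _ (abs_nonneg _)
      calc ‖s * (1 - s)‖ ≤ ‖s‖ * ‖1 - s‖ := norm_mul_le _ _
        _ ≤ 1.005 * (1 + 1.005) := by
            gcongr
            calc ‖1 - s‖ ≤ ‖(1:Op)‖ + ‖s‖ := norm_sub_le _ _
              _ ≤ 1 + 1.005 := by
                  gcongr
                  exact norm_one_le
        _ ≤ 2.1 := by norm_num
    · show u * t * (s * (1 + ((1:ℝ):ℂ) • (1 - s))) = 1
      rw [← hc]
      exact hc1

end M4

end

end Pool.Agent.Helper499.NC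

namespace Pool.Agent.Helper499.NC

open scoped ENNReal InnerProductSpace ComplexConjugate

noncomputable section

namespace M4

theorem UT_dg {d : ℕ → ℂ} {C : ℝ} (h : ∀ n, ‖d n‖ ≤ C) : UT (dg d) := by
  intro i j hij
  rw [ent_dg d h, if_neg (by omega)]

theorem UT_Dt {L : ℕ} (hL : 1 ≤ L) {E : Set ℕ} {t : ℝ} (ht : t ∈ Set.Icc (0:ℝ) 1) :
    UT (Dt L E t) := UT_dg (wt_norm_le hL ht)

theorem Zop_eq {L : ℕ} {E : Set ℕ} : Zop L E = (L : ℂ) • Pr E - 1 := by
  classical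
  unfold Zop Pr
  have h1 : ∀ n, ‖(if n ∈ E then (1:ℂ) else 0)‖ ≤ 1 := by
    intro n; split_ifs <;> simp
  rw [dg_smul h1, ← dg_one, dg_sub (C := ‖(L:ℂ)‖) (C' := 1) (by
    intro n
    rw [norm_mul]
    exact mul_le_of_le_one_right (norm_nonneg _) (h1 n)) (by intro n; simp)]
  congr 1
  funext n
  unfold zsym
  split_ifs <;> simp

/-- norm bounds for the two factors -/
theorem norm_DY {L : ℕ} (hL : 1 ≤ L) {E : Set ℕ} {Y : Op} (hYn : ‖Y‖ ≤ 2.005)
    (h2 : ‖star Y * Zop L E * Y‖ ≤ 0.01) {t : ℝ} (ht : t ∈ Set.Icc (0:ℝ) 1) :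
    ‖Dt L E t * Y‖ * ‖Dt L E t * Y‖ ≤ 4.0301 := by
  rw [← CStarRing.norm_star_mul_self]
  have hθ0 : 0 ≤ 2 * t - t ^ 2 := by nlinarith [ht.1, ht.2]
  have hθ1 : 2 * t - t ^ 2 ≤ 1 := by nlinarith [sq_nonneg (t - 1)]
  have e : star (Dt L E t * Y) * (Dt L E t * Y)
      = star Y * Y + ((2 * t - t ^ 2 : ℝ) : ℂ) • (star Y * Zop L E * Y) := by
    rw [star_mul, star_Dt hL ht]
    calc star Y * Dt L E t * (Dt L E t * Y) = star Y * (Dt L E t * Dt L E t) * Y := by
          simp only [mul_assoc]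
      _ = _ := by
          rw [Dt_sq hL ht, mul_add, add_mul, mul_one, mul_smul_comm, smul_mul_assoc]
  rw [e]
  calc ‖star Y * Y + ((2 * t - t ^ 2 : ℝ) : ℂ) • (star Y * Zop L E * Y)‖
      ≤ ‖star Y * Y‖ + ‖((2 * t - t ^ 2 : ℝ) : ℂ) • (star Y * Zop L E * Y)‖ := norm_add_le _ _
    _ ≤ 2.005 * 2.005 + 1 * 0.01 := by
        apply add_le_add
        · refine le_trans (norm_mul_le _ _) ?_
          rw [norm_star_op]
          exact mul_le_mul hYn hYn (norm_nonneg _) (by norm_num)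
        · rw [norm_smul, Complex.norm_real, Real.norm_eq_abs, abs_of_nonneg hθ0]
          exact mul_le_mul hθ1 h2 (norm_nonneg _) (by norm_num)
    _ ≤ 4.0301 := by norm_num

theorem norm_YD {L : ℕ} (hL : 1 ≤ L) {E : Set ℕ} {Y : Op} (hYn : ‖Y‖ ≤ 2.005)
    (h3 : ‖Y * Zop L E * star Y‖ ≤ 0.01) {t : ℝ} (ht : t ∈ Set.Icc (0:ℝ) 1) :
    ‖Y * Dt L E t‖ * ‖Y * Dt L E t‖ ≤ 4.0301 := by
  have h := norm_DY hL (E := E) (Y := star Y) (by rw [norm_star_op]; exact hYn)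
    (by rw [star_star]; exact h3) ht
  have e : Dt L E t * star Y = star (Y * Dt L E t) := by
    rw [star_mul, star_Dt hL ht]
  rw [e, norm_star_op] at h
  exact h

theorem sqrt_le_self' {L : ℕ} (hL : 1 ≤ L) : Real.sqrt L ≤ L := by
  have hL' : (1:ℝ) ≤ L := by exact_mod_cast hL
  rw [Real.sqrt_le_left (by linarith)]
  nlinarith

/-- second path: 1 - Y^2 to 1 - D1 Y^2 D1 -/
theorem path_B {L : ℕ} (hL : 1 ≤ L) {E : Set ℕ} {Y c' : Op} (hY : UT Y) (hYn : ‖Y‖ ≤ 2.005)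
    (h1 : ‖Y * Zop L E * Y‖ ≤ 0.01) (h2 : ‖star Y * Zop L E * Y‖ ≤ 0.01)
    (h3 : ‖Y * Zop L E * star Y‖ ≤ 0.01)
    (hc1 : c' * (1 - Y * Y) = 1) (hc2 : (1 - Y * Y) * c' = 1) (hc3 : ‖c'‖ ≤ 1.0112) :
    ∃ z1 : Op, z1 * (1 - Dt L E 1 * (Y * Y) * Dt L E 1) = 1 ∧
      (1 - Dt L E 1 * (Y * Y) * Dt L E 1) * z1 = 1 ∧ ‖z1‖ ≤ 5.12 ∧
      ‖1 - Dt L E 1 * (Y * Y) * Dt L E 1‖ ≤ 5.031 ∧ Triv (100 * L ^ 2) ((1 - Y * Y) * z1) := by
  have hL' : (1:ℝ) ≤ L := by exact_mod_cast hL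
  have hab : ∀ t ∈ Set.Icc (0:ℝ) 1, ‖Dt L E t * Y‖ * ‖Y * Dt L E t‖ ≤ 4.0301 := by
    intro t ht
    have ha := norm_DY hL hYn h2 ht
    have hb := norm_YD hL hYn h3 ht
    nlinarith [sq_nonneg (‖Dt L E t * Y‖ - ‖Y * Dt L E t‖)]
  have hfac : ∀ t : ℝ, Dt L E t * (Y * Y) * Dt L E t = (Dt L E t * Y) * (Y * Dt L E t) := by
    intro t
    simp only [mul_assoc]
  have hinv : ∀ t ∈ Set.Icc (0:ℝ) 1, ∃ z : Op, z * (1 - Dt L E t * (Y * Y) * Dt L E t) = 1 ∧
      (1 - Dt L E t * (Y * Y) * Dt L E t) * z = 1 ∧ ‖z‖ ≤ 5.12 := by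
    intro t ht
    have hθ0 : 0 ≤ 2 * t - t ^ 2 := by nlinarith [ht.1, ht.2]
    have hθ1 : 2 * t - t ^ 2 ≤ 1 := by nlinarith [sq_nonneg (t - 1)]
    have he : ‖((2 * t - t ^ 2 : ℝ) : ℂ) • (Y * Zop L E * Y)‖ ≤ 0.01 := by
      rw [norm_smul, Complex.norm_real, Real.norm_eq_abs, abs_of_nonneg hθ0]
      calc (2 * t - t ^ 2) * ‖Y * Zop L E * Y‖ ≤ 1 * 0.01 :=
            mul_le_mul hθ1 h1 (norm_nonneg _) (by norm_num)
        _ = 0.01 := by norm_num
    obtain ⟨M, hM1, hM2, hM3⟩ := inv_perturb hc1 hc2 hc3 he (by norm_num)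
    have hba : (1 - (Y * Dt L E t) * (Dt L E t * Y) : Op)
        = 1 - Y * Y - ((2 * t - t ^ 2 : ℝ) : ℂ) • (Y * Zop L E * Y) := by
      have : (Y * Dt L E t) * (Dt L E t * Y) = Y * (Dt L E t * Dt L E t) * Y := by
        simp only [mul_assoc]
      rw [this, Dt_sq hL ht, mul_add, add_mul, mul_one, mul_smul_comm, smul_mul_assoc, sub_sub]
    rw [← hba] at hM1 hM2
    obtain ⟨hz1, hz2⟩ := inv_swap hM1 hM2
    refine ⟨1 + (Dt L E t * Y) * M * (Y * Dt L E t), ?_, ?_, ?_⟩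
    · rw [hfac]; exact hz1
    · rw [hfac]; exact hz2
    · have hM4 : ‖M‖ ≤ 1.0216 := by
        refine le_trans hM3 ?_
        norm_num
      calc ‖1 + (Dt L E t * Y) * M * (Y * Dt L E t)‖
          ≤ ‖(1:Op)‖ + ‖(Dt L E t * Y) * M * (Y * Dt L E t)‖ := norm_add_le _ _
        _ ≤ 1 + (‖Dt L E t * Y‖ * ‖M‖) * ‖Y * Dt L E t‖ := by
            apply add_le_add norm_one_le
            refine le_trans (norm_mul_le _ _) ?_
            gcongr
            exact norm_mul_le _ _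
        _ = 1 + ‖M‖ * (‖Dt L E t * Y‖ * ‖Y * Dt L E t‖) := by ring
        _ ≤ 1 + 1.0216 * 4.0301 := by
            apply add_le_add le_rfl
            apply mul_le_mul hM4 (hab t ht) (by positivity) (by norm_num)
        _ ≤ 5.12 := by norm_num
  obtain ⟨z1, hz1, hz2, hz3⟩ := hinv 1 (by simp)
  refine ⟨z1, hz1, hz2, hz3, ?_, ?_⟩
  · rw [hfac]
    calc ‖(1 - (Dt L E 1 * Y) * (Y * Dt L E 1) : Op)‖
        ≤ ‖(1:Op)‖ + ‖(Dt L E 1 * Y) * (Y * Dt L E 1)‖ := norm_sub_le _ _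
      _ ≤ 1 + ‖Dt L E 1 * Y‖ * ‖Y * Dt L E 1‖ := add_le_add norm_one_le (norm_mul_le _ _)
      _ ≤ 1 + 4.0301 := add_le_add le_rfl (hab 1 (by simp))
      _ ≤ 5.031 := by norm_num
  · have h := path_triv (fun t => 1 - Dt L E t * (Y * Y) * Dt L E t) (K := 5.12) (M := 9 * L ^ 2)
      (100 * L ^ 2) (by positivity) (by push_cast; nlinarith [sq_nonneg (L:ℝ)]) (by positivity)
      (by norm_num) ?_ hinv ?_ (w' := z1) hz1
    · simpa [Dt_zero] using h
    · intro t ht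
      exact UT_sub UT_one (UT_mul (UT_mul (UT_Dt hL ht) (UT_mul hY hY)) (UT_Dt hL ht))
    · intro a ha b hb
      show ‖(1 - Dt L E a * (Y * Y) * Dt L E a) - (1 - Dt L E b * (Y * Y) * Dt L E b)‖ ≤ _
      have e : (1 - Dt L E a * (Y * Y) * Dt L E a) - (1 - Dt L E b * (Y * Y) * Dt L E b)
          = -((Dt L E a - Dt L E b) * (Y * Y) * Dt L E a
            + Dt L E b * (Y * Y) * (Dt L E a - Dt L E b)) := by noncomm_ring
      rw [e, norm_neg]
      have hYY : ‖Y * Y‖ ≤ 4.0201 := by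
        calc ‖Y * Y‖ ≤ ‖Y‖ * ‖Y‖ := norm_mul_le _ _
          _ ≤ 2.005 * 2.005 := mul_le_mul hYn hYn (norm_nonneg _) (by norm_num)
          _ ≤ 4.0201 := by norm_num
      have hd := Dt_lip hL (E := E) ha hb
      have hDa : ‖Dt L E a‖ ≤ L := le_trans (norm_Dt_le hL ha) (sqrt_le_self' hL)
      have hDb : ‖Dt L E b‖ ≤ L := le_trans (norm_Dt_le hL hb) (sqrt_le_self' hL)
      calc ‖(Dt L E a - Dt L E b) * (Y * Y) * Dt L E a
            + Dt L E b * (Y * Y) * (Dt L E a - Dt L E b)‖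
          ≤ ‖(Dt L E a - Dt L E b) * (Y * Y) * Dt L E a‖
            + ‖Dt L E b * (Y * Y) * (Dt L E a - Dt L E b)‖ := norm_add_le _ _
        _ ≤ (L * |a - b|) * 4.0201 * L + L * 4.0201 * (L * |a - b|) := by
            apply add_le_add
            · refine le_trans (norm_mul_le _ _) ?_
              apply mul_le_mul _ hDa (norm_nonneg _) (by positivity)
              refine le_trans (norm_mul_le _ _) ?_
              exact mul_le_mul hd hYY (norm_nonneg _) (by positivity)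
            · refine le_trans (norm_mul_le _ _) ?_
              apply mul_le_mul _ hd (norm_nonneg _) (by positivity)
              refine le_trans (norm_mul_le _ _) ?_
              exact mul_le_mul hDb hYY (norm_nonneg _) (by positivity)
        _ = 8.0402 * (L ^ 2 * |a - b|) := by ring
        _ ≤ 9 * (L ^ 2 * |a - b|) := by gcongr; norm_num
        _ = 9 * L ^ 2 * |a - b| := by ring

end M4

end

end Pool.Agent.Helper499.NC

namespace Pool.Agent.Helper499.NC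

open scoped ENNReal InnerProductSpace ComplexConjugate

noncomputable section

namespace M4

theorem wt_one {L : ℕ} (E : Set ℕ) (n : ℕ) :
    wt L E 1 n = open Classical in if n ∈ E then Real.sqrt L else 0 := by
  unfold wt
  split_ifs
  · congr 1; ring
  · norm_num

theorem ent_DAD {L : ℕ} (hL : 1 ≤ L) {E : Set ℕ} {t : ℝ} (ht : t ∈ Set.Icc (0:ℝ) 1) (A : Op)
    (i j : ℕ) : ent (Dt L E t * A * Dt L E t) i j
      = ((wt L E t i : ℝ) : ℂ) * ent A i j * ((wt L E t j : ℝ) : ℂ) := by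
  unfold Dt
  rw [ent_mul_dg _ (wt_norm_le hL ht), ent_dg_mul _ (wt_norm_le hL ht)]

theorem norm_coord_le (v : Hs) (i : ℕ) : ‖(v : ℕ → ℂ) i‖ ≤ ‖v‖ :=
  lp.norm_apply_le_norm (by norm_num) v i

theorem ent_of_not_mem {L : ℕ} (hL : 1 ≤ L) {E : Set ℕ} (A : Op) (i j : ℕ) (h : i ∉ E ∨ j ∉ E) :
    ent (Dt L E 1 * A * Dt L E 1) i j = 0 := by
  rw [ent_DAD hL (by simp)]
  rcases h with h | h
  · rw [wt_one, if_neg h]; simp
  · rw [wt_one E j, if_neg h]; simp

/-- third path: removing the diagonal -/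
theorem path_C {L : ℕ} (hL : 1 ≤ L) {E : Set ℕ} (hE : ∀ b, ∃! m, m ∈ E ∧ m / L = b) {Y z1 : Op}
    (hY : UT Y) {η : ℝ} (hη : (L:ℝ) * η ^ 2 ≤ 1 / 10000) (hcol : ∀ j, ‖Y (ev j)‖ ≤ 4 * η)
    (hz1 : z1 * (1 - Dt L E 1 * (Y * Y) * Dt L E 1) = 1)
    (hz2 : (1 - Dt L E 1 * (Y * Y) * Dt L E 1) * z1 = 1) (hz3 : ‖z1‖ ≤ 5.12)
    (hy : ‖1 - Dt L E 1 * (Y * Y) * Dt L E 1‖ ≤ 5.031) :
    ∃ w2 w2' : Op, w2' * w2 = 1 ∧ w2 * w2' = 1 ∧ ‖w2‖ ≤ 5.04 ∧ ‖w2'‖ ≤ 5.17 ∧
      (∀ a b, (a ∉ E ∨ b ∉ E) → ent (w2 - 1) a b = 0) ∧ SBU L (w2 - 1) ∧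
      Triv 1 ((1 - Dt L E 1 * (Y * Y) * Dt L E 1) * w2') := by
  obtain ⟨X, hX⟩ : ∃ X : Op, X = Dt L E 1 * (Y * Y) * Dt L E 1 := ⟨_, rfl⟩
  have hXut : UT X := by
    rw [hX]
    exact UT_mul (UT_mul (UT_Dt hL (by simp)) (UT_mul hY hY)) (UT_Dt hL (by simp))
  have hXsupp : ∀ i j, (i ∉ E ∨ j ∉ E) → ent X i j = 0 := by
    intro i j h
    rw [hX]
    exact ent_of_not_mem hL _ i j h
  have hη0 : 0 ≤ η := by
    have := le_trans (norm_nonneg _) (hcol 0)
    linarith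
  have hL0 : (0:ℝ) ≤ L := by positivity
  have hdiag : ∀ n, ‖ent X n n‖ ≤ 0.0016 := by
    intro n
    by_cases hn : n ∈ E
    · have h1 : ‖ent Y n n‖ ≤ 4 * η := le_trans (norm_coord_le _ _) (hcol n)
      have h2 : ‖ent X n n‖ = L * (‖ent Y n n‖ * ‖ent Y n n‖) := by
        rw [hX, ent_DAD hL (by simp), ent_mul_diag hY hY, wt_one, if_pos hn, norm_mul, norm_mul,
          norm_mul, Complex.norm_real, Real.norm_eq_abs, abs_of_nonneg (Real.sqrt_nonneg _)]
        have h3 := Real.mul_self_sqrt hL0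
        calc Real.sqrt L * (‖ent Y n n‖ * ‖ent Y n n‖) * Real.sqrt L
            = (Real.sqrt L * Real.sqrt L) * (‖ent Y n n‖ * ‖ent Y n n‖) := by ring
          _ = _ := by rw [h3]
      rw [h2]
      calc (L:ℝ) * (‖ent Y n n‖ * ‖ent Y n n‖) ≤ L * ((4 * η) * (4 * η)) := by gcongr
        _ = 16 * (L * η ^ 2) := by ring
        _ ≤ 16 * (1 / 10000) := by gcongr
        _ = 0.0016 := by norm_num
    · rw [hXsupp n n (Or.inl hn), norm_zero]; norm_num
  rw [← hX] at hz1 hz2 hy ⊢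
  obtain ⟨G, hG⟩ : ∃ G : Op, G = dg (fun n => ent X n n) := ⟨_, rfl⟩
  have hGn : ‖G‖ ≤ 0.0016 := by rw [hG]; exact norm_dg_le _ hdiag
  have hGe : ∀ i j, ent G i j = if i = j then ent X i i else 0 := by
    intro i j
    rw [hG, ent_dg _ hdiag]
  have hGut : UT G := by rw [hG]; exact UT_dg hdiag
  have hinv : ∀ τ ∈ Set.Icc (0:ℝ) 1, ∃ z : Op, z * (1 - X + (τ:ℂ) • G) = 1 ∧
      (1 - X + (τ:ℂ) • G) * z = 1 ∧ ‖z‖ ≤ 5.17 := by
    intro τ hτ
    have he : ‖-((τ:ℂ) • G)‖ ≤ 0.0016 := by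
      rw [norm_neg, norm_smul, Complex.norm_real, Real.norm_eq_abs, abs_of_nonneg hτ.1]
      calc τ * ‖G‖ ≤ 1 * 0.0016 := mul_le_mul hτ.2 hGn (norm_nonneg _) (by norm_num)
        _ = 0.0016 := by norm_num
    obtain ⟨z, h1, h2, h3⟩ := inv_perturb hz1 hz2 hz3 he (by norm_num)
    rw [sub_neg_eq_add] at h1 h2
    exact ⟨z, h1, h2, le_trans h3 (by norm_num)⟩
  obtain ⟨w2', hw1, hw2, hw3⟩ := hinv 1 (by simp)
  have e1 : (1 - X + ((1:ℝ):ℂ) • G : Op) = 1 - X + G := by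
    rw [Complex.ofReal_one, one_smul]
  have hent : ∀ i j, ent (1 - X + G - 1) i j = if i = j then 0 else - ent X i j := by
    intro i j
    have : (1 - X + G - 1 : Op) = G - X := by abel
    rw [this, ent_sub, hGe]
    by_cases h : i = j
    · subst h; simp
    · rw [if_neg h, if_neg h, zero_sub]
  refine ⟨1 - X + G, w2', ?_, ?_, ?_, hw3, ?_, ?_, ?_⟩
  · rw [← e1]; exact hw1
  · rw [← e1]; exact hw2
  · calc ‖1 - X + G‖ ≤ ‖1 - X‖ + ‖G‖ := norm_add_le _ _
      _ ≤ 5.031 + 0.0016 := add_le_add hy hGn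
      _ ≤ 5.04 := by norm_num
  · intro a b hab
    rw [hent]
    split_ifs
    · rfl
    · rw [hXsupp a b hab, neg_zero]
  · intro i j hij
    rw [hent]
    split_ifs with h
    · rfl
    · rw [neg_eq_zero]
      by_cases hi : i ∈ E
      · by_cases hj : j ∈ E
        · apply hXut
          rcases Nat.lt_or_ge j i with h1 | h1
          · exact h1
          · exfalso
            have h2 : i / L ≤ j / L := Nat.div_le_div_right h1
            have h3 : i / L = j / L := le_antisymm h2 hij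
            obtain ⟨m, _, hm⟩ := hE (j / L)
            have h4 := hm i ⟨hi, h3⟩
            have h5 := hm j ⟨hj, rfl⟩
            exact h (h4.trans h5.symm)
        · exact hXsupp i j (Or.inr hj)
      · exact hXsupp i j (Or.inl hi)
  · have h := path_triv (fun t => 1 - X + (t:ℂ) • G) (K := 5.17) (M := 0.0016)
      1 (by norm_num) (by norm_num) (by norm_num)
      (by norm_num) ?_ hinv ?_ (w' := w2') hw1
    · simpa using h
    · intro t _
      exact UT_add (UT_sub UT_one hXut) (UT_smul _ hGut)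
    · intro a ha b hb
      show ‖(1 - X + (a:ℂ) • G) - (1 - X + (b:ℂ) • G)‖ ≤ _
      have e : (1 - X + (a:ℂ) • G) - (1 - X + (b:ℂ) • G) = ((a - b : ℝ) : ℂ) • G := by
        rw [add_sub_add_left_eq_sub, ← sub_smul]
        push_cast
        rfl
      rw [e, norm_smul, Complex.norm_real, Real.norm_eq_abs, mul_comm]
      exact mul_le_mul_of_nonneg_right hGn (abs_nonneg _)

end M4

end

end Pool.Agent.Helper499.NC



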