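import Pool.Agent.NestConn.S2

set_option autoImplicit false

namespace Pool.Agent.Helper499.NC


theorem sel_key (A B T : Op) (hT : star T = T) (η : ℝ)
    (h : ∀ u v : Hs, |(inner ℂ (A u + B v) (T (A u + B v)) : ℂ).re| ≤ η * (‖u‖ ^ 2 + ‖v‖ ^ 2))
    (hη : 0 ≤ η) : ‖star A * T * B‖ ≤ η := by
  have hre : ∀ u v : Hs, (inner ℂ (A u) (T (B v)) : ℂ).re ≤ η / 2 * (‖u‖ ^ 2 + ‖v‖ ^ 2) := by
    intro u v
    have h1 := (abs_le.1 (h u v)).2
    have h2 := (abs_le.1 (h u (-v))).1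
    rw [norm_neg] at h2
    have hs : (inner ℂ (B v) (T (A u)) : ℂ) = (starRingEnd ℂ) (inner ℂ (A u) (T (B v)) : ℂ) := by
      rw [inner_conj_symm]
      conv_lhs => rw [← hT]
      rw [ContinuousLinearMap.star_eq_adjoint, ContinuousLinearMap.adjoint_inner_right]
    have e1 : (inner ℂ (A u + B v) (T (A u + B v)) : ℂ) =
        inner ℂ (A u) (T (A u)) + inner ℂ (B v) (T (B v)) +
          (inner ℂ (A u) (T (B v)) + (starRingEnd ℂ) (inner ℂ (A u) (T (B v)) : ℂ)) := by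
      rw [← hs, map_add, inner_add_left, inner_add_right, inner_add_right]
      ring
    have e2 : (inner ℂ (A u + B (-v)) (T (A u + B (-v))) : ℂ) =
        inner ℂ (A u) (T (A u)) + inner ℂ (B v) (T (B v)) -
          (inner ℂ (A u) (T (B v)) + (starRingEnd ℂ) (inner ℂ (A u) (T (B v)) : ℂ)) := by
      rw [← hs, map_neg, map_add, map_neg, inner_add_left, inner_add_right, inner_add_right,
        inner_neg_left, inner_neg_right, inner_neg_left, inner_neg_right]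
      ring
    rw [e1] at h1
    rw [e2] at h2
    simp only [Complex.add_re, Complex.sub_re, Complex.conj_re] at h1 h2
    nlinarith
  refine ContinuousLinearMap.opNorm_le_bound _ hη ?_
  intro v
  set w : Hs := (star A * T * B) v with hw
  rcases eq_or_ne w 0 with h0 | h0
  · rw [h0, norm_zero]; positivity
  rcases eq_or_ne v 0 with hv | hv
  · exfalso
    apply h0
    rw [hw, hv, map_zero]
  have hwn : 0 < ‖w‖ := norm_pos_iff.2 h0
  have hvn : 0 < ‖v‖ := norm_pos_iff.2 hv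
  have h3 := hre (((‖v‖ / ‖w‖ : ℝ) : ℂ) • w) v
  have hn : ‖(((‖v‖ / ‖w‖ : ℝ) : ℂ) • w)‖ = ‖v‖ := by
    rw [norm_smul, Complex.norm_real, Real.norm_of_nonneg (by positivity)]
    field_simp
  rw [hn] at h3
  have h4 : (inner ℂ (A (((‖v‖ / ‖w‖ : ℝ) : ℂ) • w)) (T (B v)) : ℂ) =
      ((‖v‖ * ‖w‖ : ℝ) : ℂ) := by
    have hg : ∀ u : Hs, (inner ℂ (A u) (T (B v)) : ℂ) = inner ℂ u w := by
      intro u
      rw [hw, ContinuousLinearMap.star_eq_adjoint]
      show _ = inner ℂ u (ContinuousLinearMap.adjoint A (T (B v)))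
      rw [ContinuousLinearMap.adjoint_inner_right]
    have h5 := hg (((‖v‖ / ‖w‖ : ℝ) : ℂ) • w)
    rw [h5, inner_smul_left, inner_self_eq_norm_sq_to_K, Complex.conj_ofReal]
    push_cast
    have : (‖w‖ : ℂ) ≠ 0 := by exact_mod_cast hwn.ne'
    field_simp
    simp
  rw [h4, Complex.ofReal_re] at h3
  have h6 : ‖v‖ * ‖w‖ ≤ ‖v‖ * (η * ‖v‖) := by nlinarith
  exact le_of_mul_le_mul_left h6 hvn

theorem sel_re (L : ℂ) (E : Set ℕ) (hL : ∃ r : ℝ, L = r) (z : Hs) :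
    (inner ℂ z ((L • Pr E - 1 : Op) z) : ℂ).re = L.re * ‖Pr E z‖ ^ 2 - ‖z‖ ^ 2 := by
  obtain ⟨r, rfl⟩ := hL
  have h1 : ((((r : ℂ) • Pr E - 1 : Op)) z) = (r : ℂ) • Pr E z - z := rfl
  rw [h1, inner_sub_right, inner_smul_right]
  have h2 : (inner ℂ z (Pr E z) : ℂ) = inner ℂ (Pr E z) (Pr E z) := by
    have h3 : Pr E z = ContinuousLinearMap.adjoint (Pr E) (Pr E z) := by
      rw [← ContinuousLinearMap.star_eq_adjoint, star_Pr]
      show _ = (Pr E * Pr E) z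
      rw [Pr_mul_Pr]
    conv_lhs => rw [h3]
    rw [ContinuousLinearMap.adjoint_inner_right]
  rw [h2, inner_self_eq_norm_sq_to_K, inner_self_eq_norm_sq_to_K]
  simp only [Complex.sub_re, Complex.ofReal_re, Complex.re_ofReal_mul]
  have h4 : ∀ t : ℝ, (((t : ℝ) : ℂ) ^ 2).re = t ^ 2 := by
    intro t
    rw [← Complex.ofReal_pow, Complex.ofReal_re]
  erw [h4, h4]
  rfl

theorem selection : ∃ C : ℝ, 0 < C ∧ ∀ (k : ℕ) (δ : ℝ) (Y : Op), 0 < δ → (2:ℝ) ^ k * δ ^ 2 ≤ 1 / 2 → ‖Y‖ ≤ 3 →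
    (∀ j, ‖Y (ev j)‖ ≤ δ ∧ ‖star Y (ev j)‖ ≤ δ) →
    ∃ E : Set ℕ, Sel (2 ^ k) E Y (C * Real.sqrt ((2:ℝ) ^ k) * δ) := by
  obtain ⟨C, hC, H⟩ := selection_form
  refine ⟨2 * C, by positivity, ?_⟩
  intro k δ Y hδ hk hY hj
  obtain ⟨E, hE, hf⟩ := H k δ Y hδ hk hY hj
  refine ⟨E, hE, ?_⟩
  set η : ℝ := C * Real.sqrt ((2:ℝ) ^ k) * δ with hη
  have hη0 : 0 ≤ η := by positivity
  have hη2 : 2 * C * Real.sqrt ((2:ℝ) ^ k) * δ = 2 * η := by rw [hη]; ring
  rw [hη2]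
  set T : Op := (((2 ^ k : ℕ) : ℂ)) • Pr E - 1 with hTdef
  have hT : star T = T := by
    rw [hTdef, star_sub, star_smul, star_Pr, star_one]
    simp
  have hq : ∀ z : Hs, (inner ℂ z (T z) : ℂ).re = (2:ℝ) ^ k * ‖Pr E z‖ ^ 2 - ‖z‖ ^ 2 := by
    intro z
    have h1 := sel_re (((2 ^ k : ℕ) : ℂ)) E ⟨(2:ℝ) ^ k, by push_cast; rfl⟩ z
    rw [hTdef, h1]
    have h2 : (((2 ^ k : ℕ) : ℂ)).re = (2:ℝ) ^ k := by
      rw [Complex.natCast_re]; push_cast; rfl
    rw [h2]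
  have hpar : ∀ u v : Hs, ‖u + v‖ ^ 2 ≤ 2 * (‖u‖ ^ 2 + ‖v‖ ^ 2) := by
    intro u v
    have h1 := norm_add_le u v
    have h2 := norm_nonneg (u + v)
    nlinarith [sq_nonneg (‖u‖ - ‖v‖), norm_nonneg u, norm_nonneg v]
  have hYY : ‖star (star Y) * T * Y‖ ≤ 2 * η := by
    refine sel_key (star Y) Y T hT (2 * η) ?_ (by positivity)
    intro u v
    rw [hq]
    refine (hf u v).trans ?_
    have : 0 ≤ η * (‖u‖ ^ 2 + ‖v‖ ^ 2) := by positivity
    linarith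
  have hY2 : ‖star Y * T * Y‖ ≤ 2 * η := by
    refine sel_key Y Y T hT (2 * η) ?_ (by positivity)
    intro u v
    have h1 := hf 0 (u + v)
    have h2 : star Y 0 + Y (u + v) = Y u + Y v := by rw [map_zero, zero_add, map_add]
    rw [h2] at h1
    rw [hq]
    refine h1.trans ?_
    have h3 := hpar u v
    rw [norm_zero]
    nlinarith
  have hY3 : ‖star (star Y) * T * star Y‖ ≤ 2 * η := by
    refine sel_key (star Y) (star Y) T hT (2 * η) ?_ (by positivity)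
    intro u v
    have h1 := hf (u + v) 0
    have h2 : star Y (u + v) + Y 0 = star Y u + star Y v := by rw [map_zero, add_zero, map_add]
    rw [h2] at h1
    rw [hq]
    refine h1.trans ?_
    have h3 := hpar u v
    rw [norm_zero]
    nlinarith
  rw [star_star] at hYY hY3
  exact ⟨hYY, hY2, hY3⟩


end Pool.Agent.Helper499.NC
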