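import Pool.Agent.NestConn.Defs

set_option autoImplicit false

/-! M3: splitting into near-unitary factors (helper526) -/

namespace Pool.Agent.Helper499.NC

open scoped ENNReal InnerProductSpace ComplexConjugate
open InnerProductSpace

/-- QR decomposition of an invertible operator. -/
theorem qr (g g' : Op) (h1 : g * g' = 1) (h2 : g' * g = 1) :
    ∃ W : Op, star W * W = 1 ∧ W * star W = 1 ∧ UT (W * g) ∧ UT (g' * star W) ∧
      ∀ j, 0 < (ent (W * g) j j).re ∧ (ent (W * g) j j).im = 0 := by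
  classical
  set f : ℕ → Hs := fun j => g (ev j) with hf
  have hev : Orthonormal ℂ ev := by
    rw [orthonormal_iff_ite]
    intro i j
    rw [inner_ev_left, ev_apply]
  have hgi : Function.Injective g := by
    intro x y hxy
    have := congrArg g' hxy
    have hx : g' (g x) = x := by
      have := congrArg (fun T : Op => T x) h2; simpa using this
    have hy : g' (g y) = y := by
      have := congrArg (fun T : Op => T y) h2; simpa using this
    rw [hx, hy] at this
    exact this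
  have hli : LinearIndependent ℂ f := by
    have := hev.linearIndependent.map' (g : Hs →ₗ[ℂ] Hs) (LinearMap.ker_eq_bot.2 hgi)
    exact this
  have hon : Orthonormal ℂ (gramSchmidtNormed ℂ f) := gramSchmidtNormed_orthonormal hli
  have hdense : ⊤ ≤ (Submodule.span ℂ (Set.range (gramSchmidtNormed ℂ f))).topologicalClosure := by
    rw [span_gramSchmidtNormed_range, span_gramSchmidt]
    intro x _
    have hx : g (g' x) = x := by
      have := congrArg (fun T : Op => T x) h1; simpa using this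
    have hs := op_hasSum g (g' x)
    rw [hx] at hs
    rw [← SetLike.mem_coe, Submodule.topologicalClosure_coe]
    refine mem_closure_of_tendsto hs (Filter.Eventually.of_forall fun s => ?_)
    refine Submodule.sum_mem _ fun j _ => Submodule.smul_mem _ _ (Submodule.subset_span ⟨j, rfl⟩)
  set b : HilbertBasis ℕ ℂ Hs := HilbertBasis.mk hon hdense with hb
  have hbj : ∀ j, b j = gramSchmidtNormed ℂ f j := by
    intro j
    rw [hb, HilbertBasis.coe_mk]
  set W : Op := (b.repr.toContinuousLinearEquiv : Hs →L[ℂ] Hs) with hW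
  have hWs : star W = (b.repr.symm.toContinuousLinearEquiv : Hs →L[ℂ] Hs) := by
    rw [ContinuousLinearMap.star_eq_adjoint]
    exact b.repr.adjoint_eq_symm
  have hWa : ∀ x : Hs, W x = b.repr x := fun x => rfl
  have hWsa : ∀ x : Hs, star W x = b.repr.symm x := by
    intro x; rw [hWs]; rfl
  have e1 : star W * W = 1 := by
    ext x : 1
    rw [mul_apply_eq_comp, hWsa, hWa]; simp
  have e2 : W * star W = 1 := by
    ext x : 1
    rw [mul_apply_eq_comp, hWsa, hWa]; simp
  have hent : ∀ i j, ent (W * g) i j = inner ℂ (gramSchmidtNormed ℂ f i) (f j) := by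
    intro i j
    show ((W (g (ev j)) : Hs) : ℕ → ℂ) i = _
    rw [hWa, HilbertBasis.repr_apply_apply, hbj]
  have hgs : ∀ j, gramSchmidt ℂ f j ≠ 0 := fun j => gramSchmidt_ne_zero j hli
  refine ⟨W, e1, e2, ?_, ?_, ?_⟩
  · intro i j hij
    rw [hent, gramSchmidtNormed, inner_smul_left, gramSchmidt_inv_triangular ℂ f hij, mul_zero]
  · intro i j hij
    -- g' (b j) lies in span (ev '' Iic j)
    show ((g' (star W (ev j)) : Hs) : ℕ → ℂ) i = 0
    have hWj : star W (ev j) = gramSchmidtNormed ℂ f j := by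
      rw [hWsa, ← hbj]
      rw [LinearIsometryEquiv.symm_apply_eq]
      exact (b.repr_self j).symm
    rw [hWj]
    have hmem : gramSchmidtNormed ℂ f j ∈ Submodule.span ℂ (f '' Set.Iic j) := by
      unfold gramSchmidtNormed
      exact Submodule.smul_mem _ _ (gramSchmidt_mem_span ℂ f le_rfl)
    have key : ∀ x ∈ Submodule.span ℂ (f '' Set.Iic j), ((g' x : Hs) : ℕ → ℂ) i = 0 := by
      intro x hx
      induction hx using Submodule.span_induction with
      | mem x hx =>
        obtain ⟨k, hk, rfl⟩ := hx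
        have : g' (g (ev k)) = ev k := by
          have := congrArg (fun T : Op => T (ev k)) h2; simpa using this
        show ((g' (g (ev k)) : Hs) : ℕ → ℂ) i = 0
        rw [this, ev_apply, if_neg]
        have : k ≤ j := hk
        omega
      | zero => simp
      | add x y _ _ hx hy =>
        rw [map_add]
        show ((g' x : Hs) : ℕ → ℂ) i + ((g' y : Hs) : ℕ → ℂ) i = 0
        rw [hx, hy, add_zero]
      | smul c x _ hx =>
        rw [map_smul]
        show c * ((g' x : Hs) : ℕ → ℂ) i = 0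
        rw [hx, mul_zero]
    exact key _ hmem
  · intro j
    have hval : ent (W * g) j j = ((‖gramSchmidt ℂ f j‖ : ℝ) : ℂ) := by
      rw [hent, gramSchmidtNormed, inner_smul_left]
      have h3 : inner ℂ (gramSchmidt ℂ f j) (f j) = ((‖gramSchmidt ℂ f j‖ : ℝ) : ℂ) ^ 2 := by
        conv_lhs => rw [gramSchmidt_def'' ℂ f j]
        rw [inner_add_right, inner_sum, inner_self_eq_norm_sq_to_K]
        rw [Finset.sum_eq_zero, add_zero]
        · rfl
        intro k hk
        rw [inner_smul_right, gramSchmidt_orthogonal ℂ f (Finset.mem_Iio.1 hk).ne', mul_zero]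
      have h4 : conj ((((‖gramSchmidt ℂ f j‖ : ℝ) : ℂ))⁻¹) = (((‖gramSchmidt ℂ f j‖ : ℝ) : ℂ))⁻¹ := by
        rw [map_inv₀, Complex.conj_ofReal]
      have : ((‖gramSchmidt ℂ f j‖ : ℝ) : ℂ) ≠ 0 := by
        exact_mod_cast norm_ne_zero_iff.2 (hgs j)
      rw [h3]
      refine (congrArg (· * ((‖gramSchmidt ℂ f j‖ : ℝ) : ℂ) ^ 2) h4).trans ?_
      field_simp
    rw [hval]
    refine ⟨?_, ?_⟩
    · rw [Complex.ofReal_re]; exact norm_pos_iff.2 (hgs j)
    · exact Complex.ofReal_im _

theorem norm_le_of_quad (T : Op) (hT : star T = T) (c : ℝ) (hc : 0 ≤ c)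
    (h : ∀ x : Hs, |(inner ℂ (T x) x).re| ≤ c * ‖x‖ ^ 2) : ‖T‖ ≤ c := by
  have hs : (T : Hs →ₗ[ℂ] Hs).IsSymmetric := by
    have : IsSelfAdjoint T := hT
    exact this.isSymmetric
  rw [ContinuousLinearMap.norm_eq_iSup_rayleighQuotient T hs]
  refine ciSup_le fun x => ?_
  rw [ContinuousLinearMap.rayleighQuotient, ContinuousLinearMap.reApplyInnerSelf_apply, abs_div,
    abs_sq]
  rcases eq_or_ne x 0 with rfl | hx
  · simpa using hc
  · rw [div_le_iff₀ (by positivity)]
    exact h x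

theorem exists_root_gen {H : Type*} [NormedAddCommGroup H] [InnerProductSpace ℂ H] [CompleteSpace H]
    (A B : H →L[ℂ] H) (κ : ℝ) (h2 : B * A = 1) (hB : ‖B‖ ≤ κ) (hκ : 1 ≤ κ)
    (t : ℝ) (ht0 : 0 ≤ t) (ht1 : t ≤ 1) :
    ∃ g g' : H →L[ℂ] H, g * g' = 1 ∧ g' * g = 1 ∧ ‖g'‖ ≤ κ ∧
      star g * g = ((1 - t : ℝ) : ℂ) • (1 : H →L[ℂ] H) + ((t : ℝ) : ℂ) • (star A * A) := by
  set P : H →L[ℂ] H := ((1 - t : ℝ) : ℂ) • (1 : H →L[ℂ] H) + ((t : ℝ) : ℂ) • (star A * A) with hP
  have hκ0 : 0 < κ := by linarith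
  have hPr : P = (1 - t) • (1 : H →L[ℂ] H) + t • (star A * A) := by
    rw [hP, Complex.coe_smul, Complex.coe_smul]
  have hAA0 : 0 ≤ star A * A := star_mul_self_nonneg A
  -- `κ⁻² ≤ star A * A`
  have hAA : (κ ^ 2)⁻¹ • (1 : H →L[ℂ] H) ≤ star A * A := by
    have h3 : star A * (star B * B) * A ≤ ‖star B * B‖ • (star A * A) :=
      CStarAlgebra.star_left_conjugate_le_norm_smul (a := A) (b := star B * B)
    have h4 : star A * (star B * B) * A = 1 := by
      calc star A * (star B * B) * A = star (B * A) * (B * A) := by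
            rw [star_mul]; noncomm_ring
        _ = 1 := by rw [h2]; simp
    rw [h4] at h3
    have h5 : ‖star B * B‖ • (star A * A) ≤ (κ ^ 2) • (star A * A) := by
      apply smul_le_smul_of_nonneg_right _ hAA0
      rw [CStarRing.norm_star_mul_self]
      nlinarith [norm_nonneg B]
    have h6 := h3.trans h5
    have h7 := smul_le_smul_of_nonneg_left h6 (show (0:ℝ) ≤ (κ ^ 2)⁻¹ by positivity)
    rw [smul_smul, inv_mul_cancel₀ (by positivity), one_smul] at h7
    exact h7
  have hone : (0 : H →L[ℂ] H) ≤ 1 := zero_le_one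
  have hPle : (κ ^ 2)⁻¹ • (1 : H →L[ℂ] H) ≤ P := by
    rw [hPr]
    have h1 : (κ ^ 2)⁻¹ • (1 : H →L[ℂ] H)
        = (1 - t) • ((κ ^ 2)⁻¹ • (1 : H →L[ℂ] H)) + t • ((κ ^ 2)⁻¹ • (1 : H →L[ℂ] H)) := by
      rw [← add_smul]; simp
    rw [h1]
    refine add_le_add ?_ ?_
    · apply smul_le_smul_of_nonneg_left _ (by linarith)
      have h8 : (κ ^ 2)⁻¹ • (1 : H →L[ℂ] H) ≤ (1 : ℝ) • (1 : H →L[ℂ] H) := by
        apply smul_le_smul_of_nonneg_right _ hone
        have : 1 ≤ κ ^ 2 := by nlinarith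
        exact inv_le_one_of_one_le₀ this
      simpa using h8
    · exact smul_le_smul_of_nonneg_left hAA ht0
  have hstrict : IsStrictlyPositive ((κ ^ 2)⁻¹ • (1 : H →L[ℂ] H)) := by
    refine ⟨smul_nonneg (by positivity) hone, ?_⟩
    have : (κ ^ 2)⁻¹ • (1 : H →L[ℂ] H) = algebraMap ℝ (H →L[ℂ] H) ((κ ^ 2)⁻¹) := by
      rw [Algebra.algebraMap_eq_smul_one]
    rw [this]
    exact (IsUnit.mk0 _ (by positivity)).map _
  have hPu : IsUnit P := CStarAlgebra.isUnit_of_le _ hPle hstrict
  have hP0 : 0 ≤ P := le_trans hstrict.nonneg hPle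
  set g : H →L[ℂ] H := CFC.sqrt P with hg
  have hgg : g * g = P := CFC.sqrt_mul_sqrt_self P hP0
  have hg0 : 0 ≤ g := CFC.sqrt_nonneg P
  have hgs : star g = g := (IsSelfAdjoint.of_nonneg hg0).star_eq
  have hgu : IsUnit g := by
    rw [← hgg] at hPu
    exact ((Commute.refl g).isUnit_mul_iff.1 hPu).1
  obtain ⟨gu, hgu⟩ := hgu
  set g' : H →L[ℂ] H := ((gu⁻¹ : (H →L[ℂ] H)ˣ) : H →L[ℂ] H) with hg'
  have e1 : g * g' = 1 := by rw [← hgu, hg']; simp
  have e2 : g' * g = 1 := by rw [← hgu, hg']; simp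
  -- norm of the inverse
  have hBA : ∀ x : H, ‖x‖ ≤ κ * ‖A x‖ := by
    intro x
    have h4 : B (A x) = x := by
      have := congrArg (fun T : H →L[ℂ] H => T x) h2; simpa using this
    calc ‖x‖ = ‖B (A x)‖ := by rw [h4]
      _ ≤ ‖B‖ * ‖A x‖ := B.le_opNorm _
      _ ≤ κ * ‖A x‖ := by gcongr
  have hquad : ∀ x : H, (κ ^ 2)⁻¹ * ‖x‖ ^ 2 ≤ ‖g x‖ ^ 2 := by
    intro x
    have h5 : ‖g x‖ ^ 2 = (1 - t) * ‖x‖ ^ 2 + t * ‖A x‖ ^ 2 := by
      have h6 : inner ℂ (g x) (g x) = inner ℂ x (P x) := by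
        rw [← hgg]
        show inner ℂ (g x) (g x) = inner ℂ x (g (g x))
        conv_rhs => rw [← hgs]
        rw [ContinuousLinearMap.star_eq_adjoint, ContinuousLinearMap.adjoint_inner_right]
        rw [← ContinuousLinearMap.star_eq_adjoint, hgs]
      have h7 : inner ℂ x (P x) = (((1 - t) * ‖x‖ ^ 2 + t * ‖A x‖ ^ 2 : ℝ) : ℂ) := by
        rw [hP]
        show inner ℂ x (((1 - t : ℝ) : ℂ) • x + ((t : ℝ) : ℂ) • (star A (A x))) = _
        rw [inner_add_right, inner_smul_right, inner_smul_right,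
          ContinuousLinearMap.star_eq_adjoint, ContinuousLinearMap.adjoint_inner_right,
          inner_self_eq_norm_sq_to_K, inner_self_eq_norm_sq_to_K]
        push_cast
        rfl
      rw [h7, inner_self_eq_norm_sq_to_K] at h6
      have h8 : ((‖g x‖ ^ 2 : ℝ) : ℂ) = (((1 - t) * ‖x‖ ^ 2 + t * ‖A x‖ ^ 2 : ℝ) : ℂ) := by
        rw [← h6]; push_cast; rfl
      exact Complex.ofReal_injective h8
    rw [h5]
    have h8 : (κ ^ 2)⁻¹ * ‖x‖ ^ 2 ≤ ‖A x‖ ^ 2 := by
      rw [inv_mul_le_iff₀ (by positivity), ← mul_pow]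
      exact pow_le_pow_left₀ (norm_nonneg _) (hBA x) 2
    have h9 : (κ ^ 2)⁻¹ * ‖x‖ ^ 2 ≤ ‖x‖ ^ 2 := by
      have : (κ ^ 2)⁻¹ ≤ 1 := inv_le_one_of_one_le₀ (by nlinarith)
      nlinarith [sq_nonneg ‖x‖]
    nlinarith
  have hg'n : ‖g'‖ ≤ κ := by
    refine ContinuousLinearMap.opNorm_le_bound _ hκ0.le fun y => ?_
    have h3 := hquad (g' y)
    have h4 : g (g' y) = y := by
      have := congrArg (fun T : H →L[ℂ] H => T y) e1; simpa using this
    rw [h4] at h3
    have h5 : ‖g' y‖ ^ 2 ≤ (κ * ‖y‖) ^ 2 := by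
      have : ‖g' y‖ ^ 2 = κ ^ 2 * ((κ ^ 2)⁻¹ * ‖g' y‖ ^ 2) := by field_simp
      rw [this, mul_pow]
      exact mul_le_mul_of_nonneg_left h3 (by positivity)
    exact (pow_le_pow_iff_left₀ (norm_nonneg _) (by positivity) two_ne_zero).1 h5
  exact ⟨g, g', e1, e2, hg'n, by rw [hgs, hgg]⟩

theorem exists_root (A B : Op) (κ : ℝ) (h2 : B * A = 1) (hB : ‖B‖ ≤ κ) (hκ : 1 ≤ κ) (t : ℝ)
    (ht0 : 0 ≤ t) (ht1 : t ≤ 1) :
    ∃ R R' : Op, UT R ∧ UT R' ∧ R * R' = 1 ∧ R' * R = 1 ∧ ‖R'‖ ≤ κ ∧
      (∀ j, 0 < (ent R j j).re ∧ (ent R j j).im = 0) ∧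
      star R * R = ((1 - t : ℝ) : ℂ) • (1 : Op) + ((t : ℝ) : ℂ) • (star A * A) := by
  obtain ⟨g, g', e1, e2, hg'n, hgg⟩ := exists_root_gen A B κ h2 hB hκ t ht0 ht1
  obtain ⟨W, w1, w2, hU, hU', hpos⟩ := qr g g' e1 e2
  refine ⟨W * g, g' * star W, hU, hU', ?_, ?_, ?_, hpos, ?_⟩
  · calc W * g * (g' * star W) = W * (g * g') * star W := by noncomm_ring
      _ = 1 := by rw [e1, mul_one, w2]
  · calc g' * star W * (W * g) = g' * (star W * W) * g := by noncomm_ring
      _ = 1 := by rw [w1, mul_one, e2]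
  · have hWn : ‖star W‖ ≤ 1 := by
      have : ‖star W‖ ^ 2 ≤ 1 := by
        have h := CStarRing.norm_star_mul_self (x := star W)
        rw [star_star, w2] at h
        have h1 : ‖(1 : Op)‖ ≤ 1 := ContinuousLinearMap.norm_id_le
        nlinarith
      nlinarith [norm_nonneg (star W)]
    calc ‖g' * star W‖ ≤ ‖g'‖ * ‖star W‖ := norm_mul_le _ _
      _ ≤ κ * 1 := by gcongr
      _ = κ := mul_one _
  · rw [star_mul]
    calc star g * star W * (W * g) = star g * (star W * W) * g := by noncomm_ring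
      _ = _ := by rw [w1, mul_one, hgg]

theorem ent_mul_diag {X Y : Op} (hX : UT X) (hY : UT Y) (j : ℕ) :
    ent (X * Y) j j = ent X j j * ent Y j j := by
  have h := ent_mul_hasSum X Y j j
  have h2 : HasSum (fun k => ent X j k * ent Y k j) (ent X j j * ent Y j j) := by
    refine hasSum_single j fun k hk => ?_
    rcases lt_or_gt_of_ne hk with h1 | h1
    · rw [hX j k h1, zero_mul]
    · rw [hY k j h1, mul_zero]
  exact h.unique h2

theorem one_le_of_cls {κ : ℝ} {A B : Op} (h : Cls κ A B) : 1 ≤ κ := by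
  obtain ⟨-, -, h1, -, hA, hB⟩ := h
  have h0 : 0 ≤ κ := (norm_nonneg A).trans hA
  have h2 : (1 : ℝ) ≤ κ * κ := by
    calc (1 : ℝ) = ‖(A * B) (ev 0)‖ := by rw [h1]; simp [norm_ev]
      _ ≤ ‖A * B‖ * ‖ev 0‖ := (A * B).le_opNorm _
      _ ≤ (‖A‖ * ‖B‖) * ‖ev 0‖ := by gcongr; exact norm_mul_le _ _
      _ = ‖A‖ * ‖B‖ := by rw [norm_ev, mul_one]
      _ ≤ κ * κ := by gcongr
  nlinarith

/-- M3: splitting into near-unitary factors -/
theorem splitting (κ : ℝ) (N : ℕ) (hN : 0 < N) (A B : Op) (h : Cls κ A B) :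
    ∃ (u : Op) (s t : Fin N → Op), (∀ i j, i ≠ j → ent u i j = 0) ∧ star u * u = 1 ∧ u * star u = 1 ∧
      (∀ i, Ueta (κ ^ 4 / N) (s i) (t i)) ∧ A = u * (List.ofFn s).prod := by
  have hκ : 1 ≤ κ := one_le_of_cls h
  obtain ⟨hUA, hUB, hAB, hBA, hA, hB⟩ := h
  have hN' : (0 : ℝ) < N := by exact_mod_cast hN
  have hex : ∀ a : ℕ, ∃ R R' : Op, UT R ∧ UT R' ∧ R * R' = 1 ∧ R' * R = 1 ∧ ‖R'‖ ≤ κ ∧
      (∀ j, 0 < (ent R j j).re ∧ (ent R j j).im = 0) ∧
      (a ≤ N → star R * R = ((1 - a / N : ℝ) : ℂ) • (1 : Op) + ((a / N : ℝ) : ℂ) • (star A * A)) ∧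
      (a = 0 → R = 1 ∧ R' = 1) := by
    intro a
    rcases Nat.eq_zero_or_pos a with rfl | ha
    · refine ⟨1, 1, UT_one, UT_one, by simp, by simp, ?_, ?_, ?_, fun _ => ⟨rfl, rfl⟩⟩
      · exact (ContinuousLinearMap.norm_id_le).trans hκ
      · intro j; rw [ent_one, if_pos rfl]; simp
      · intro _; simp
    · by_cases haN : a ≤ N
      · have h1 : (0 : ℝ) ≤ a / N := by positivity
        have h2 : (a / N : ℝ) ≤ 1 := by
          rw [div_le_one hN']; exact_mod_cast haN
        obtain ⟨R, R', p1, p2, p3, p4, p5, p6, p7⟩ := exists_root A B κ hBA hB hκ _ h1 h2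
        exact ⟨R, R', p1, p2, p3, p4, p5, p6, fun _ => p7, fun h => by omega⟩
      · refine ⟨1, 1, UT_one, UT_one, by simp, by simp, ?_, ?_, ?_, fun _ => ⟨rfl, rfl⟩⟩
        · exact (ContinuousLinearMap.norm_id_le).trans hκ
        · intro j; rw [ent_one, if_pos rfl]; simp
        · intro h; exact absurd h haN
  choose R R' hR hR' hRR' hR'R hnR' hpos hsq h0 using hex
  have hR0 : R 0 = 1 := (h0 0 rfl).1
  have hR'0 : R' 0 = 1 := (h0 0 rfl).2
  -- positivity of the diagonal of R'
  have hpos' : ∀ a j, 0 < (ent (R' a) j j).re ∧ (ent (R' a) j j).im = 0 := by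
    intro a j
    have h1 := ent_mul_diag (hR a) (hR' a) j
    rw [hRR' a, ent_one, if_pos rfl] at h1
    obtain ⟨p1, p2⟩ := hpos a j
    have hr : ent (R a) j j = (((ent (R a) j j).re : ℝ) : ℂ) := by
      apply Complex.ext <;> simp [p2]
    have h2 : ent (R' a) j j = ((((ent (R a) j j).re)⁻¹ : ℝ) : ℂ) := by
      rw [hr] at h1
      push_cast
      exact (eq_inv_of_mul_eq_one_right h1.symm)
    rw [h2]
    exact ⟨by rw [Complex.ofReal_re]; positivity, Complex.ofReal_im _⟩
  have hprod : ∀ m : ℕ, (List.ofFn fun i : Fin m => R (m - i) * R' (m - i - 1)).prod = R m * R' 0 := by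
    intro m
    induction m with
    | zero => simp [hR0, hR'0]
    | succ m ih =>
      rw [List.ofFn_succ, List.prod_cons]
      have h1 : (fun i : Fin m => R (m + 1 - ((Fin.succ i : Fin (m+1)) : ℕ)) * R' (m + 1 - ((Fin.succ i : Fin (m+1)) : ℕ) - 1))
          = fun i : Fin m => R (m - i) * R' (m - i - 1) := by
        funext i
        have : m + 1 - ((Fin.succ i : Fin (m+1)) : ℕ) = m - i := by
          rw [Fin.val_succ]; omega
        rw [this]
      rw [h1, ih]
      have h2 : m + 1 - ((0 : Fin (m+1)) : ℕ) = m + 1 := by simp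
      rw [h2]
      have h3 : m + 1 - 1 = m := by omega
      rw [h3]
      calc R (m + 1) * R' m * (R m * R' 0) = R (m+1) * (R' m * R m) * R' 0 := by noncomm_ring
        _ = R (m+1) * R' 0 := by rw [hR'R, mul_one]
  have hsqN : star (R N) * R N = star A * A := by
    rw [hsq N le_rfl]
    have : (N / N : ℝ) = 1 := div_self hN'.ne'
    rw [this]; simp
  have huinv : star (A * R' N) * (A * R' N) = 1 := by
    calc star (A * R' N) * (A * R' N) = star (R' N) * (star A * A) * R' N := by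
          rw [star_mul]; noncomm_ring
      _ = star (R' N) * (star (R N) * R N) * R' N := by rw [hsqN]
      _ = star (R N * R' N) * (R N * R' N) := by rw [star_mul]; noncomm_ring
      _ = 1 := by rw [hRR']; simp
  have hinv2 : (A * R' N) * (R N * B) = 1 := by
    calc (A * R' N) * (R N * B) = A * (R' N * R N) * B := by noncomm_ring
      _ = 1 := by rw [hR'R, mul_one, hAB]
  have hstar : star (A * R' N) = R N * B := by
    calc star (A * R' N) = star (A * R' N) * ((A * R' N) * (R N * B)) := by rw [hinv2, mul_one]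
      _ = (star (A * R' N) * (A * R' N)) * (R N * B) := by noncomm_ring
      _ = R N * B := by rw [huinv, one_mul]
  refine ⟨A * R' N, fun i => R (N - i) * R' (N - i - 1), fun i => R (N - i - 1) * R' (N - i),
    ?_, huinv, ?_, ?_, ?_⟩
  · intro i j hij
    rcases lt_or_gt_of_ne hij with h1 | h1
    · have h2 : ent (star (A * R' N)) j i = 0 := by
        rw [hstar]; exact UT_mul (hR N) hUB j i h1
      rw [ent_star] at h2
      exact (map_eq_zero _).1 h2
    · exact UT_mul hUA (hR' N) i j h1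
  · rw [hstar, hinv2]
  · intro i
    obtain ⟨i, hi⟩ := i
    have hi1 : N - i = (N - i - 1) + 1 := by omega
    simp only
    set a := N - i - 1 with ha
    rw [hi1]
    have haN : a + 1 ≤ N := by omega
    refine ⟨UT_mul (hR _) (hR' _), UT_mul (hR _) (hR' _), ?_, ?_, ?_, ?_⟩
    · calc R (a + 1) * R' a * (R a * R' (a + 1)) = R (a+1) * (R' a * R a) * R' (a+1) := by noncomm_ring
        _ = 1 := by rw [hR'R, mul_one, hRR']
    · calc R a * R' (a + 1) * (R (a + 1) * R' a) = R a * (R' (a+1) * R (a+1)) * R' a := by noncomm_ring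
        _ = 1 := by rw [hR'R, mul_one, hRR']
    · have h1 : star (R (a + 1) * R' a) * (R (a + 1) * R' a) - 1 =
          ((1 / N : ℝ) : ℂ) • (star (R' a) * (star A * A - 1) * R' a) := by
        have e1 : (1 : Op) = star (R' a) * (star (R a) * R a) * R' a := by
          calc (1 : Op) = star (R a * R' a) * (R a * R' a) := by rw [hRR']; simp
            _ = _ := by rw [star_mul]; noncomm_ring
        have e2 : star (R (a + 1) * R' a) * (R (a + 1) * R' a)
            = star (R' a) * (star (R (a+1)) * R (a+1)) * R' a := by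
          rw [star_mul]; noncomm_ring
        rw [e2]
        conv_lhs => rw [e1]
        rw [hsq (a+1) haN, hsq a (by omega)]
        have e3 : (((a + 1 : ℕ) : ℝ) / N : ℝ) = a / N + 1 / N := by push_cast; ring
        rw [e3]
        have e4 : (((1 - (a / N + 1 / N) : ℝ)) : ℂ) • (1 : Op) + (((a / N + 1 / N : ℝ)) : ℂ) • (star A * A)
            = (((1 - a / N : ℝ)) : ℂ) • (1 : Op) + ((a / N : ℝ) : ℂ) • (star A * A)
              + ((1 / N : ℝ) : ℂ) • (star A * A - 1) := by
          push_cast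
          module
        rw [e4, mul_add, add_mul, add_sub_cancel_left]
        rw [mul_smul_comm, smul_mul_assoc]
      rw [h1, norm_smul]
      have h2 : ‖((1 / N : ℝ) : ℂ)‖ = 1 / N := by
        rw [Complex.norm_real, Real.norm_of_nonneg (by positivity)]
      rw [h2]
      have h3 : ‖star (R' a) * (star A * A - 1) * R' a‖ ≤ κ ^ 4 := by
        apply norm_le_of_quad
        · simp only [star_mul, star_sub, star_star, star_one]
          noncomm_ring
        · positivity
        · intro x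
          have h4 : inner ℂ ((star (R' a) * (star A * A - 1) * R' a) x) x
              = ((‖A (R' a x)‖ ^ 2 - ‖R' a x‖ ^ 2 : ℝ) : ℂ) := by
            show inner ℂ (star (R' a) (star A (A (R' a x)) - R' a x)) x = _
            rw [ContinuousLinearMap.star_eq_adjoint, ContinuousLinearMap.adjoint_inner_left,
              inner_sub_left, ContinuousLinearMap.star_eq_adjoint,
              ContinuousLinearMap.adjoint_inner_left, inner_self_eq_norm_sq_to_K,
              inner_self_eq_norm_sq_to_K]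
            push_cast
            rfl
          rw [h4, Complex.ofReal_re]
          have h5 : ‖R' a x‖ ≤ κ * ‖x‖ := ((R' a).le_opNorm x).trans (by gcongr; exact hnR' a)
          have h6 : ‖A (R' a x)‖ ≤ κ * (κ * ‖x‖) := (A.le_opNorm _).trans (by gcongr)
          have h7 : ‖R' a x‖ ^ 2 ≤ κ ^ 4 * ‖x‖ ^ 2 := by
            calc ‖R' a x‖ ^ 2 ≤ (κ * ‖x‖) ^ 2 := pow_le_pow_left₀ (norm_nonneg _) h5 2
              _ = κ ^ 2 * ‖x‖ ^ 2 := by ring
              _ ≤ κ ^ 4 * ‖x‖ ^ 2 := by
                apply mul_le_mul_of_nonneg_right _ (sq_nonneg _)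
                exact pow_le_pow_right₀ hκ (by norm_num)
          have h8 : ‖A (R' a x)‖ ^ 2 ≤ κ ^ 4 * ‖x‖ ^ 2 := by
            calc ‖A (R' a x)‖ ^ 2 ≤ (κ * (κ * ‖x‖)) ^ 2 := pow_le_pow_left₀ (norm_nonneg _) h6 2
              _ = κ ^ 4 * ‖x‖ ^ 2 := by ring
          rw [abs_le]
          constructor <;> nlinarith [sq_nonneg ‖R' a x‖, sq_nonneg ‖A (R' a x)‖]
      calc 1 / (N : ℝ) * ‖star (R' a) * (star A * A - 1) * R' a‖ ≤ 1 / N * κ ^ 4 := by gcongr
        _ = κ ^ 4 / N := by ring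
    · intro j
      rw [ent_mul_diag (hR _) (hR' _)]
      obtain ⟨p1, p2⟩ := hpos (a+1) j
      obtain ⟨q1, q2⟩ := hpos' a j
      rw [Complex.mul_re, Complex.mul_im, p2, q2]
      constructor
      · simpa using mul_pos p1 q1
      · simp
  · rw [hprod N, hR'0, mul_one]
    calc A = A * (R' N * R N) := by rw [hR'R, mul_one]
      _ = A * R' N * R N := by noncomm_ring

/-- M3: diagonal unitaries are trivial -/
theorem diag_unitary_triv : ∃ n, ∀ u : Op, (∀ i j, i ≠ j → ent u i j = 0) → star u * u = 1 →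
    u * star u = 1 → Triv n u := by
  refine ⟨7, fun u hd h1 _ => ?_⟩
  set d : ℕ → ℂ := fun j => ent u j j with hdd
  have hdn : ∀ j, ‖d j‖ = 1 := by
    intro j
    have h := ent_mul_hasSum (star u) u j j
    have h2 : HasSum (fun k => ent (star u) j k * ent u k j) (ent (star u) j j * ent u j j) := by
      refine hasSum_single j fun k hk => ?_
      rw [hd k j hk, mul_zero]
    have h3 := h.unique h2
    rw [h1, ent_one, if_pos rfl, ent_star] at h3
    have h4 : (Complex.normSq (d j) : ℂ) = 1 := by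
      rw [Complex.normSq_eq_conj_mul_self]; exact h3.symm
    have h5 : Complex.normSq (d j) = 1 := by exact_mod_cast h4
    have h6 : ‖d j‖ ^ 2 = 1 := by rw [← Complex.normSq_eq_norm_sq]; exact h5
    have h7 : 0 ≤ ‖d j‖ := norm_nonneg _
    nlinarith
  set e : ℕ → ℂ := fun j => Complex.exp (((Complex.arg (d j) / 7 : ℝ) : ℂ) * Complex.I) with he
  have hen : ∀ j, ‖e j‖ ≤ 1 := fun j => by rw [he]; simp only; rw [Complex.norm_exp_ofReal_mul_I]
  have he7 : ∀ j, e j ^ 7 = d j := by
    intro j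
    rw [he]
    simp only
    rw [← Complex.exp_nat_mul]
    have h2 := Complex.norm_mul_exp_arg_mul_I (d j)
    rw [hdn j] at h2
    rw [Complex.ofReal_one, one_mul] at h2
    conv_rhs => rw [← h2]
    congr 1
    push_cast
    ring
  have hpow : ∀ n : ℕ, ∀ (v : Hs) (k : ℕ), (((dg e) ^ n) v : ℕ → ℂ) k = e k ^ n * (v : ℕ → ℂ) k := by
    intro n
    induction n with
    | zero => intro v k; simp
    | succ n ih =>
      intro v k
      rw [pow_succ']
      show ((dg e ((dg e ^ n) v) : Hs) : ℕ → ℂ) k = _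
      rw [dg_apply e hen, ih, pow_succ']
      ring
  refine ⟨List.replicate 7 (dg e), List.length_replicate, ?_, ?_⟩
  · intro B hB
    rw [List.eq_of_mem_replicate hB]
    refine ⟨UT_dg e, fun i j h => by simp at h, ?_⟩
    have hsub : dg e - 1 = dg (fun j => e j - 1) := by
      have hb : ∀ j, ‖e j - 1‖ ≤ 2 := fun j =>
        (norm_sub_le _ _).trans (by have := hen j; simp; linarith)
      ext v : 1
      apply lp.ext
      funext k
      rw [dg_apply _ hb]
      show (dg e v : ℕ → ℂ) k - (v : ℕ → ℂ) k = _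
      rw [dg_apply e hen]
      ring
    rw [hsub]
    apply norm_dg_le
    intro j
    rw [he]
    simp only
    rw [mul_comm]
    refine (Real.norm_exp_I_mul_ofReal_sub_one_le).trans ?_
    rw [Real.norm_eq_abs, abs_div]
    have h1 := Complex.abs_arg_le_pi (d j)
    have h2 := Real.pi_lt_d2
    have h3 : |(7:ℝ)| = 7 := abs_of_pos (by norm_num)
    rw [h3]
    linarith
  · rw [List.prod_replicate]
    apply op_ext
    intro i j
    show _ = ((((dg e) ^ 7) (ev j) : Hs) : ℕ → ℂ) i
    rw [hpow, ev_apply]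
    by_cases hij : i = j
    · subst hij
      rw [if_pos rfl, mul_one, he7]
    · rw [if_neg hij, mul_zero]
      exact hd i j hij

end Pool.Agent.Helper499.NC
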