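import Pool.Agent.NestConn.Tool
import Pool.Agent.NestConn.M4
import Pool.Agent.NestConn.Splitting
import Pool.Agent.NestConn.S3

set_option autoImplicit false

/-! Module M5 (helper436): assembly of selection, splitting, one_factor -/

namespace Pool.Agent.Helper499.NC

open scoped ENNReal InnerProductSpace ComplexConjugate

/-- Pythagoras for a self-adjoint projection -/
theorem m5_pyth (P : Op) (hs : star P = P) (hp : P * P = P) (x y : Hs) :
    ‖P x + (1 - P) y‖ ^ 2 = ‖P x‖ ^ 2 + ‖(1 - P) y‖ ^ 2 := by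
  have h : inner ℂ (P x) ((1 - P) y) = (0 : ℂ) := by
    have e1 : ∀ z : Hs, inner ℂ (P x) z = (inner ℂ x (P z) : ℂ) := by
      intro z
      have : inner ℂ (star P x) z = (inner ℂ x (P z) : ℂ) := by
        rw [ContinuousLinearMap.star_eq_adjoint, ContinuousLinearMap.adjoint_inner_left]
      rwa [hs] at this
    rw [e1]
    have e2 : P ((1 - P) y) = (P * (1 - P)) y := rfl
    rw [e2, mul_sub, mul_one, hp, sub_self]
    simp
  have h2 := norm_add_sq (𝕜 := ℂ) (P x) ((1 - P) y)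
  rw [h] at h2
  simpa using h2

/-- operators living on disjoint coordinate sets: the norm of the product -/
theorem m5_norm_disj_mul (S T : Set ℕ) (hST : Disjoint S T) (A B : Op) (hA : On S A) (hB : On T B)
    (κ : ℝ) (h1 : 0 ≤ κ) (hAκ : ‖A‖ ≤ κ) (hBκ : ‖B‖ ≤ κ) : ‖A * B‖ ≤ κ := by
  have hA' := (on_iff S A).1 hA
  have hB' := (on_iff T B).1 hB
  have hPs := star_Pr S
  have hPP := Pr_mul_Pr S
  have hPT := Pr_mul_Pr_of_disjoint S T hST
  have hTP := Pr_mul_Pr_of_disjoint T S hST.symm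
  generalize Pr S = P at hA' hPs hPP hPT hTP
  generalize Pr T = Q at hB' hPT hTP
  have hPB : P * B = P := by
    have : P * (B - 1) = 0 := by
      rw [← hB', ← mul_assoc, ← mul_assoc, hPT, zero_mul, zero_mul]
    rw [mul_sub, mul_one, sub_eq_zero] at this
    exact this
  have hBP : B * P = P := by
    have : (B - 1) * P = 0 := by
      rw [← hB', mul_assoc, hTP, mul_zero]
    rw [sub_mul, one_mul, sub_eq_zero] at this
    exact this
  have hQA : (1 - P) * A = 1 - P := by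
    have : (1 - P) * (A - 1) = 0 := by
      rw [← hA', ← mul_assoc, ← mul_assoc, sub_mul, one_mul, hPP, sub_self, zero_mul, zero_mul]
    rw [mul_sub, mul_one, sub_eq_zero] at this
    exact this
  have hAQ : A * (1 - P) = 1 - P := by
    have : (A - 1) * (1 - P) = 0 := by
      have h0 : P * (1 - P) = 0 := by rw [mul_sub, mul_one, hPP, sub_self]
      rw [← hA', mul_assoc, h0, mul_zero]
    rw [sub_mul, one_mul, sub_eq_zero] at this
    exact this
  have hBc : B * (1 - P) = (1 - P) * B := by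
    rw [mul_sub, sub_mul, mul_one, one_mul, hPB, hBP]
  have e1 : A * B = P * (A * P) + (1 - P) * (B * (1 - P)) := by
    have h3 : A * B = A * (B * P) + A * (B * (1 - P)) := by
      rw [← mul_add, ← mul_add]
      congr 1
      rw [add_sub_cancel, mul_one]
    rw [h3, hBP, hBc, ← mul_assoc A, hAQ]
    have h4 : A * P = P * (A * P) := by
      have : (1 - P) * (A * P) = 0 := by
        rw [← mul_assoc, hQA, sub_mul, one_mul, hPP, sub_self]
      rw [sub_mul, one_mul, sub_eq_zero] at this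
      exact this
    have h5 : (1 - P) * ((1 - P) * B) = (1 - P) * B := by
      rw [← mul_assoc]
      congr 1
      rw [mul_sub, mul_one, sub_mul, one_mul, hPP, sub_self, sub_zero]
    rw [← h4, h5]
  refine ContinuousLinearMap.opNorm_le_bound _ h1 (fun v => ?_)
  have e2 : (A * B) v = P (A (P v)) + (1 - P) (B ((1 - P) v)) := by
    rw [e1]; rfl
  have hP1 : ∀ z, ‖P z‖ ≤ ‖z‖ := by
    intro z
    have := m5_pyth P hPs hPP z z
    have hz : P z + (1 - P) z = z := by
      simp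
    rw [hz] at this
    nlinarith [norm_nonneg z, norm_nonneg (P z), sq_nonneg ‖(1 - P) z‖]
  have hP2 : ∀ z, ‖(1 - P) z‖ ≤ ‖z‖ := by
    intro z
    have := m5_pyth P hPs hPP z z
    have hz : P z + (1 - P) z = z := by
      simp
    rw [hz] at this
    nlinarith [norm_nonneg z, norm_nonneg ((1 - P) z), sq_nonneg ‖P z‖]
  have h6 : ‖P (A (P v))‖ ≤ κ * ‖P v‖ :=
    (hP1 _).trans ((A.le_opNorm _).trans (mul_le_mul_of_nonneg_right hAκ (norm_nonneg _)))
  have h7 : ‖(1 - P) (B ((1 - P) v))‖ ≤ κ * ‖(1 - P) v‖ :=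
    (hP2 _).trans ((B.le_opNorm _).trans (mul_le_mul_of_nonneg_right hBκ (norm_nonneg _)))
  have h8 := m5_pyth P hPs hPP v v
  have hz : P v + (1 - P) v = v := by
    simp
  rw [hz] at h8
  have h9 := m5_pyth P hPs hPP (A (P v)) (B ((1 - P) v))
  rw [← e2] at h9
  have h10 : ‖(A * B) v‖ ^ 2 ≤ (κ * ‖v‖) ^ 2 := by
    rw [h9, mul_pow, h8, mul_add, ← mul_pow, ← mul_pow]
    gcongr
  exact (sq_le_sq₀ (norm_nonneg _) (mul_nonneg h1 (norm_nonneg _))).1 h10

theorem m5_slot_mono (N : ℕ) (hN : 0 < N) : StrictMono (slot N) := by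
  intro a b hab
  unfold slot
  have ha := Nat.div_add_mod a N
  have hb := Nat.div_add_mod b N
  have ha2 := Nat.mod_lt a hN
  have hq := Nat.div_le_div_right (c := N) hab.le
  rcases hq.eq_or_lt with h | h
  · rw [h] at ha ⊢
    omega
  · have h1 : 4 * N * (a / N + 1) ≤ 4 * N * (b / N) := Nat.mul_le_mul_left _ h
    rw [mul_add, mul_one] at h1
    omega

theorem m5_slot_div (N : ℕ) (hN : 0 < N) (a : ℕ) : slot N a / (4 * N) = a / N := by
  unfold slot
  have ha2 := Nat.mod_lt a hN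
  have h4 : 0 < 4 * N := by omega
  have h5 : a % N / (4 * N) = 0 := Nat.div_eq_of_lt (by omega)
  rw [Nat.mul_add_div h4, h5, add_zero]

theorem m5_slot_range (N : ℕ) (hN : 0 < N) (m : ℕ) (i : ℕ) (hi : i < N) (h : m % (4 * N) = i) :
    m ∈ Set.range (slot N) := by
  refine ⟨N * (m / (4 * N)) + i, ?_⟩
  unfold slot
  rw [Nat.mul_add_div hN, Nat.div_eq_of_lt hi, add_zero, Nat.mul_add_mod, Nat.mod_eq_of_lt hi]
  conv_rhs => rw [← Nat.div_add_mod m (4 * N), h]

/-- product of the transported factors -/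
theorem m5_prod_cls (L : ℕ) : ∀ (N : ℕ) (r : Fin N → ℕ) (_ : Function.Injective r)
    (w w' : Fin N → Op), (∀ i, Cls 8 (w i) (w' i)) → (∀ i, SBU L (w i - 1)) →
    (∀ i, On {m | m % L = r i} (w i)) →
    Cls 8 (List.ofFn w).prod (List.ofFn w').reverse.prod ∧ SBU L ((List.ofFn w).prod - 1) ∧
      On {m | ∃ i, m % L = r i} (List.ofFn w).prod := by
  intro N
  induction N with
  | zero =>
    intro r _ w w' _ _ _
    simp only [List.ofFn_zero, List.prod_nil, List.reverse_nil]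
    refine ⟨⟨UT_one, UT_one, mul_one 1, mul_one 1, ?_, ?_⟩, ?_, ?_⟩
    · exact (ContinuousLinearMap.norm_id_le).trans (by norm_num)
    · exact (ContinuousLinearMap.norm_id_le).trans (by norm_num)
    · intro i j _
      rw [sub_self, ent_zero]
    · intro i j _
      rfl
  | succ N ih =>
    intro r hr w w' hw hs ho
    obtain ⟨⟨a1, a2, a3, a4, a5, a6⟩, b, c⟩ := ih (fun i => r i.succ)
      (fun i j h => Fin.succ_injective _ (hr h))
      (fun i => w i.succ) (fun i => w' i.succ) (fun i => hw _) (fun i => hs _) (fun i => ho _)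
    obtain ⟨d1, d2, d3, d4, d5, d6⟩ := hw 0
    rw [List.ofFn_succ, List.ofFn_succ, List.prod_cons, List.reverse_cons, List.prod_append,
      List.prod_singleton]
    have ec : ∀ P Q : Op, P * Q = 1 → w 0 * P * (Q * w' 0) = 1 := by
      intro P Q h
      rw [mul_assoc, ← mul_assoc P, h, one_mul, d3]
    have ec' : ∀ P Q : Op, P * Q = 1 → P * w' 0 * (w 0 * Q) = 1 := by
      intro P Q h
      rw [mul_assoc, ← mul_assoc (w' 0), d4, one_mul, h]
    have hd : Disjoint {m | m % L = r 0} {m | ∃ i : Fin N, m % L = r i.succ} := by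
      rw [Set.disjoint_left]
      rintro m h1 ⟨i, h2⟩
      have h3 : r 0 = r i.succ := by
        rw [← h2]; exact h1.symm
      exact absurd (hr h3) (Fin.succ_ne_zero i).symm
    have c' := on_inv _ _ _ a3 a4 c
    have d' := on_inv _ _ _ d3 d4 (ho 0)
    refine ⟨⟨UT_mul d1 a1, UT_mul a2 d2, ec _ _ a3, ec' _ _ a4, ?_, ?_⟩, ?_, ?_⟩
    · exact m5_norm_disj_mul _ _ hd _ _ (ho 0) c 8 (by norm_num) d5 a5
    · exact m5_norm_disj_mul _ _ hd.symm _ _ c' d' 8 (by norm_num) a6 d6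
    · have e : w 0 * (List.ofFn fun i => w i.succ).prod - 1
          = (w 0 - 1) * (List.ofFn fun i => w i.succ).prod + ((List.ofFn fun i => w i.succ).prod - 1) := by
        rw [sub_mul, one_mul]; abel
      rw [e]
      intro i j hij
      rw [ent_add, sbu_mul_ut L _ _ (hs 0) a1 i j hij, b i j hij, add_zero]
    · apply on_mul
      · refine on_mono {m | m % L = r 0} _ ?_ _ (ho 0)
        intro m hm
        exact ⟨0, hm⟩
      · refine on_mono _ _ ?_ _ c
        rintro m ⟨i, hm⟩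
        exact ⟨i.succ, hm⟩

theorem m5_prod_triv (n : ℕ) : ∀ N : ℕ, ∃ m : ℕ, ∀ s w w' : Fin N → Op,
    (∀ i, Cls 8 (w i) (w' i)) → (∀ i, Triv n (s i * w' i)) →
    Triv m ((List.ofFn s).prod * (List.ofFn w').reverse.prod) := by
  intro N
  induction N with
  | zero =>
    refine ⟨0, fun s w w' _ _ => ?_⟩
    simp only [List.ofFn_zero, List.prod_nil, List.reverse_nil, mul_one]
    exact trivOn_one Set.univ 0
  | succ N ih =>
    obtain ⟨m, hm⟩ := ih
    obtain ⟨m', hm'⟩ := trivOn_conj 8 m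
    refine ⟨n + m', fun s w w' hw ht => ?_⟩
    have h1 := hm (fun i => s i.succ) (fun i => w i.succ) (fun i => w' i.succ)
      (fun i => hw _) (fun i => ht _)
    have h2 := hm' Set.univ _ (w 0) (w' 0) h1 (hw 0) (on_univ _)
    have h3 := trivOn_mul Set.univ n m' _ _ (ht 0) h2
    rw [List.ofFn_succ, List.ofFn_succ, List.prod_cons, List.reverse_cons, List.prod_append,
      List.prod_singleton]
    have d4 : w' 0 * w 0 = 1 := (hw 0).2.2.2.1
    have e : ∀ P Q : Op, s 0 * w' 0 * (w 0 * (P * Q) * w' 0) = s 0 * P * (Q * w' 0) := by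
      intro P Q
      calc s 0 * w' 0 * (w 0 * (P * Q) * w' 0) = s 0 * (w' 0 * w 0) * (P * Q) * w' 0 := by
            simp only [mul_assoc]
        _ = s 0 * P * (Q * w' 0) := by rw [d4, mul_one]; simp only [mul_assoc]
    rw [e] at h3
    exact h3

theorem m5_cs (H : Type) [NormedAddCommGroup H] [InnerProductSpace ℂ H] [CompleteSpace H]
    (s : H →L[ℂ] H) : ‖star s * s‖ = ‖s‖ * ‖s‖ := CStarRing.norm_star_mul_self

theorem m5_norm_one_le : ‖(1 : Op)‖ ≤ 1 := ContinuousLinearMap.norm_id_le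

theorem m5_norm_one_sub (s : Op) (η : ℝ) (hη : η ≤ 1) (h : ‖star s * s - 1‖ ≤ η) : ‖1 - s‖ ≤ 3 := by
  have h1 : ‖star s * s‖ ≤ ‖star s * s - 1‖ + ‖(1 : Op)‖ := by
    have := norm_add_le (star s * s - 1) (1 : Op)
    rwa [sub_add_cancel] at this
  have h0 : ‖star s * s‖ = ‖s‖ * ‖s‖ := m5_cs Hs s
  have h3 : ‖1 - s‖ ≤ ‖(1 : Op)‖ + ‖s‖ := norm_sub_le _ _
  have h4 := m5_norm_one_le
  have h5 := norm_nonneg s
  rw [h0] at h1
  revert h h1 h3 h4 h5
  generalize ‖star s * s - 1‖ = a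
  generalize ‖(1 : Op)‖ = b
  generalize ‖1 - s‖ = c
  generalize ‖s‖ = d
  intro h h1 h3 h4 h5
  nlinarith

/-- M5 -/
theorem move (κ : ℝ) : ∃ N n : ℕ, 0 < N ∧ ∀ A B, Cls κ A B →
    ∃ A' B', Cls 8 A' B' ∧ SBU N (A' - 1) ∧ Triv n (A * emb (slot N) B') := by
  obtain ⟨C, hC, hsel⟩ := selection
  -- choose the number of factors
  obtain ⟨p, hp⟩ : ∃ p : ℕ, 64 * κ ^ 8 * 640000 * (C + 1) ^ 2 + 100 * κ ^ 4 ≤ (2 : ℝ) ^ p := by
    obtain ⟨p, hp⟩ := pow_unbounded_of_one_lt (64 * κ ^ 8 * 640000 * (C + 1) ^ 2 + 100 * κ ^ 4)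
      (one_lt_two : (1 : ℝ) < 2)
    exact ⟨p, hp.le⟩
  set N : ℕ := 2 ^ p with hNdef
  have hN : 0 < N := by positivity
  have hNr : (N : ℝ) = 2 ^ p := by rw [hNdef]; push_cast; rfl
  have hL : 4 * N = 2 ^ (p + 2) := by rw [hNdef]; ring
  -- constants
  choose nf hnf using fun i : Fin N => one_factor (4 * N) i (by have := i.2; omega)
  obtain ⟨n0, hn0⟩ : ∃ n0, ∀ i, nf i ≤ n0 := ⟨∑ i, nf i, fun i =>
    Finset.single_le_sum (f := nf) (fun _ _ => Nat.zero_le _) (Finset.mem_univ i)⟩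
  obtain ⟨m1, hm1⟩ := m5_prod_triv n0 N
  obtain ⟨m0, hm0⟩ := diag_unitary_triv
  refine ⟨N, m0 + m1, hN, fun A B hAB => ?_⟩
  obtain ⟨u, s, t, hu1, hu2, hu3, hst, hA⟩ := splitting κ N hN A B hAB
  have hκ : κ ≠ 0 := by
    rintro rfl
    have h1 : A = 0 := by
      have := hAB.2.2.2.2.1
      exact norm_le_zero_iff.1 this
    have h2 := hAB.2.2.1
    rw [h1, zero_mul] at h2
    have h3 : ent (0 : Op) 0 0 = ent (1 : Op) 0 0 := by rw [h2]
    rw [ent_zero, ent_one] at h3
    simp at h3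
  have hNpos : (0 : ℝ) < N := by exact_mod_cast hN
  have hk4 : 0 < κ ^ 4 := by positivity
  have hk8 : 0 < κ ^ 8 := by positivity
  set η : ℝ := κ ^ 4 / N with hη
  have hηpos : 0 < η := by positivity
  have hbig : 64 * κ ^ 8 * 640000 * (C + 1) ^ 2 + 100 * κ ^ 4 ≤ (N : ℝ) := by rw [hNr]; exact hp
  have hη1 : η ≤ 1 / 100 := by
    rw [hη, div_le_iff₀ hNpos]
    have : 0 ≤ 64 * κ ^ 8 * 640000 * (C + 1) ^ 2 := by positivity
    linarith
  have hNη : (N : ℝ) * η ^ 2 = κ ^ 8 / N := by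
    rw [hη]; field_simp
  have hC1 : 1 ≤ (C + 1) ^ 2 := by nlinarith
  have hk8N : κ ^ 8 / N ≤ 1 / (64 * 640000 * (C + 1) ^ 2) := by
    rw [div_le_div_iff₀ hNpos (by positivity)]
    nlinarith
  have hk8N' : κ ^ 8 / N ≤ 1 / (64 * 640000) := by
    refine hk8N.trans ?_
    apply one_div_le_one_div_of_le (by norm_num)
    nlinarith
  have hη2 : ((4 * N : ℕ) : ℝ) * η ^ 2 ≤ 1 / 10000 := by
    push_cast
    have : 4 * (N : ℝ) * η ^ 2 = 4 * (κ ^ 8 / N) := by rw [← hNη]; ring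
    rw [this]
    linarith
  have hpow : (2 : ℝ) ^ (p + 2) = 4 * N := by rw [hNr, pow_add]; ring
  -- the factors
  have hfac : ∀ i : Fin N, ∃ w w' : Op, Cls 8 w w' ∧ SBU (4 * N) (w - 1) ∧
      On {m | m % (4 * N) = (i : ℕ)} w ∧ Triv n0 (s i * w') := by
    intro i
    have hi := hst i
    have hcols := ueta_cols η (by linarith) (s i) (t i) hi
    obtain ⟨E, hE1, hE2, hE3, hE4⟩ := hsel (p + 2) (4 * η) (1 - s i) (by positivity)
      (by
        rw [hpow]
        have : 4 * (N : ℝ) * (4 * η) ^ 2 = 64 * (κ ^ 8 / N) := by rw [← hNη]; ring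
        rw [this]
        linarith)
      (m5_norm_one_sub (s i) η (by linarith) hi.2.2.2.2.1) hcols
    have hδ : C * Real.sqrt ((2:ℝ) ^ (p + 2)) * (4 * η) ≤ 1 / 100 := by
      have h1 : (C * Real.sqrt ((2:ℝ) ^ (p + 2)) * (4 * η)) ^ 2 ≤ (1 / 100) ^ 2 := by
        rw [mul_pow, mul_pow, Real.sq_sqrt (by positivity), hpow]
        have h2 : C ^ 2 * (4 * (N : ℝ)) * (4 * η) ^ 2 = 64 * (C ^ 2 * (κ ^ 8 / N)) := by
          rw [← hNη]; ring
        rw [h2]
        have h3 : C ^ 2 * (κ ^ 8 / N) ≤ (C + 1) ^ 2 * (1 / (64 * 640000 * (C + 1) ^ 2)) := by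
          apply mul_le_mul (by nlinarith) hk8N (by positivity) (by positivity)
        have h4 : (C + 1) ^ 2 * (1 / (64 * 640000 * (C + 1) ^ 2)) = 1 / (64 * 640000) := by
          have : (C + 1) ≠ 0 := by positivity
          field_simp
        rw [h4] at h3
        calc 64 * (C ^ 2 * (κ ^ 8 / N)) ≤ 64 * (1 / (64 * 640000)) := by linarith
          _ ≤ _ := by norm_num
      exact (sq_le_sq₀ (by positivity) (by norm_num)).1 h1
    have hSel : Sel (4 * N) E (1 - s i) (1 / 100) := by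
      rw [hL]
      refine ⟨hE1, ?_, ?_, ?_⟩
      · refine le_trans ?_ (hE2.trans hδ)
        push_cast
        exact le_refl _
      · refine le_trans ?_ (hE3.trans hδ)
        push_cast
        exact le_refl _
      · refine le_trans ?_ (hE4.trans hδ)
        push_cast
        exact le_refl _
    obtain ⟨w, w', h1, h2, h3, h4⟩ := hnf i η (s i) (t i) E hi hη1 hη2 hSel
    exact ⟨w, w', h1, h2, h3, trivOn_mono _ _ (le_refl _) _ _ (hn0 i) _ h4⟩
  choose w w' hw1 hw2 hw3 hw4 using hfac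
  obtain ⟨hc, hs', ho⟩ := m5_prod_cls (4 * N) N (fun i => (i : ℕ)) Fin.val_injective w w' hw1 hw2 hw3
  have hT := hm1 s w w' hw1 hw4
  have hU := hm0 u hu1 hu2 hu3
  have hsub : {m | ∃ i : Fin N, m % (4 * N) = (i : ℕ)} ⊆ Set.range (slot N) := by
    rintro m ⟨i, hi⟩
    exact m5_slot_range N hN m i i.2 hi
  have ho1 := on_mono _ _ hsub _ ho
  have ho2 := on_inv _ _ _ hc.2.2.1 hc.2.2.2.1 ho1
  have hmono := m5_slot_mono N hN
  obtain ⟨A', B', h1, h2, h3, h4⟩ := exists_emb (slot N) hmono 8 _ _ hc ho1 ho2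
  refine ⟨A', B', h1, ?_, ?_⟩
  · intro i j hij
    have h5 : ent ((List.ofFn w).prod - 1) (slot N i) (slot N j) = 0 := by
      apply hs'
      rw [m5_slot_div N hN, m5_slot_div N hN]
      exact hij
    rw [ent_sub, ← h4, ent_one] at h5
    rw [ent_sub, ent_one]
    simpa [hmono.injective.eq_iff] using h5
  · rw [h3, hA, mul_assoc]
    exact trivOn_mul _ _ _ _ _ hU hT

end Pool.Agent.Helper499.NC
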