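import Pool.Agent.NestConn.T2
import Pool.Agent.NestConn.FinSel

set_option autoImplicit false

namespace Pool.Agent.Helper499.NC



theorem hs_hasSum (v : Hs) : HasSum (fun i => ‖(v : ℕ → ℂ) i‖ ^ 2) (‖v‖ ^ 2) := by
  have h := lp.hasSum_norm (p := 2) (by norm_num) v
  simpa using h

theorem hs_fin (v : Hs) (n : ℕ) (h : ∀ i, n ≤ i → (v : ℕ → ℂ) i = 0) :
    ∑ i : Fin n, ‖(v : ℕ → ℂ) i‖ ^ 2 = ‖v‖ ^ 2 := by
  have h1 : HasSum (fun i => ‖(v : ℕ → ℂ) i‖ ^ 2) (∑ i ∈ Finset.range n, ‖(v : ℕ → ℂ) i‖ ^ 2) := by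
    apply hasSum_sum_of_ne_finset_zero
    intro i hi
    rw [Finset.mem_range, not_lt] at hi
    rw [h i hi]; simp
  have h2 := (hs_hasSum v).unique h1
  rw [h2, Finset.sum_range]

theorem inner_fin (u v : Hs) (n : ℕ) (h : ∀ i, n ≤ i → (v : ℕ → ℂ) i = 0) :
    inner ℂ u v = ∑ i : Fin n, star ((u : ℕ → ℂ) i) * (v : ℕ → ℂ) i := by
  have h1 := lp.hasSum_inner (𝕜 := ℂ) u v
  have h2 : HasSum (fun i => inner ℂ ((u : ℕ → ℂ) i) ((v : ℕ → ℂ) i))
      (∑ i ∈ Finset.range n, inner ℂ ((u : ℕ → ℂ) i) ((v : ℕ → ℂ) i)) := by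
    apply hasSum_sum_of_ne_finset_zero
    intro i hi
    rw [Finset.mem_range, not_lt] at hi
    rw [h i hi]; simp
  rw [h1.unique h2, Finset.sum_range]
  apply Finset.sum_congr rfl
  intro i _
  rw [RCLike.inner_apply, mul_comm]
  rfl

/-- finitely supported vector -/
noncomputable def vec71 (n : ℕ) (w : Fin n → ℂ) : Hs := ∑ i : Fin n, w i • ev i

theorem vec71_apply (n : ℕ) (w : Fin n → ℂ) (j : ℕ) :
    (vec71 n w : ℕ → ℂ) j = ∑ i : Fin n, if j = (i : ℕ) then w i else 0 := by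
  rw [← inner_ev_left, vec71, inner_sum]
  apply Finset.sum_congr rfl
  intro i _
  rw [inner_smul_right, inner_ev_left, ev_apply]
  split_ifs <;> simp

theorem vec71_lt (n : ℕ) (w : Fin n → ℂ) (j : Fin n) : (vec71 n w : ℕ → ℂ) j = w j := by
  rw [vec71_apply, Finset.sum_eq_single j]
  · simp
  · intro i _ hij
    rw [if_neg]
    intro h
    exact hij (Fin.ext h.symm)
  · simp

theorem vec71_ge (n : ℕ) (w : Fin n → ℂ) (j : ℕ) (hj : n ≤ j) : (vec71 n w : ℕ → ℂ) j = 0 := by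
  rw [vec71_apply]
  apply Finset.sum_eq_zero
  intro i _
  rw [if_neg]
  have := i.2
  omega

theorem z71 (Y : Op) (x y : Hs) (n j : ℕ) (hx : ∀ i, n ≤ i → (x : ℕ → ℂ) i = 0)
    (hy : ∀ i, n ≤ i → (y : ℕ → ℂ) i = 0) :
    ((star Y x + Y y : Hs) : ℕ → ℂ) j = (∑ i : Fin n, star ((Y (ev j) : ℕ → ℂ) i) * (x : ℕ → ℂ) i)
      + ∑ i : Fin n, star ((star Y (ev j) : ℕ → ℂ) i) * (y : ℕ → ℂ) i := by
  rw [← inner_fin _ _ n hx, ← inner_fin _ _ n hy, ← inner_ev_left, inner_add_right]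
  congr 1
  · rw [ContinuousLinearMap.star_eq_adjoint, ContinuousLinearMap.adjoint_inner_right]
  · rw [ContinuousLinearMap.star_eq_adjoint, ContinuousLinearMap.adjoint_inner_left]

theorem sum_blocks71 (f : ℕ → ℝ) (n L : ℕ) :
    ∑ c : Fin n, ∑ a : Fin L, f (a + L * c) = ∑ j ∈ Finset.range (n * L), f j := by
  rw [Finset.sum_range, ← Equiv.sum_comp finProdFinEquiv, Fintype.sum_prod_type]
  rfl

/-! ## TARGET -/

/-- selection for the rows of `(Y*, Y)`, finitely supported test vectors -/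
theorem selection_finsupp : ∃ C : ℝ, 0 < C ∧ ∀ (k : ℕ) (δ : ℝ) (Y : Op), 0 < δ → (2:ℝ) ^ k * δ ^ 2 ≤ 1 / 2 → ‖Y‖ ≤ 3 →
    (∀ j, ‖Y (ev j)‖ ≤ δ ∧ ‖star Y (ev j)‖ ≤ δ) →
    ∃ s : ℕ → ℕ, (∀ c, s c / 2 ^ k = c) ∧
      ∀ (x y : Hs) (m : ℕ), (∀ i, m ≤ i → (x : ℕ → ℂ) i = 0) → (∀ i, m ≤ i → (y : ℕ → ℂ) i = 0) →
        |(2:ℝ) ^ k * ∑' c, ‖((star Y x + Y y : Hs) : ℕ → ℂ) (s c)‖ ^ 2 - ‖star Y x + Y y‖ ^ 2|
          ≤ C * Real.sqrt ((2:ℝ) ^ k) * δ * (‖x‖ ^ 2 + ‖y‖ ^ 2) := by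
  obtain ⟨C, hC, hsel⟩ := fin_selection 18
  refine ⟨C * Real.sqrt 2, by positivity, ?_⟩
  intro k δ Y hδ hk hY hcol
  set L : ℕ := 2 ^ k with hL
  have hLpos : 0 < L := by positivity
  -- the finite selections
  have key : ∀ n : ℕ, ∃ s : Fin n → Fin (2 ^ k), ∀ (x y : Hs), (∀ i, n ≤ i → (x : ℕ → ℂ) i = 0) →
      (∀ i, n ≤ i → (y : ℕ → ℂ) i = 0) →
      |(2:ℝ) ^ k * ∑ c : Fin n, ‖((star Y x + Y y : Hs) : ℕ → ℂ) (s c + L * c)‖ ^ 2
        - ∑ j ∈ Finset.range (n * L), ‖((star Y x + Y y : Hs) : ℕ → ℂ) j‖ ^ 2|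
        ≤ C * Real.sqrt 2 * Real.sqrt ((2:ℝ) ^ k) * δ * (‖x‖ ^ 2 + ‖y‖ ^ 2) := by
    intro n
    let u : Fin n → Fin (2 ^ k) → (Fin n ⊕ Fin n) → ℂ := fun c a =>
      Sum.elim (fun i => (Y (ev (a + L * c)) : ℕ → ℂ) i) (fun i => (star Y (ev (a + L * c)) : ℕ → ℂ) i)
    have hz : ∀ (x y : Hs), (∀ i, n ≤ i → (x : ℕ → ℂ) i = 0) → (∀ i, n ≤ i → (y : ℕ → ℂ) i = 0) →
        ∀ c a, ∑ i, star (u c a i) * (Sum.elim (fun i : Fin n => (x : ℕ → ℂ) i) (fun i : Fin n => (y : ℕ → ℂ) i) i)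
          = ((star Y x + Y y : Hs) : ℕ → ℂ) (a + L * c) := by
      intro x y hx hy c a
      rw [z71 Y x y n _ hx hy, Fintype.sum_sum_type]
      rfl
    have hM : ∀ v : (Fin n ⊕ Fin n) → ℂ, ∑ c, ∑ a, ‖∑ i, star (u c a i) * v i‖ ^ 2
        ≤ 18 * ∑ i, ‖v i‖ ^ 2 := by
      intro v
      set x : Hs := vec71 n (fun i => v (Sum.inl i)) with hxdef
      set y : Hs := vec71 n (fun i => v (Sum.inr i)) with hydef
      have hx : ∀ i, n ≤ i → (x : ℕ → ℂ) i = 0 := fun i hi => vec71_ge _ _ _ hi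
      have hy : ∀ i, n ≤ i → (y : ℕ → ℂ) i = 0 := fun i hi => vec71_ge _ _ _ hi
      have hv : v = Sum.elim (fun i : Fin n => (x : ℕ → ℂ) i) (fun i : Fin n => (y : ℕ → ℂ) i) := by
        funext i
        rcases i with i | i
        · exact (vec71_lt n (fun i => v (Sum.inl i)) i).symm
        · exact (vec71_lt n (fun i => v (Sum.inr i)) i).symm
      have hnv : ∑ i, ‖v i‖ ^ 2 = ‖x‖ ^ 2 + ‖y‖ ^ 2 := by
        rw [Fintype.sum_sum_type, ← hs_fin x n hx, ← hs_fin y n hy]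
        congr 1
        · apply Finset.sum_congr rfl
          intro i _
          rw [hxdef, vec71_lt]
        · apply Finset.sum_congr rfl
          intro i _
          rw [hydef, vec71_lt]
      rw [hnv]
      have h1 : ∑ c, ∑ a, ‖∑ i, star (u c a i) * v i‖ ^ 2
          = ∑ j ∈ Finset.range (n * L), ‖((star Y x + Y y : Hs) : ℕ → ℂ) j‖ ^ 2 := by
        rw [← sum_blocks71 (fun j => ‖((star Y x + Y y : Hs) : ℕ → ℂ) j‖ ^ 2) n L]
        apply Finset.sum_congr rfl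
        intro c _
        apply Finset.sum_congr rfl
        intro a _
        have := hz x y hx hy c a
        rw [← hv] at this
        rw [this]
      rw [h1]
      have h2 : ∑ j ∈ Finset.range (n * L), ‖((star Y x + Y y : Hs) : ℕ → ℂ) j‖ ^ 2
          ≤ ‖star Y x + Y y‖ ^ 2 :=
        sum_le_hasSum _ (fun _ _ => by positivity) (hs_hasSum _)
      have hsY : ‖star Y‖ = ‖Y‖ := by
        rw [ContinuousLinearMap.star_eq_adjoint]
        exact LinearIsometryEquiv.norm_map _ _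
      have h3 : ‖star Y x + Y y‖ ≤ 3 * ‖x‖ + 3 * ‖y‖ := by
        calc ‖star Y x + Y y‖ ≤ ‖star Y x‖ + ‖Y y‖ := norm_add_le _ _
          _ ≤ ‖star Y‖ * ‖x‖ + ‖Y‖ * ‖y‖ := add_le_add ((star Y).le_opNorm x) (Y.le_opNorm y)
          _ ≤ 3 * ‖x‖ + 3 * ‖y‖ := by
            rw [hsY]
            gcongr
      have h4 := norm_nonneg x
      have h5 := norm_nonneg y
      have h6 : ‖star Y x + Y y‖ ^ 2 ≤ (3 * ‖x‖ + 3 * ‖y‖) ^ 2 := by gcongr
      nlinarith [sq_nonneg (‖x‖ - ‖y‖)]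
    have hε : ∀ c a, ∑ i, ‖u c a i‖ ^ 2 ≤ 2 * δ ^ 2 := by
      intro c a
      rw [Fintype.sum_sum_type]
      have h1 : ∀ v : Hs, ∑ i : Fin n, ‖(v : ℕ → ℂ) i‖ ^ 2 ≤ ‖v‖ ^ 2 := by
        intro v
        rw [← Finset.sum_range (fun i => ‖(v : ℕ → ℂ) i‖ ^ 2)]
        exact sum_le_hasSum _ (fun _ _ => by positivity) (hs_hasSum v)
      have h2 := h1 (Y (ev (a + L * c)))
      have h3 := h1 (star Y (ev (a + L * c)))
      obtain ⟨h4, h5⟩ := hcol (a + L * c)
      have h6 : ‖Y (ev (a + L * c))‖ ^ 2 ≤ δ ^ 2 := by gcongr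
      have h7 : ‖star Y (ev (a + L * c))‖ ^ 2 ≤ δ ^ 2 := by gcongr
      show ∑ i : Fin n, ‖(Y (ev (a + L * c)) : ℕ → ℂ) i‖ ^ 2
        + ∑ i : Fin n, ‖(star Y (ev (a + L * c)) : ℕ → ℂ) i‖ ^ 2 ≤ _
      linarith
    obtain ⟨s, hs⟩ := hsel k (2 * δ ^ 2) u (by positivity) (by linarith) hε hM
    refine ⟨s, ?_⟩
    intro x y hx hy
    have h1 := hs (Sum.elim (fun i : Fin n => (x : ℕ → ℂ) i) (fun i : Fin n => (y : ℕ → ℂ) i))
    simp only [hz x y hx hy] at h1
    rw [sum_blocks71 (fun j => ‖((star Y x + Y y : Hs) : ℕ → ℂ) j‖ ^ 2) n L, Fintype.sum_sum_type] at h1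
    simp only [Sum.elim_inl, Sum.elim_inr] at h1
    rw [hs_fin x n hx, hs_fin y n hy] at h1
    refine h1.trans (le_of_eq ?_)
    have h2 : Real.sqrt ((2:ℝ) ^ k * (2 * δ ^ 2)) = Real.sqrt 2 * Real.sqrt ((2:ℝ) ^ k) * δ := by
      rw [Real.sqrt_mul (by positivity), Real.sqrt_mul (by positivity), Real.sqrt_sq hδ.le]
      ring
    rw [h2]
    ring
  choose s0 hs0 using key
  let t : ℕ → ℕ → Fin (2 ^ k) := fun n c => if h : c < n then s0 n ⟨c, h⟩ else ⟨0, by positivity⟩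
  have hlim : ∀ c, ∃ a : Fin (2 ^ k), ∀ᶠ n in (Filter.hyperfilter ℕ : Filter ℕ), t n c = a := by
    intro c
    obtain ⟨a, ha⟩ := Ultrafilter.eq_pure_of_finite ((Filter.hyperfilter ℕ).map (fun n => t n c))
    refine ⟨a, ?_⟩
    have h1 : {b | b = a} ∈ (Filter.hyperfilter ℕ).map (fun n => t n c) := by
      rw [ha]
      exact Filter.mem_pure.2 rfl
    exact h1
  choose σ hσ using hlim
  refine ⟨fun c => σ c + L * c, ?_, ?_⟩
  · intro c
    show ((σ c : ℕ) + L * c) / L = c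
    rw [Nat.add_mul_div_left _ _ hLpos, Nat.div_eq_of_lt (σ c).2, zero_add]
  · intro x y m hx hy
    set z : Hs := star Y x + Y y with hz
    set f : ℕ → ℝ := fun j => ‖(z : ℕ → ℂ) j‖ ^ 2 with hf
    have hfs : HasSum f (‖z‖ ^ 2) := hs_hasSum z
    have hU : (Filter.hyperfilter ℕ : Filter ℕ) ≤ Filter.atTop := by
      rw [← Nat.cofinite_eq_atTop]
      exact Filter.hyperfilter_le_cofinite
    let F : ℕ → ℕ → ℝ := fun n c => if c < n then f (t n c + L * c) else 0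
    have hF : Filter.Tendsto (fun n => ∑' c, F n c) (Filter.hyperfilter ℕ : Filter ℕ)
        (nhds (∑' c, f (σ c + L * c))) := by
      apply tendsto_tsum_of_dominated_convergence (bound := fun c => ∑ a : Fin (2 ^ k), f (a + L * c))
      · apply summable_sum
        intro a _
        apply hfs.summable.comp_injective
        intro c c' h
        have h' : (a : ℕ) + L * c = a + L * c' := h
        have h'' : L * c = L * c' := by omega
        exact Nat.eq_of_mul_eq_mul_left hLpos h''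
      · intro c
        apply tendsto_nhds_of_eventually_eq
        have h1 : ∀ᶠ n in (Filter.hyperfilter ℕ : Filter ℕ), c < n :=
          hU (Filter.eventually_gt_atTop c)
        filter_upwards [h1, hσ c] with n hn1 hn2
        show (if c < n then f (t n c + L * c) else 0) = _
        rw [if_pos hn1, hn2]
      · filter_upwards with n
        intro c
        have h2 : ∀ a : Fin (2 ^ k), f (a + L * c) ≤ ∑ a : Fin (2 ^ k), f (a + L * c) := by
          intro a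
          exact Finset.single_le_sum (f := fun a : Fin (2 ^ k) => f (a + L * c))
            (fun b _ => by simp only [hf]; positivity) (Finset.mem_univ a)
        show ‖(if c < n then f (t n c + L * c) else 0)‖ ≤ _
        split_ifs with hc
        · rw [Real.norm_of_nonneg (by simp only [hf]; positivity)]
          exact h2 _
        · rw [norm_zero]
          exact Finset.sum_nonneg (fun b _ => by simp only [hf]; positivity)
    have hG : Filter.Tendsto (fun n : ℕ => ∑ j ∈ Finset.range (n * L), f j)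
        (Filter.hyperfilter ℕ : Filter ℕ) (nhds (‖z‖ ^ 2)) := by
      have h1 := hfs.tendsto_sum_nat
      have h2 : Filter.Tendsto (fun n : ℕ => n * L) Filter.atTop Filter.atTop :=
        Filter.tendsto_id.atTop_mul_const' hLpos
      exact (h1.comp h2).mono_left hU
    have hlim2 : Filter.Tendsto (fun n : ℕ => |(2:ℝ) ^ k * ∑' c, F n c - ∑ j ∈ Finset.range (n * L), f j|)
        (Filter.hyperfilter ℕ : Filter ℕ)
        (nhds (|(2:ℝ) ^ k * ∑' c, f (σ c + L * c) - ‖z‖ ^ 2|)) :=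
      ((hF.const_mul _).sub hG).abs
    refine le_of_tendsto hlim2 ?_
    have h1 : ∀ᶠ n in (Filter.hyperfilter ℕ : Filter ℕ), m ≤ n := hU (Filter.eventually_ge_atTop m)
    filter_upwards [h1] with n hn
    have h2 := hs0 n x y (fun i hi => hx i (hn.trans hi)) (fun i hi => hy i (hn.trans hi))
    have h3 : ∑' c, F n c = ∑ c : Fin n, f (s0 n c + L * c) := by
      rw [tsum_eq_sum (s := Finset.range n)]
      · rw [Finset.sum_range]
        apply Finset.sum_congr rfl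
        intro c _
        show (if (c : ℕ) < n then f (t n c + L * c) else 0) = _
        rw [if_pos c.2]
        show f ((if h : (c : ℕ) < n then s0 n ⟨c, h⟩ else ⟨0, _⟩ : Fin (2 ^ k)) + L * c) = _
        rw [dif_pos c.2]
      · intro c hc
        rw [Finset.mem_range] at hc
        show (if c < n then f (t n c + L * c) else 0) = _
        rw [if_neg hc]
    rw [h3]
    exact h2


end Pool.Agent.Helper499.NC
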