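import Pool.Agent.NestConn.S1

set_option autoImplicit false

namespace Pool.Agent.Helper499.NC


theorem nc_norm_Pr_range_sq (s : ℕ → ℕ) (hs : Function.Injective s) (z : Hs) :
    ‖Pr (Set.range s) z‖ ^ 2 = ∑' c, ‖(z : ℕ → ℂ) (s c)‖ ^ 2 := by
  classical
  have hb : ∀ n : ℕ, ‖(if n ∈ Set.range s then (1:ℂ) else 0)‖ ≤ 1 := by
    intro n
    split_ifs <;> simp
  have hap : ∀ n, (Pr (Set.range s) z : ℕ → ℂ) n
      = (if n ∈ Set.range s then (1:ℂ) else 0) * (z : ℕ → ℂ) n := by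
    intro n
    unfold Pr
    convert dg_apply (fun j => if j ∈ Set.range s then (1:ℂ) else 0) (C := 1) hb z n
  have h1 := lp.norm_rpow_eq_tsum (p := 2) (by norm_num) (Pr (Set.range s) z)
  have h2 : (2 : ENNReal).toReal = 2 := by norm_num
  rw [h2] at h1
  have h3 : ‖Pr (Set.range s) z‖ ^ 2 = ∑' i, ‖(Pr (Set.range s) z : ℕ → ℂ) i‖ ^ 2 := by
    have := h1
    simp only [Real.rpow_two] at this
    exact this
  rw [h3]
  have h4 : (fun c => ‖(z : ℕ → ℂ) (s c)‖ ^ 2)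
      = fun c => (fun i => ‖(Pr (Set.range s) z : ℕ → ℂ) i‖ ^ 2) (s c) := by
    funext c
    simp only [hap]
    rw [if_pos (Set.mem_range_self c), one_mul]
  rw [h4]
  symm
  refine Function.Injective.tsum_eq (f := fun i => ‖(Pr (Set.range s) z : ℕ → ℂ) i‖ ^ 2) hs ?_
  intro i hi
  by_contra hcon
  apply hi
  simp only [hap]
  rw [if_neg hcon]
  simp

theorem nc_trunc (x : Hs) : ∃ X : ℕ → Hs, (∀ m i, m ≤ i → (X m : ℕ → ℂ) i = 0) ∧
    Filter.Tendsto X Filter.atTop (nhds x) := by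
  refine ⟨fun m => ∑ j ∈ Finset.range m, (x : ℕ → ℂ) j • ev j, ?_, (hasSum_ev x).tendsto_sum_nat⟩
  intro m i hi
  have h : ((∑ j ∈ Finset.range m, (x : ℕ → ℂ) j • ev j : Hs) : ℕ → ℂ) i
      = ∑ j ∈ Finset.range m, (x : ℕ → ℂ) j * (if i = j then 1 else 0) := by
    rw [← inner_ev_left, inner_sum]
    apply Finset.sum_congr rfl
    intro j _
    rw [inner_smul_right, inner_ev_left, ev_apply]
  show ((∑ j ∈ Finset.range m, (x : ℕ → ℂ) j • ev j : Hs) : ℕ → ℂ) i = 0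
  rw [h]
  apply Finset.sum_eq_zero
  intro j hj
  rw [Finset.mem_range] at hj
  rw [if_neg (by omega), mul_zero]

/-- all test vectors, and with the projection `Pr E` -/
theorem selection_form : ∃ C : ℝ, 0 < C ∧ ∀ (k : ℕ) (δ : ℝ) (Y : Op), 0 < δ → (2:ℝ) ^ k * δ ^ 2 ≤ 1 / 2 → ‖Y‖ ≤ 3 →
    (∀ j, ‖Y (ev j)‖ ≤ δ ∧ ‖star Y (ev j)‖ ≤ δ) →
    ∃ E : Set ℕ, (∀ b, ∃! m, m ∈ E ∧ m / 2 ^ k = b) ∧
      ∀ (x y : Hs), |(2:ℝ) ^ k * ‖Pr E (star Y x + Y y)‖ ^ 2 - ‖star Y x + Y y‖ ^ 2|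
          ≤ C * Real.sqrt ((2:ℝ) ^ k) * δ * (‖x‖ ^ 2 + ‖y‖ ^ 2) := by
  obtain ⟨C, hC, hall⟩ := selection_finsupp
  refine ⟨C, hC, ?_⟩
  intro k δ Y hδ hk hY hcol
  obtain ⟨s, hs, hsf⟩ := hall k δ Y hδ hk hY hcol
  have hinj : Function.Injective s := by
    intro a b hab
    rw [← hs a, ← hs b, hab]
  refine ⟨Set.range s, ?_, ?_⟩
  · intro b
    refine ⟨s b, ⟨Set.mem_range_self b, hs b⟩, ?_⟩
    rintro m ⟨⟨c, rfl⟩, hm⟩
    rw [hs c] at hm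
    rw [hm]
  · intro x y
    obtain ⟨X, hX0, hX⟩ := nc_trunc x
    obtain ⟨Z, hZ0, hZ⟩ := nc_trunc y
    have hbd : ∀ m, |(2:ℝ) ^ k * ‖Pr (Set.range s) (star Y (X m) + Y (Z m))‖ ^ 2
        - ‖star Y (X m) + Y (Z m)‖ ^ 2|
          ≤ C * Real.sqrt ((2:ℝ) ^ k) * δ * (‖X m‖ ^ 2 + ‖Z m‖ ^ 2) := by
      intro m
      rw [nc_norm_Pr_range_sq s hinj]
      exact hsf (X m) (Z m) m (hX0 m) (hZ0 m)
    have hsum : Filter.Tendsto (fun m => star Y (X m) + Y (Z m)) Filter.atTop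
        (nhds (star Y x + Y y)) := by
      apply Filter.Tendsto.add
      · exact ((star Y).continuous.tendsto x).comp hX
      · exact (Y.continuous.tendsto y).comp hZ
    have hPr : Filter.Tendsto (fun m => Pr (Set.range s) (star Y (X m) + Y (Z m))) Filter.atTop
        (nhds (Pr (Set.range s) (star Y x + Y y))) :=
      ((Pr (Set.range s)).continuous.tendsto _).comp hsum
    have hL : Filter.Tendsto (fun m => |(2:ℝ) ^ k * ‖Pr (Set.range s) (star Y (X m) + Y (Z m))‖ ^ 2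
        - ‖star Y (X m) + Y (Z m)‖ ^ 2|) Filter.atTop
        (nhds |(2:ℝ) ^ k * ‖Pr (Set.range s) (star Y x + Y y)‖ ^ 2
          - ‖star Y x + Y y‖ ^ 2|) :=
      (((hPr.norm.pow 2).const_mul _).sub (hsum.norm.pow 2)).abs
    have hR : Filter.Tendsto (fun m => C * Real.sqrt ((2:ℝ) ^ k) * δ * (‖X m‖ ^ 2 + ‖Z m‖ ^ 2))
        Filter.atTop (nhds (C * Real.sqrt ((2:ℝ) ^ k) * δ * (‖x‖ ^ 2 + ‖y‖ ^ 2))) :=
      ((hX.norm.pow 2).add (hZ.norm.pow 2)).const_mul _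
    exact le_of_tendsto_of_tendsto' hL hR hbd


end Pool.Agent.Helper499.NC
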