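import Pool.Agent.NestConn.Defs

set_option autoImplicit false

namespace Pool.Agent.Helper499.NC

theorem norm_ent_sub_le (A B : Op) (i j : ℕ) : ‖ent A i j - ent B i j‖ ≤ ‖A - B‖ := by
  rw [← ent_sub]
  exact ent_le _ _ _
theorem ext_e (A B : Op) (h : ∀ j, A (ev j) = B (ev j)) : A = B := by
  apply op_ext
  intro i j
  unfold ent
  rw [h j]

theorem mul_zero_of (A B : Op) (i k : ℕ) (h : ∀ j, ent A i j = 0 ∨ ent B j k = 0) :
    ent (A * B) i k = 0 := by
  have h1 := ent_mul_hasSum A B i k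
  have h0 : (fun j => ent A i j * ent B j k) = fun _ => 0 := by
    funext j
    rcases h j with h | h
    · rw [h, zero_mul]
    · rw [h, mul_zero]
  rw [h0] at h1
  exact h1.unique hasSum_zero
theorem supp_mul (R S : ℕ → ℕ → Prop) (A B : Op) (hA : Supp R A) (hB : Supp S B) :
    Supp (fun i j => ∃ k, R i k ∧ S k j) (A * B) := by
  intro i j h
  apply mul_zero_of
  intro k
  by_cases h1 : R i k
  · right
    exact hB k j fun h2 => h ⟨k, h1, h2⟩
  · left
    exact hA i k h1
theorem sbu_mul (N : ℕ) (A B : Op) (hA : SBU N A) (hB : SBU N B) : SBU N (A * B) := by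
  intro i k h
  apply mul_zero_of
  intro j
  rcases le_or_gt (j / N) (i / N) with h1 | h1
  · exact Or.inl (hA i j h1)
  · exact Or.inr (hB j k (by omega))
theorem sbu_ut (N : ℕ) (A : Op) (hA : SBU N A) : UT A := by
  intro i j h
  exact hA i j (Nat.div_le_div_right h.le)
theorem sbu_mul_ut (N : ℕ) (A B : Op) (hA : SBU N A) (hB : UT B) : SBU N (A * B) := by
  intro i k h
  apply mul_zero_of
  intro j
  rcases le_or_gt (j / N) (i / N) with h1 | h1
  · exact Or.inl (hA i j h1)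
  · refine Or.inr (hB j k ?_)
    by_contra h2
    have := Nat.div_le_div_right (c := N) (not_lt.1 h2)
    omega
theorem ut_mul_sbu (N : ℕ) (A B : Op) (hA : UT A) (hB : SBU N B) : SBU N (A * B) := by
  intro i k h
  apply mul_zero_of
  intro j
  rcases lt_or_ge j i with h1 | h1
  · exact Or.inl (hA i j h1)
  · refine Or.inr (hB j k ?_)
    exact h.trans (Nat.div_le_div_right h1)
/-- Neumann series inside the triangular algebra -/
theorem ut_neumann (A : Op) (hA : UT A) (h : ‖A‖ < 1) :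
    ∃ B, UT B ∧ (1 - A) * B = 1 ∧ B * (1 - A) = 1 ∧ ‖B‖ ≤ (1 - ‖A‖)⁻¹ := by
  have hs : Summable (fun n : ℕ => A ^ n) := summable_geometric_of_norm_lt_one h
  refine ⟨∑' n : ℕ, A ^ n, ?_, ?_, ?_, ?_⟩
  · refine isClosed_UT.mem_of_tendsto hs.hasSum (Filter.Eventually.of_forall fun s => ?_)
    show UT (∑ n ∈ s, A ^ n)
    induction s using Finset.induction_on with
    | empty => simpa using UT_zero
    | insert a s ha ih =>
      rw [Finset.sum_insert ha]
      exact UT_add (UT_pow hA a) ih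
  · exact mul_neg_geom_series A h
  · exact geom_series_mul_neg A h
  · have h1 := tsum_geometric_le_of_norm_lt_one A h
    have h2 : ‖(1 : Op)‖ ≤ 1 := ContinuousLinearMap.norm_id_le
    linarith
/-- perturbation of an invertible element -/
theorem ut_perturb (A B X : Op) (hA : UT A) (hB : UT B) (h1 : A * B = 1) (h2 : B * A = 1) (hX : UT X)
    (h : ‖B‖ * ‖X‖ < 1) :
    ∃ C, UT C ∧ (A + X) * C = 1 ∧ C * (A + X) = 1 ∧ ‖C‖ ≤ ‖B‖ * (1 - ‖B‖ * ‖X‖)⁻¹ := by
  have hle : ‖-(B * X)‖ ≤ ‖B‖ * ‖X‖ := by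
    rw [norm_neg]
    exact norm_mul_le _ _
  obtain ⟨D, hD, d1, d2, d3⟩ := ut_neumann (-(B * X)) (UT_neg (UT_mul hB hX)) (hle.trans_lt h)
  refine ⟨D * B, UT_mul hD hB, ?_, ?_, ?_⟩
  · have e : A + X = A * (1 - -(B * X)) := by
      rw [sub_neg_eq_add, mul_add, mul_one, ← mul_assoc, h1, one_mul]
    rw [e, mul_assoc, ← mul_assoc (1 - -(B * X)), d1, one_mul, h1]
  · have e : B * (A + X) = 1 - -(B * X) := by
      rw [sub_neg_eq_add, mul_add, h2]
    rw [mul_assoc, e, d2]
  · refine (norm_mul_le _ _).trans ?_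
    rw [mul_comm]
    refine mul_le_mul_of_nonneg_left (d3.trans ?_) (norm_nonneg _)
    exact inv_anti₀ (by linarith) (by linarith)
/-- `1 - X Z` is invertible as soon as `1 - Z X` is, inside the triangular algebra -/
theorem ut_flip (X Z W : Op) (hX : UT X) (hZ : UT Z) (hW : UT W) (h1 : (1 - Z * X) * W = 1) (h2 : W * (1 - Z * X) = 1) :
    UT (1 + X * W * Z) ∧ (1 - X * Z) * (1 + X * W * Z) = 1 ∧ (1 + X * W * Z) * (1 - X * Z) = 1 := by
  refine ⟨UT_add UT_one (UT_mul (UT_mul hX hW) hZ), ?_, ?_⟩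
  · have e : (1 - X * Z) * (1 + X * W * Z) = 1 - X * Z + X * ((1 - Z * X) * W) * Z := by
      noncomm_ring
    rw [e, h1, mul_one, sub_add_cancel]
  · have e : (1 + X * W * Z) * (1 - X * Z) = 1 - X * Z + X * (W * (1 - Z * X)) * Z := by
      noncomm_ring
    rw [e, h2, mul_one, sub_add_cancel]



end Pool.Agent.Helper499.NC
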