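import Pool.Agent.NestConn.Defs

set_option autoImplicit false

namespace Pool.Agent.Helper499.NC

theorem dg_ev (d : ℕ → ℂ) {C : ℝ} (h : ∀ j, ‖d j‖ ≤ C) (j : ℕ) : dg d (ev j) = d j • ev j := by
  apply lp.ext
  funext n
  rw [dg_apply d h, lp.coeFn_smul, Pi.smul_apply, ev_apply, smul_eq_mul]
  by_cases hn : n = j
  · subst hn; rfl
  · simp [hn]
theorem star_dg (d : ℕ → ℂ) {C : ℝ} (h : ∀ j, ‖d j‖ ≤ C) : star (dg d) = dg (fun j => star (d j)) := by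
  apply op_ext
  intro i j
  rw [ent_star, ent_dg d h, ent_dg (fun j => star (d j)) (C := C) (by intro n; rw [norm_star]; exact h n)]
  by_cases hij : i = j
  · subst hij; simp
  · rw [if_neg hij, if_neg (Ne.symm hij), map_zero]
theorem dg_mul (d d' : ℕ → ℂ) {C C' : ℝ} (h : ∀ j, ‖d j‖ ≤ C) (h' : ∀ j, ‖d' j‖ ≤ C') :
    dg d * dg d' = dg (fun j => d j * d' j) := by
  have h2 : ∀ j, ‖d j * d' j‖ ≤ C * C' := by
    intro j
    rw [norm_mul]
    exact mul_le_mul (h j) (h' j) (norm_nonneg _) (le_trans (norm_nonneg _) (h j))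
  ext v : 1
  apply lp.ext
  funext n
  rw [dg_apply _ h2]
  change (dg d (dg d' v) : ℕ → ℂ) n = _
  rw [dg_apply d h, dg_apply d' h', mul_assoc]
theorem dg_add (d d' : ℕ → ℂ) {C C' : ℝ} (h : ∀ j, ‖d j‖ ≤ C) (h' : ∀ j, ‖d' j‖ ≤ C') :
    dg d + dg d' = dg (fun j => d j + d' j) := by
  have h2 : ∀ j, ‖d j + d' j‖ ≤ C + C' := by
    intro j
    exact (norm_add_le _ _).trans (add_le_add (h j) (h' j))
  apply op_ext
  intro i j
  rw [ent_add, ent_dg d h, ent_dg d' h', ent_dg _ h2]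
  by_cases hij : i = j <;> simp [hij]
theorem dg_sub (d d' : ℕ → ℂ) {C C' : ℝ} (h : ∀ j, ‖d j‖ ≤ C) (h' : ∀ j, ‖d' j‖ ≤ C') :
    dg d - dg d' = dg (fun j => d j - d' j) := by
  have h2 : ∀ j, ‖d j - d' j‖ ≤ C + C' := by
    intro j
    exact (norm_sub_le _ _).trans (add_le_add (h j) (h' j))
  apply op_ext
  intro i j
  rw [ent_sub, ent_dg d h, ent_dg d' h', ent_dg _ h2]
  by_cases hij : i = j <;> simp [hij]
theorem dg_smul (c : ℂ) (d : ℕ → ℂ) {C : ℝ} (h : ∀ j, ‖d j‖ ≤ C) :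
    c • dg d = dg (fun j => c * d j) := by
  have h2 : ∀ j, ‖c * d j‖ ≤ ‖c‖ * C := by
    intro j
    rw [norm_mul]
    exact mul_le_mul_of_nonneg_left (h j) (norm_nonneg _)
  apply op_ext
  intro i j
  rw [ent_smul, ent_dg d h, ent_dg _ h2]
  by_cases hij : i = j <;> simp [hij]
theorem dg_one : dg (fun _ => 1) = 1 := by
  apply op_ext
  intro i j
  rw [ent_dg (fun _ => 1) (C := 1) (by intro j; simp), ent_one]
theorem ent_dg_mul (d : ℕ → ℂ) {C : ℝ} (h : ∀ j, ‖d j‖ ≤ C) (A : Op) (i j : ℕ) :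
    ent (dg d * A) i j = d i * ent A i j := by
  change (dg d (A (ev j)) : ℕ → ℂ) i = _
  rw [dg_apply d h]
  rfl
theorem ent_mul_dg (d : ℕ → ℂ) {C : ℝ} (h : ∀ j, ‖d j‖ ≤ C) (A : Op) (i j : ℕ) :
    ent (A * dg d) i j = ent A i j * d j := by
  change (A (dg d (ev j)) : ℕ → ℂ) i = _
  rw [dg_ev d h, map_smul, lp.coeFn_smul, Pi.smul_apply, smul_eq_mul, mul_comm]
  rfl
open Classical in
theorem Pr_bd (S : Set ℕ) (j : ℕ) : ‖(if j ∈ S then (1:ℂ) else 0)‖ ≤ 1 := by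
  split_ifs <;> simp
open Classical in
theorem ent_Pr_mul_mul_Pr (S T : Set ℕ) (A : Op) (i j : ℕ) :
    ent (Pr S * A * Pr T) i j = if i ∈ S ∧ j ∈ T then ent A i j else 0 := by
  unfold Pr
  rw [ent_mul_dg _ (Pr_bd T), ent_dg_mul _ (Pr_bd S)]
  by_cases hi : i ∈ S <;> by_cases hj : j ∈ T <;> simp [hi, hj]
theorem norm_Pr_le (S : Set ℕ) : ‖Pr S‖ ≤ 1 := norm_dg_le _ (Pr_bd S)
theorem star_Pr (S : Set ℕ) : star (Pr S) = Pr S := by
  unfold Pr
  rw [star_dg _ (Pr_bd S)]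
  congr 1
  funext j
  split_ifs <;> simp
theorem Pr_mul_Pr (S : Set ℕ) : Pr S * Pr S = Pr S := by
  unfold Pr
  rw [dg_mul _ _ (Pr_bd S) (Pr_bd S)]
  congr 1
  funext j
  split_ifs <;> simp
theorem Pr_mul_Pr_of_disjoint (S T : Set ℕ) (h : Disjoint S T) : Pr S * Pr T = 0 := by
  unfold Pr
  rw [dg_mul _ _ (Pr_bd S) (Pr_bd T)]
  apply op_ext
  intro i j
  rw [ent_dg _ (C := 1) (by
    intro n
    split_ifs <;> simp), ent_zero]
  split_ifs with h1 h2 h3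
  · exact absurd h3 (Set.disjoint_left.1 h h2)
  all_goals simp
theorem Pr_add_Pr_of_disjoint (S T : Set ℕ) (h : Disjoint S T) : Pr S + Pr T = Pr (S ∪ T) := by
  unfold Pr
  rw [dg_add _ _ (Pr_bd S) (Pr_bd T)]
  congr 1
  funext j
  by_cases h1 : j ∈ S
  · have h2 : j ∉ T := Set.disjoint_left.1 h h1
    rw [if_pos h1, if_neg h2, if_pos (show j ∈ S ∪ T from Or.inl h1), add_zero]
  · by_cases h2 : j ∈ T
    · rw [if_neg h1, if_pos h2, if_pos (show j ∈ S ∪ T from Or.inr h2), zero_add]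
    · rw [if_neg h1, if_neg h2, if_neg (show j ∉ S ∪ T by rintro (h3 | h3) <;> contradiction), zero_add]
theorem Pr_univ : Pr Set.univ = 1 := by
  unfold Pr
  simp only [Set.mem_univ, if_true]
  exact dg_one



end Pool.Agent.Helper499.NC
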