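import Pool.Agent.NestConn.Defs

set_option autoImplicit false

namespace Pool.Agent.Helper499.NC

theorem op_ext_ev {X Y : Op} (h : ∀ j, X (ev j) = Y (ev j)) : X = Y := by
  apply op_ext
  intro i j
  unfold ent
  rw [h j]

theorem orthonormal_ev_comp (φ : ℕ → ℕ) (hφ : Function.Injective φ) :
    Orthonormal ℂ (fun k => ev (φ k)) := by
  constructor
  · intro k; exact norm_ev _
  · intro a b hab
    show inner ℂ (ev (φ a)) (ev (φ b)) = 0
    rw [inner_ev_left, ev_apply, if_neg (fun h => hab (hφ h))]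

theorem exists_V (φ : ℕ → ℕ) (hφ : Function.Injective φ) : ∃ W : Op, ∀ k, W (ev k) = ev (φ k) := by
  refine ⟨(orthonormal_ev_comp φ hφ).orthogonalFamily.linearIsometry.toContinuousLinearMap, ?_⟩
  intro k
  have h := (orthonormal_ev_comp φ hφ).orthogonalFamily.linearIsometry_apply_single (i := k) (1:ℂ)
  unfold ev at h ⊢
  simpa using h

theorem V_apply (φ : ℕ → ℕ) (hφ : Function.Injective φ) (k : ℕ) : V φ (ev k) = ev (φ k) := by
  have h := exists_V φ hφ
  unfold V
  rw [dif_pos h]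
  exact h.choose_spec k

theorem inner_star (X : Op) (u v : Hs) : inner ℂ u (star X v) = inner ℂ (X u) v := by
  rw [ContinuousLinearMap.star_eq_adjoint, ContinuousLinearMap.adjoint_inner_right]

theorem inner_star' (X : Op) (u v : Hs) : inner ℂ (star X u) v = inner ℂ u (X v) := by
  rw [ContinuousLinearMap.star_eq_adjoint, ContinuousLinearMap.adjoint_inner_left]

theorem star_V_mul_V (φ : ℕ → ℕ) (hφ : Function.Injective φ) : star (V φ) * V φ = 1 := by
  apply op_ext
  intro i j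
  rw [ent_eq_inner, ent_one]
  show inner ℂ (ev i) (star (V φ) (V φ (ev j))) = _
  rw [inner_star, V_apply φ hφ, V_apply φ hφ, inner_ev_left, ev_apply]
  by_cases h : i = j
  · subst h; simp
  · rw [if_neg h, if_neg (fun h' => h (hφ h'))]

theorem star_V_range (φ : ℕ → ℕ) (hφ : Function.Injective φ) (k : ℕ) : star (V φ) (ev (φ k)) = ev k := by
  rw [← V_apply φ hφ]
  have h := congrArg (fun X : Op => X (ev k)) (star_V_mul_V φ hφ)
  exact h

theorem star_V_not (φ : ℕ → ℕ) (hφ : Function.Injective φ) (m : ℕ) (hm : m ∉ Set.range φ) :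
    star (V φ) (ev m) = 0 := by
  apply lp.ext
  funext i
  rw [← inner_ev_left, inner_star, V_apply φ hφ, inner_ev_left, ev_apply,
    if_neg (fun h => hm ⟨i, h⟩)]
  rfl

theorem Pr_ev (S : Set ℕ) (m : ℕ) (hm : m ∈ S) : Pr S (ev m) = ev m := by
  classical
  apply lp.ext
  funext i
  have hb : ∀ n, ‖(fun j => if j ∈ S then (1:ℂ) else 0) n‖ ≤ 1 := by
    intro n
    show ‖(if n ∈ S then (1:ℂ) else 0)‖ ≤ 1
    split_ifs <;> simp
  unfold Pr
  have h := dg_apply _ hb (ev m) i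
  rw [show (dg fun j => if j ∈ S then (1:ℂ) else 0) = dg (fun j => if j ∈ S then (1:ℂ) else 0) from rfl] at h
  convert h using 1
  rw [ev_apply]
  by_cases hi : i = m
  · subst hi; simp [hm]
  · simp [hi]

theorem Pr_ev_not (S : Set ℕ) (m : ℕ) (hm : m ∉ S) : Pr S (ev m) = 0 := by
  classical
  apply lp.ext
  funext i
  have hb : ∀ n, ‖(fun j => if j ∈ S then (1:ℂ) else 0) n‖ ≤ 1 := by
    intro n
    show ‖(if n ∈ S then (1:ℂ) else 0)‖ ≤ 1
    split_ifs <;> simp
  unfold Pr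
  have h := dg_apply _ hb (ev m) i
  convert h using 1
  rw [ev_apply]
  by_cases hi : i = m
  · subst hi; simp [hm]
  · simp [hi]

theorem V_mul_star_V (φ : ℕ → ℕ) (hφ : Function.Injective φ) : V φ * star (V φ) = Pr (Set.range φ) := by
  apply op_ext_ev
  intro m
  show V φ (star (V φ) (ev m)) = _
  by_cases hm : m ∈ Set.range φ
  · obtain ⟨k, rfl⟩ := hm
    rw [star_V_range φ hφ, V_apply φ hφ, Pr_ev _ _ (Set.mem_range_self k)]
  · rw [star_V_not φ hφ m hm, map_zero, Pr_ev_not _ _ hm]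

theorem norm_V_le (φ : ℕ → ℕ) (hφ : Function.Injective φ) : ‖V φ‖ ≤ 1 := by
  have h := CStarRing.norm_star_mul_self (x := V φ)
  rw [star_V_mul_V φ hφ] at h
  have h1 : ‖(1 : Op)‖ ≤ 1 := ContinuousLinearMap.norm_id_le
  by_contra hc
  push Not at hc
  nlinarith

theorem V_comp (φ ψ : ℕ → ℕ) (hφ : Function.Injective φ) (hψ : Function.Injective ψ) :
    V φ * V ψ = V (φ ∘ ψ) := by
  apply op_ext_ev
  intro m
  show V φ (V ψ (ev m)) = _
  rw [V_apply ψ hψ, V_apply φ hφ, V_apply _ (hφ.comp hψ)]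
  rfl

theorem V_orth (φ ψ : ℕ → ℕ) (hφ : Function.Injective φ) (hψ : Function.Injective ψ)
    (h : ∀ a b, φ a ≠ ψ b) : star (V φ) * V ψ = 0 := by
  apply op_ext_ev
  intro m
  show star (V φ) (V ψ (ev m)) = 0
  rw [V_apply ψ hψ, star_V_not φ hφ]
  rintro ⟨a, ha⟩
  exact h a m ha

/-- entries of `V φ * A * star (V ψ)` -/
theorem ent_V_range (φ ψ : ℕ → ℕ) (hφ : Function.Injective φ) (hψ : Function.Injective ψ) (A : Op) (a b : ℕ) :
    ent (V φ * A * star (V ψ)) (φ a) (ψ b) = ent A a b := by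
  rw [ent_eq_inner, ent_eq_inner]
  show inner ℂ (ev (φ a)) (V φ (A (star (V ψ) (ev (ψ b))))) = _
  rw [star_V_range ψ hψ, ← inner_star', star_V_range φ hφ]

theorem ent_V_not (φ ψ : ℕ → ℕ) (hφ : Function.Injective φ) (hψ : Function.Injective ψ) (A : Op) (i j : ℕ)
    (h : i ∉ Set.range φ ∨ j ∉ Set.range ψ) :
    ent (V φ * A * star (V ψ)) i j = 0 := by
  rw [ent_eq_inner]
  show inner ℂ (ev i) (V φ (A (star (V ψ) (ev j)))) = _
  rcases h with h | h
  · rw [← inner_star', star_V_not φ hφ _ h, inner_zero_left]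
  · rw [star_V_not ψ hψ _ h, map_zero, map_zero, inner_zero_right]

theorem ent_comp_V (φ ψ : ℕ → ℕ) (hφ : Function.Injective φ) (hψ : Function.Injective ψ) (A : Op) (a b : ℕ) :
    ent (star (V φ) * A * V ψ) a b = ent A (φ a) (ψ b) := by
  rw [ent_eq_inner, ent_eq_inner]
  show inner ℂ (ev a) (star (V φ) (A (V ψ (ev b)))) = _
  rw [inner_star, V_apply φ hφ, V_apply ψ hψ]



end Pool.Agent.Helper499.NC
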