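import Pool.Agent.NestConn.T1
import Pool.Agent.NestConn.T2
import Pool.Agent.NestConn.T3

set_option autoImplicit false

namespace Pool.Agent.Helper499.NC

theorem emb_one (φ : ℕ → ℕ) : emb φ 1 = 1 := by
  simp [emb]
theorem emb_mul (φ : ℕ → ℕ) (hφ : Function.Injective φ) (A B : Op) : emb φ (A * B) = emb φ A * emb φ B := by
  have h := star_V_mul_V φ hφ
  unfold emb
  have h1 : (V φ * (A - 1) * star (V φ)) * (V φ * (B - 1) * star (V φ))
      = V φ * ((A - 1) * (B - 1)) * star (V φ) := by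
    calc (V φ * (A - 1) * star (V φ)) * (V φ * (B - 1) * star (V φ))
        = V φ * (A - 1) * (star (V φ) * V φ) * (B - 1) * star (V φ) := by
          simp only [mul_assoc]
      _ = V φ * ((A - 1) * (B - 1)) * star (V φ) := by
          rw [h]; simp only [mul_assoc, one_mul]
  have h2 : A * B - 1 = (A - 1) + (B - 1) + (A - 1) * (B - 1) := by noncomm_ring
  have h3 : V φ * ((A - 1) + (B - 1) + (A - 1) * (B - 1)) * star (V φ)
      = V φ * (A - 1) * star (V φ) + V φ * (B - 1) * star (V φ)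
        + V φ * ((A - 1) * (B - 1)) * star (V φ) := by
    rw [mul_add, mul_add, add_mul, add_mul]
  have gen : ∀ p q : Op, (1 + p) * (1 + q) = 1 + (p + q + p * q) := by
    intro p q; noncomm_ring
  rw [h2, h3, ← h1, gen]
theorem norm_sV_le (φ : ℕ → ℕ) (hφ : Function.Injective φ) : ‖star (V φ)‖ ≤ 1 := by
  rw [ContinuousLinearMap.star_eq_adjoint, LinearIsometryEquiv.norm_map]; exact norm_V_le φ hφ
theorem norm_V_apply (φ : ℕ → ℕ) (hφ : Function.Injective φ) (x : Hs) : ‖V φ x‖ = ‖x‖ := by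
  apply le_antisymm
  · calc ‖V φ x‖ ≤ ‖V φ‖ * ‖x‖ := (V φ).le_opNorm x
      _ ≤ 1 * ‖x‖ := by gcongr; exact norm_V_le φ hφ
      _ = ‖x‖ := one_mul _
  · have h : star (V φ) (V φ x) = x := by
      have := congrArg (fun T : Op => T x) (star_V_mul_V φ hφ)
      simpa using this
    calc ‖x‖ = ‖star (V φ) (V φ x)‖ := by rw [h]
      _ ≤ ‖star (V φ)‖ * ‖V φ x‖ := (star (V φ)).le_opNorm _
      _ ≤ 1 * ‖V φ x‖ := by gcongr; exact norm_sV_le φ hφ
      _ = ‖V φ x‖ := one_mul _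
theorem norm_emb_le (φ : ℕ → ℕ) (hφ : Function.Injective φ) (A : Op) (κ : ℝ) (h1 : 1 ≤ κ) (h : ‖A‖ ≤ κ) : ‖emb φ A‖ ≤ κ := by
  have hκ : 0 ≤ κ := by linarith
  refine ContinuousLinearMap.opNorm_le_bound _ hκ (fun x => ?_)
  set y : Hs := star (V φ) x with hy
  set z : Hs := x - V φ y with hz
  have hVV : ∀ w : Hs, star (V φ) (V φ w) = w := by
    intro w
    have := congrArg (fun T : Op => T w) (star_V_mul_V φ hφ)
    simpa using this
  have hz0 : star (V φ) z = 0 := by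
    rw [hz, map_sub, hVV, ← hy, sub_self]
  have horth : ∀ w : Hs, inner ℂ (V φ w) z = 0 := by
    intro w
    rw [← ContinuousLinearMap.adjoint_inner_right, ← ContinuousLinearMap.star_eq_adjoint, hz0,
      inner_zero_right]
  have e1 : x = V φ y + z := by rw [hz]; abel
  have e2 : emb φ A x = V φ (A y) + z := by
    have : emb φ A x = x + V φ ((A - 1) y) := by
      simp only [emb, ContinuousLinearMap.add_apply, ContinuousLinearMap.one_apply]
      rfl
    rw [this, ContinuousLinearMap.sub_apply, ContinuousLinearMap.one_apply, map_sub, hz]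
    abel
  have p1 := norm_add_sq_eq_norm_sq_add_norm_sq_of_inner_eq_zero (𝕜 := ℂ) (V φ y) z (horth y)
  have p2 := norm_add_sq_eq_norm_sq_add_norm_sq_of_inner_eq_zero (𝕜 := ℂ) (V φ (A y)) z (horth (A y))
  rw [← e1, norm_V_apply φ hφ] at p1
  rw [← e2, norm_V_apply φ hφ] at p2
  have hA : ‖A y‖ ≤ κ * ‖y‖ := (A.le_opNorm y).trans (by gcongr)
  refine (mul_self_le_mul_self_iff (norm_nonneg _) (by positivity)).2 ?_
  have hA2 : ‖A y‖ * ‖A y‖ ≤ (κ * ‖y‖) * (κ * ‖y‖) := mul_self_le_mul_self (norm_nonneg _) hA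
  have hk2 : 1 ≤ κ * κ := by nlinarith
  have hz2 : ‖z‖ * ‖z‖ ≤ κ * κ * (‖z‖ * ‖z‖) := by
    have := mul_le_mul_of_nonneg_right hk2 (mul_self_nonneg ‖z‖)
    linarith
  nlinarith
theorem norm_emb_sub_one_le (φ : ℕ → ℕ) (hφ : Function.Injective φ) (A : Op) : ‖emb φ A - 1‖ ≤ ‖A - 1‖ := by
  have : emb φ A - 1 = V φ * (A - 1) * star (V φ) := by unfold emb; abel
  rw [this]
  calc ‖V φ * (A - 1) * star (V φ)‖ ≤ ‖V φ * (A - 1)‖ * ‖star (V φ)‖ := norm_mul_le _ _
    _ ≤ (‖V φ‖ * ‖A - 1‖) * ‖star (V φ)‖ := by gcongr; exact norm_mul_le _ _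
    _ ≤ (1 * ‖A - 1‖) * 1 := by
        gcongr
        · exact norm_V_le φ hφ
        · exact norm_sV_le φ hφ
    _ = ‖A - 1‖ := by ring
theorem emb_ut (φ : ℕ → ℕ) (hφ : StrictMono φ) (A : Op) (hA : UT A) : UT (emb φ A) := by
  unfold emb
  refine UT_add UT_one ?_
  intro i j hij
  by_cases h : i ∉ Set.range φ ∨ j ∉ Set.range φ
  · exact ent_V_not φ φ hφ.injective hφ.injective _ i j h
  · push Not at h
    obtain ⟨⟨a, rfl⟩, ⟨b, rfl⟩⟩ := h
    rw [ent_V_range φ φ hφ.injective hφ.injective]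
    exact UT_sub hA UT_one a b (hφ.lt_iff_lt.1 hij)
theorem emb_emb (φ ψ : ℕ → ℕ) (hφ : Function.Injective φ) (hψ : Function.Injective ψ) (A : Op) : emb φ (emb ψ A) = emb (φ ∘ ψ) A := by
  unfold emb
  rw [add_sub_cancel_left, ← V_comp φ ψ hφ hψ, star_mul]
  simp only [mul_assoc]
theorem emb_on (φ : ℕ → ℕ) (hφ : Function.Injective φ) (S : Set ℕ) (A : Op) (hA : On S A) : On (φ '' S) (emb φ A) := by
  intro i j hij
  unfold emb
  rw [ent_add]
  have h0 : ent (V φ * (A - 1) * star (V φ)) i j = 0 := by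
    by_cases h : i ∉ Set.range φ ∨ j ∉ Set.range φ
    · exact ent_V_not φ φ hφ hφ _ i j h
    · push Not at h
      obtain ⟨⟨a, rfl⟩, ⟨b, rfl⟩⟩ := h
      rw [ent_V_range φ φ hφ hφ, ent_sub, hA a b, sub_self]
      rcases hij with h | h
      · left; intro ha; exact h ⟨a, ha, rfl⟩
      · right; intro hb; exact h ⟨b, hb, rfl⟩
  rw [h0, add_zero]
theorem emb_cls (φ : ℕ → ℕ) (hφ : StrictMono φ) (κ : ℝ) (h1 : 1 ≤ κ) (A B : Op) (h : Cls κ A B) : Cls κ (emb φ A) (emb φ B) := by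
  obtain ⟨hA, hB, hAB, hBA, nA, nB⟩ := h
  refine ⟨emb_ut φ hφ A hA, emb_ut φ hφ B hB, ?_, ?_, norm_emb_le φ hφ.injective A κ h1 nA,
    norm_emb_le φ hφ.injective B κ h1 nB⟩
  · rw [← emb_mul φ hφ.injective, hAB, emb_one]
  · rw [← emb_mul φ hφ.injective, hBA, emb_one]
/-- an operator living on the range of `φ` comes from an embedding -/
theorem exists_emb (φ : ℕ → ℕ) (hφ : StrictMono φ) (κ : ℝ) (A B : Op) (h : Cls κ A B) (hA : On (Set.range φ) A) (hB : On (Set.range φ) B) :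
    ∃ A' B', Cls κ A' B' ∧ emb φ A' = A ∧ emb φ B' = B ∧ (∀ a b, ent A' a b = ent A (φ a) (φ b)) := by
  have hi := hφ.injective
  have key : ∀ X : Op, On (Set.range φ) X → emb φ (star (V φ) * X * V φ) = X := by
    intro X hX
    apply op_ext
    intro i j
    unfold emb
    rw [ent_add]
    by_cases h : i ∉ Set.range φ ∨ j ∉ Set.range φ
    · rw [ent_V_not φ φ hi hi _ i j h, add_zero, hX i j h]
    · push Not at h
      obtain ⟨⟨a, rfl⟩, ⟨b, rfl⟩⟩ := h
      rw [ent_V_range φ φ hi hi, ent_sub, ent_comp_V φ φ hi hi]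
      rw [ent_one, ent_one]
      by_cases hab : a = b
      · subst hab; simp
      · rw [if_neg hab, if_neg (fun h => hab (hi h))]; ring
  have key2 : ∀ X : Op, On (Set.range φ) X → X * V φ = V φ * (star (V φ) * X * V φ) := by
    intro X hX
    conv_lhs => rw [← key X hX]
    unfold emb
    rw [add_mul, mul_assoc, mul_assoc, star_V_mul_V φ hi, mul_one, mul_sub, mul_one, one_mul]
    abel
  have hprod : ∀ X Y : Op, On (Set.range φ) Y → X * Y = 1 →
      (star (V φ) * X * V φ) * (star (V φ) * Y * V φ) = 1 := by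
    intro X Y hY hXY
    calc (star (V φ) * X * V φ) * (star (V φ) * Y * V φ)
        = star (V φ) * X * (V φ * (star (V φ) * Y * V φ)) := by simp only [mul_assoc]
      _ = star (V φ) * X * (Y * V φ) := by rw [← key2 Y hY]
      _ = star (V φ) * (X * Y) * V φ := by simp only [mul_assoc]
      _ = 1 := by rw [hXY, mul_one, star_V_mul_V φ hi]
  have hUT : ∀ X : Op, UT X → UT (star (V φ) * X * V φ) := by
    intro X hX i j hij
    rw [ent_comp_V φ φ hi hi]
    exact hX _ _ (hφ hij)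
  have hn : ∀ X : Op, ‖X‖ ≤ κ → ‖star (V φ) * X * V φ‖ ≤ κ := by
    intro X hX
    calc ‖star (V φ) * X * V φ‖ ≤ ‖star (V φ) * X‖ * ‖V φ‖ := norm_mul_le _ _
      _ ≤ (‖star (V φ)‖ * ‖X‖) * ‖V φ‖ := by gcongr; exact norm_mul_le _ _
      _ ≤ (1 * ‖X‖) * 1 := by
          gcongr
          · exact norm_sV_le φ hi
          · exact norm_V_le φ hi
      _ ≤ κ := by linarith
  obtain ⟨uA, uB, hAB, hBA, nA, nB⟩ := h
  exact ⟨star (V φ) * A * V φ, star (V φ) * B * V φ,
    ⟨hUT A uA, hUT B uB, hprod A B hB hAB, hprod B A hA hBA, hn A nA, hn B nB⟩,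
    key A hA, key B hB, fun a b => ent_comp_V φ φ hi hi A a b⟩



end Pool.Agent.Helper499.NC
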